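import Mathlib

/-!
# Cocycles with values in vector spaces with a norm that the group respects modulo smaller vectors
-/

set_option autoImplicit false

namespace Pool.Agent.NH6

open Filter Topology

/-- an ultrametric norm on the vector space `W` over the normed field `E` -/
structure UNorm (E : Type) {W : Type} [NormedField E] [AddCommGroup W] [Module E W]
    (n : W → ℝ) : Prop where
  add : ∀ v w, n (v + w) ≤ max (n v) (n w)
  smul : ∀ (a : E) v, n (a • v) = ‖a‖ * n v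
  pos : ∀ v, v ≠ 0 → 0 < n v

namespace UNorm

variable {E W : Type} [NormedField E] [AddCommGroup W] [Module E W] {n : W → ℝ} (h : UNorm E n)

include h

lemma zero : n 0 = 0 := by
  have := h.smul 0 0
  rwa [zero_smul, norm_zero, zero_mul] at this

lemma nonneg (v : W) : 0 ≤ n v := by
  by_cases h0 : v = 0
  · rw [h0, h.zero]
  · exact (h.pos v h0).le

lemma neg (v : W) : n (-v) = n v := by
  have := h.smul (-1) v
  rwa [neg_one_smul, norm_neg, norm_one, one_mul] at this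

lemma sub (v w : W) : n (v - w) ≤ max (n v) (n w) := by
  rw [sub_eq_add_neg, ← h.neg w]
  exact h.add v (-w)

lemma add_lt {v w : W} {r : ℝ} (hv : n v < r) (hw : n w < r) : n (v + w) < r :=
  (h.add v w).trans_lt (max_lt hv hw)

lemma sub_lt {v w : W} {r : ℝ} (hv : n v < r) (hw : n w < r) : n (v - w) < r :=
  (h.sub v w).trans_lt (max_lt hv hw)

lemma sub_le {v w : W} {r : ℝ} (hv : n v ≤ r) (hw : n w ≤ r) : n (v - w) ≤ r :=
  (h.sub v w).trans (max_le hv hw)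

lemma add_eq {v w : W} (hw : n w < n v) : n (v + w) = n v := by
  refine le_antisymm ((h.add v w).trans (max_le le_rfl hw.le)) ?_
  by_contra hcon
  push Not at hcon
  have h1 : n v < n v := by
    have e : v = (v + w) - w := by abel
    nth_rw 1 [e]
    exact h.sub_lt hcon hw
  exact lt_irrefl _ h1

lemma eq_zero {v : W} (hv : n v ≤ 0) : v = 0 := by
  by_contra h0
  exact absurd (h.pos v h0) (not_lt.2 hv)

/-- the open ball as a group -/
def ball {r : ℝ} (hr : 0 < r) : AddSubgroup W where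
  carrier := {v | n v < r}
  zero_mem' := by
    show n 0 < r
    rwa [h.zero]
  add_mem' := fun hv hw => h.add_lt hv hw
  neg_mem' := fun {v} hv => by
    show n (-v) < r
    rw [h.neg]
    exact hv

lemma mem_ball {r : ℝ} (hr : 0 < r) {v : W} : v ∈ h.ball hr ↔ n v < r := Iff.rfl

end UNorm

/-- homomorphisms to elementary abelian `2`-groups that are trivial on `D` and on the members of
`Is` are trivial -/
def Rigid {G : Type} [Group G] [TopologicalSpace G] (D : Set G) (Is : Set (Set G)) : Prop :=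
  ∀ (A : Type) [AddCommGroup A] (f : G → A), IsLocallyConstant f →
    (∀ σ τ, f (σ * τ) = f σ + f τ) → (∀ σ, f σ + f σ = 0) → (∀ σ ∈ D, f σ = 0) →
    (∀ I ∈ Is, ∀ σ ∈ I, f σ = 0) → ∀ σ, f σ = 0

section

variable {G E W : Type} [Group G] [NormedField E] [AddCommGroup W]
  [Module E W] {n : W → ℝ} {R : Representation E G W} {c : G → W}

/-- surjectivity of `φ - 1` -/
lemma surj_of_inj [FiniteDimensional E W] {φ : G} (hφ : ∀ v, R φ v = v → v = 0) (w : W) :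
    ∃ v, w = R φ v - v := by
  have h1 : Function.Injective (R φ - 1 : W →ₗ[E] W) := by
    rw [← LinearMap.ker_eq_bot, LinearMap.ker_eq_bot']
    intro v hv
    apply hφ
    rw [LinearMap.sub_apply, Module.End.one_apply, sub_eq_zero] at hv
    exact hv
  obtain ⟨v, hv⟩ := LinearMap.surjective_of_injective h1 w
  exact ⟨v, by rw [← hv]; rfl⟩

lemma coc_one (hc : ∀ σ τ, c (σ * τ) = c σ + R σ (c τ)) : c 1 = 0 := by
  have h := hc 1 1
  rw [mul_one, map_one, Module.End.one_apply] at h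
  exact left_eq_add.1 h

/-- from the inertia group to the Frobenius element -/
lemma ext_frob [FiniteDimensional E W] (hc : ∀ σ τ, c (σ * τ) = c σ + R σ (c τ)) {I : Set G}
    (hI : ∃ y, ∀ σ ∈ I, c σ = R σ y - y) {φ : G} (hn : ∀ σ ∈ I, φ * σ * φ⁻¹ ∈ I)
    (hφ : ∀ v, R φ v = v → v = 0) :
    ∃ y, c φ = R φ y - y ∧ ∀ σ ∈ I, c σ = R σ y - y := by
  obtain ⟨y₁, hy₁⟩ := hI
  obtain ⟨y₂, hy₂⟩ := surj_of_inj hφ (c φ)
  refine ⟨y₂, hy₂, ?_⟩
  -- the difference of the two vectors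
  set z : W := y₁ - y₂ with hz
  have hRinv : ∀ v, R φ (R φ⁻¹ v) = v := by
    intro v
    rw [← Module.End.mul_apply, ← map_mul, mul_inv_cancel, map_one, Module.End.one_apply]
  have hRinv' : ∀ v, R φ⁻¹ (R φ v) = v := by
    intro v
    rw [← Module.End.mul_apply, ← map_mul, inv_mul_cancel, map_one, Module.End.one_apply]
  -- the invariants
  let V : Submodule E W :=
    { carrier := {v | ∀ σ ∈ I, R σ v = v}
      zero_mem' := fun σ _ => map_zero _
      add_mem' := fun {a b} ha hb σ hσ => by rw [map_add, ha σ hσ, hb σ hσ]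
      smul_mem' := fun a v hv σ hσ => by rw [map_smul, hv σ hσ] }
  have hstab : ∀ v ∈ V, R φ⁻¹ v ∈ V := by
    intro v hv σ hσ
    have h1 : R (φ * σ * φ⁻¹) v = v := hv _ (hn σ hσ)
    have h2 : R σ (R φ⁻¹ v) = R φ⁻¹ (R (φ * σ * φ⁻¹) v) := by
      rw [← Module.End.mul_apply, ← Module.End.mul_apply, ← map_mul, ← map_mul]
      congr 2
      group
    rw [h2, h1]
  have hzV : R φ⁻¹ z - z ∈ V := by
    intro σ hσ
    -- the cocycle `c - ∂ y₂` vanishes at `φ`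
    have h1 : c (φ * σ * φ⁻¹) = R (φ * σ * φ⁻¹) y₁ - y₁ := hy₁ _ (hn σ hσ)
    have h2 : c σ = R σ y₁ - y₁ := hy₁ σ hσ
    have h3 : c φ⁻¹ = R φ⁻¹ y₂ - y₂ := by
      have h4 : c (φ⁻¹ * φ) = c φ⁻¹ + R φ⁻¹ (c φ) := hc _ _
      rw [inv_mul_cancel, coc_one hc, hy₂, map_sub, hRinv'] at h4
      rw [← add_eq_zero_iff_eq_neg.1 h4.symm |>.symm] at *
      rw [eq_comm, add_eq_zero_iff_eq_neg] at h4
      rw [h4]
      abel
    have h5 : c (φ * σ * φ⁻¹) = c φ + R φ (c σ) + R (φ * σ) (c φ⁻¹) := by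
      rw [hc (φ * σ) φ⁻¹, hc φ σ]
    have e1 : R (φ * σ * φ⁻¹) y₁ = R φ (R σ (R φ⁻¹ y₁)) := by
      rw [map_mul, map_mul, Module.End.mul_apply, Module.End.mul_apply]
    have e2 : ∀ v, R (φ * σ) v = R φ (R σ v) := fun v => by
      rw [map_mul, Module.End.mul_apply]
    rw [h1, h2, h3, hy₂, e1, e2] at h5
    simp only [map_sub] at h5
    -- apply the inverse of `φ`
    have h6 := congrArg (R φ⁻¹) h5
    simp only [map_sub, map_add, hRinv'] at h6
    rw [hz]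
    simp only [map_sub]
    have e3 : R σ (R φ⁻¹ y₁) - R σ (R φ⁻¹ y₂) - (R σ y₁ - R σ y₂) -
        (R φ⁻¹ y₁ - R φ⁻¹ y₂ - (y₁ - y₂)) = (R σ (R φ⁻¹ y₁) - R φ⁻¹ y₁) -
        (y₂ - R φ⁻¹ y₂ + (R σ y₁ - y₁) + (R σ (R φ⁻¹ y₂) - R σ y₂)) := by abel
    rw [← sub_eq_zero, e3, h6, sub_self]
  -- solve in the invariants
  have hres : ∀ v ∈ V, (R φ⁻¹ - 1 : W →ₗ[E] W) v ∈ V := by
    intro v hv
    rw [LinearMap.sub_apply, Module.End.one_apply]
    exact sub_mem (hstab v hv) hv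
  let L : V →ₗ[E] V := (R φ⁻¹ - 1 : W →ₗ[E] W).restrict hres
  have hinj0 : ∀ v, R φ⁻¹ v = v → v = 0 := by
    intro v hv
    apply hφ
    nth_rw 1 [← hv]
    exact hRinv v
  have hL : Function.Injective L := by
    rw [← LinearMap.ker_eq_bot, LinearMap.ker_eq_bot']
    rintro ⟨v, hv⟩ h1
    have h2 : R φ⁻¹ v - v = 0 := congrArg Subtype.val h1
    exact Subtype.ext (hinj0 v (sub_eq_zero.1 h2))
  obtain ⟨⟨u, hu⟩, hu2⟩ := LinearMap.surjective_of_injective hL ⟨_, hzV⟩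
  have hu3 : R φ⁻¹ u - u = R φ⁻¹ z - z := congrArg Subtype.val hu2
  have hzu : z = u := by
    have h1 : R φ⁻¹ (z - u) = z - u := by
      rw [map_sub, sub_eq_sub_iff_sub_eq_sub, ← hu3]
    exact sub_eq_zero.1 (hinj0 _ h1)
  intro σ hσ
  have h1 : R σ z = z := by rw [hzu]; exact hu σ hσ
  rw [hy₁ σ hσ]
  have e : y₁ = z + y₂ := by rw [hz]; abel
  rw [e, map_add, h1]
  abel

variable [TopologicalSpace G] [CompactSpace G]

/-- the maximum of the norm -/
lemma exists_max (hn : UNorm E n)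
    (hcont : ∀ σ, ∀ ε > 0, ∀ᶠ τ in 𝓝 σ, n (c τ - c σ) < ε) : ∃ σ₀, ∀ σ, n (c σ) ≤ n (c σ₀) := by
  have h1 : Continuous fun σ => n (c σ) := by
    rw [continuous_iff_continuousAt]
    intro σ
    rw [ContinuousAt, Metric.tendsto_nhds]
    intro ε hε
    by_cases h0 : c σ = 0
    · filter_upwards [hcont σ ε hε] with τ hτ
      rw [h0, sub_zero] at hτ
      rw [h0, hn.zero, Real.dist_eq, sub_zero, abs_of_nonneg (hn.nonneg _)]
      exact hτ
    · filter_upwards [hcont σ (n (c σ)) (hn.pos _ h0)] with τ hτ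
      have e : c τ = c σ + (c τ - c σ) := by abel
      rw [e, hn.add_eq hτ, dist_self]
      exact hε
  obtain ⟨σ₀, -, h2⟩ := isCompact_univ.exists_isMaxOn ⟨1, Set.mem_univ _⟩ h1.continuousOn
  exact ⟨σ₀, fun σ => h2 (Set.mem_univ σ)⟩

/-- a cocycle that is small where rigidity tests it vanishes -/
theorem vanish_of_small (hn : UNorm E n) (h2 : ‖(2 : E)‖ < 1)
    (hR : ∀ σ v, v ≠ 0 → n (R σ v - v) < n v)
    (hc : ∀ σ τ, c (σ * τ) = c σ + R σ (c τ))
    (hcont : ∀ σ, ∀ ε > 0, ∀ᶠ τ in 𝓝 σ, n (c τ - c σ) < ε)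
    {D : Set G} {Is : Set (Set G)} (hP : Rigid D Is)
    (hD : ∀ M : ℝ, 0 < M → (∀ σ, n (c σ) ≤ M) → ∀ σ ∈ D, n (c σ) < M)
    (hI : ∀ M : ℝ, 0 < M → (∀ σ, n (c σ) ≤ M) → ∀ I ∈ Is, ∀ σ ∈ I, n (c σ) < M) :
    ∀ σ, c σ = 0 := by
  obtain ⟨σ₀, hσ₀⟩ := exists_max hn hcont
  by_cases hM : 0 < n (c σ₀)
  · exfalso
    have h3 := hP (W ⧸ hn.ball hM) (fun σ => (QuotientAddGroup.mk (c σ) : W ⧸ hn.ball hM)) ?_ ?_ ?_
      ?_ ?_ σ₀
    · rw [QuotientAddGroup.eq_zero_iff] at h3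
      exact lt_irrefl _ ((hn.mem_ball hM).1 h3)
    · rw [IsLocallyConstant.iff_eventually_eq]
      intro σ
      filter_upwards [hcont σ _ hM] with τ hτ
      rw [QuotientAddGroup.eq, hn.mem_ball, ← hn.neg]
      have e : -(-c τ + c σ) = c τ - c σ := by abel
      rw [e]
      exact hτ
    · intro σ τ
      rw [← QuotientAddGroup.mk_add, QuotientAddGroup.eq, hn.mem_ball, ← hn.neg, hc]
      have e : -(-(c σ + R σ (c τ)) + (c σ + c τ)) = R σ (c τ) - c τ := by abel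
      rw [e]
      by_cases h0 : c τ = 0
      · rw [h0, map_zero, sub_zero, hn.zero]
        exact hM
      · exact (hR σ _ h0).trans_le (hσ₀ τ)
    · intro σ
      rw [← QuotientAddGroup.mk_add, QuotientAddGroup.eq_zero_iff, hn.mem_ball]
      have e : c σ + c σ = (2 : E) • c σ := by rw [two_smul]
      rw [e, hn.smul]
      have := hσ₀ σ
      have h4 := hn.nonneg (c σ)
      have h5 := norm_nonneg (2 : E)
      nlinarith
    · intro σ hσ
      rw [QuotientAddGroup.eq_zero_iff, hn.mem_ball]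
      exact hD _ hM hσ₀ σ hσ
    · intro I hI' σ hσ
      rw [QuotientAddGroup.eq_zero_iff, hn.mem_ball]
      exact hI _ hM hσ₀ I hI' σ hσ
  · intro σ
    exact hn.eq_zero ((hσ₀ σ).trans (not_lt.1 hM))

/-- **The abstract vanishing theorem.** -/
theorem abs_main [FiniteDimensional E W] (hn : UNorm E n) (h2 : ‖(2 : E)‖ < 1)
    (hR : ∀ σ v, v ≠ 0 → n (R σ v - v) < n v)
    (hc : ∀ σ τ, c (σ * τ) = c σ + R σ (c τ))
    (hcont : ∀ σ, ∀ ε > 0, ∀ᶠ τ in 𝓝 σ, n (c τ - c σ) < ε)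
    (hRcont : ∀ v σ, ∀ ε > 0, ∀ᶠ τ in 𝓝 σ, n (R τ v - R σ v) < ε)
    {D : Set G} {Is : Set (Set G)} (hP : Rigid D Is)
    (hD : ∃ y, ∀ σ ∈ D, c σ = R σ y - y)
    (hI : ∀ I ∈ Is, (∃ y, ∀ σ ∈ I, c σ = R σ y - y) ∧ ((∀ σ ∈ I, ∀ v, R σ v = v) ∨
      ∃ φ, (∀ σ ∈ I, φ * σ * φ⁻¹ ∈ I) ∧ (∀ v, R φ v = v → v = 0) ∧
        ∀ σ ∈ I, ∀ v, v ≠ 0 → n (R σ v - v) < n (R φ v - v))) :
    ∃ y, ∀ σ, c σ = R σ y - y := by
  obtain ⟨y₀, hy₀⟩ := hD
  refine ⟨y₀, ?_⟩
  have key : ∀ σ, c σ - (R σ y₀ - y₀) = 0 := by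
    have hc' : ∀ σ τ, c (σ * τ) - (R (σ * τ) y₀ - y₀) = c σ - (R σ y₀ - y₀) +
        R σ (c τ - (R τ y₀ - y₀)) := by
      intro σ τ
      rw [hc, map_mul, Module.End.mul_apply]
      simp only [map_sub]
      abel
    refine vanish_of_small (c := fun σ => c σ - (R σ y₀ - y₀)) hn h2 hR hc' ?_ hP ?_ ?_
    · intro σ ε hε
      filter_upwards [hcont σ ε hε, hRcont y₀ σ ε hε] with τ h3 h4
      have e : c τ - (R τ y₀ - y₀) - (c σ - (R σ y₀ - y₀)) = (c τ - c σ) - (R τ y₀ - R σ y₀) := by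
        abel
      show n (c τ - (R τ y₀ - y₀) - (c σ - (R σ y₀ - y₀))) < ε
      rw [e]
      exact hn.sub_lt h3 h4
    · intro M hM _ σ hσ
      show n (c σ - (R σ y₀ - y₀)) < M
      rw [hy₀ σ hσ, sub_self, hn.zero]
      exact hM
    · intro M hM hM' I hI' σ hσ
      obtain ⟨⟨y, hy⟩, h3⟩ := hI I hI'
      have hy' : ∃ y, ∀ σ ∈ I, c σ - (R σ y₀ - y₀) = R σ y - y :=
        ⟨y - y₀, fun σ hσ => by rw [hy σ hσ, map_sub]; abel⟩
      show n (c σ - (R σ y₀ - y₀)) < M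
      rcases h3 with h3 | ⟨φ, hnor, hinj, hlt⟩
      · obtain ⟨y', hy'⟩ := hy'
        rw [hy' σ hσ, h3 σ hσ, sub_self, hn.zero]
        exact hM
      · obtain ⟨y', h4, h5⟩ := ext_frob (c := fun σ => c σ - (R σ y₀ - y₀)) hc' hy' hnor hinj
        have h5' : c σ - (R σ y₀ - y₀) = R σ y' - y' := h5 σ hσ
        have h4' : c φ - (R φ y₀ - y₀) = R φ y' - y' := h4
        rw [h5']
        by_cases h6 : y' = 0
        · rw [h6, map_zero, sub_zero, hn.zero]
          exact hM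
        · refine (hlt σ hσ y' h6).trans_le ?_
          rw [← h4']
          exact hM' φ
  intro σ
  exact sub_eq_zero.1 (key σ)

end

end Pool.Agent.NH6
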