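import Pool.Agent.NH6.RQ

/-!
# The vanishing theorem with a normalization and a condition at involutions
-/

set_option autoImplicit false
set_option linter.unusedSectionVars false

namespace Pool.Agent.NH6

open Filter Topology

section abstract

variable {G E W : Type} [Group G] [NormedField E] [AddCommGroup W]
  [Module E W] {n : W → ℝ} {R : Representation E G W} {c : G → W}
  [TopologicalSpace G] [CompactSpace G]

/-- a cocycle that is small where rigidity tests its components vanishes -/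
theorem vanish_of_small3 (hn : UNorm E n) (h2 : ‖(2 : E)‖ < 1)
    (hR : ∀ σ v, v ≠ 0 → n (R σ v - v) < n v)
    (hc : ∀ σ τ, c (σ * τ) = c σ + R σ (c τ))
    (hcont : ∀ σ, ∀ ε > 0, ∀ᶠ τ in 𝓝 σ, n (c τ - c σ) < ε)
    {P : W →ₗ[E] W} (hPn : ∀ v, n (P v) ≤ n v)
    {D₀ D₁ : Set G} {Is : Set (Set G)} (hP₀ : Rigid D₀ Is) (hP₁ : Rigid D₁ Is)
    (hD₀ : ∀ M : ℝ, 0 < M → (∀ σ, n (c σ) ≤ M) → ∀ σ ∈ D₀, n (P (c σ)) < M)
    (hD₁ : ∀ M : ℝ, 0 < M → (∀ σ, n (c σ) ≤ M) → ∀ σ ∈ D₁, n (c σ - P (c σ)) < M)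
    (hI : ∀ M : ℝ, 0 < M → (∀ σ, n (c σ) ≤ M) → ∀ I ∈ Is, ∀ σ ∈ I, n (c σ) < M) :
    ∀ σ, c σ = 0 := by
  obtain ⟨σ₀, hσ₀⟩ := exists_max hn hcont
  by_cases hM : 0 < n (c σ₀)
  · exfalso
    have hQn : ∀ v, n ((LinearMap.id - P : W →ₗ[E] W) v) ≤ n v := by
      intro v
      rw [LinearMap.sub_apply, LinearMap.id_apply]
      exact hn.sub_le le_rfl (hPn v)
    have h3 := proj_small hn h2 hR hc hcont hPn hP₀ hM hσ₀ (hD₀ _ hM hσ₀) (hI _ hM hσ₀) σ₀
    have h4 := proj_small hn h2 hR hc hcont hQn hP₁ hM hσ₀ (hD₁ _ hM hσ₀) (hI _ hM hσ₀) σ₀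
    have h5 := hn.add_lt h3 h4
    rw [LinearMap.sub_apply, LinearMap.id_apply] at h5
    have e : P (c σ₀) + (c σ₀ - P (c σ₀)) = c σ₀ := by abel
    rw [e] at h5
    exact lt_irrefl _ h5
  · intro σ
    exact hn.eq_zero ((hσ₀ σ).trans (not_lt.1 hM))

/-- **The abstract vanishing theorem with a normalization.** -/
theorem abs_main3 [FiniteDimensional E W] (hn : UNorm E n) (h2 : ‖(2 : E)‖ < 1)
    (hR : ∀ σ v, v ≠ 0 → n (R σ v - v) < n v)
    (hc : ∀ σ τ, c (σ * τ) = c σ + R σ (c τ))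
    (hcont : ∀ σ, ∀ ε > 0, ∀ᶠ τ in 𝓝 σ, n (c τ - c σ) < ε)
    (hRcont : ∀ v σ, ∀ ε > 0, ∀ᶠ τ in 𝓝 σ, n (R τ v - R σ v) < ε)
    {P : W →ₗ[E] W} (hPn : ∀ v, n (P v) ≤ n v) (hPP : ∀ v, P (P v) = P v)
    {D₀ D₂ : Set G} {γ : G} {Is : Set (Set G)} (hP₀ : Rigid D₀ Is) (hP₁ : Rigid (insert γ D₂) Is)
    (hs₀ : ∀ σ ∈ D₀, ∀ v, P v = 0 → P (R σ v) = 0)
    (hD₀ : ∃ y, ∀ σ ∈ D₀, P (c σ) = P (R σ y - y))
    (hγ : ∀ v, P v = 0 → (R γ v - v) - P (R γ v - v) = 0 → v = 0)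
    (hD₂ : ∀ σ ∈ D₂, σ * σ = 1 ∧ ∀ v, R σ v = -v → v ≠ 0 → n (v - P v) < n v)
    (hI : ∀ I ∈ Is, (∃ y, ∀ σ ∈ I, c σ = R σ y - y) ∧ ((∀ σ ∈ I, ∀ v, R σ v = v) ∨
      ∃ φ, (∀ σ ∈ I, φ * σ * φ⁻¹ ∈ I) ∧ (∀ v, R φ v = v → v = 0) ∧
        ∀ σ ∈ I, ∀ v, v ≠ 0 → n (R σ v - v) < n (R φ v - v))) :
    ∃ y, ∀ σ, c σ = R σ y - y := by
  obtain ⟨y, hy⟩ := hD₀
  -- the normalization
  obtain ⟨z, hz0, hz⟩ : ∃ z, P z = 0 ∧ (c γ - (R γ y - y)) - P (c γ - (R γ y - y)) =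
      (R γ z - z) - P (R γ z - z) := by
    let Q : W →ₗ[E] W := LinearMap.id - P
    let L₀ : W →ₗ[E] W := Q ∘ₗ (R γ - 1)
    have hQ : ∀ v, P (Q v) = 0 := fun v => by
      rw [LinearMap.sub_apply, LinearMap.id_apply, map_sub, hPP, sub_self]
    have hres : ∀ v ∈ LinearMap.ker P, L₀ v ∈ LinearMap.ker P := fun v _ => hQ _
    let L : LinearMap.ker P →ₗ[E] LinearMap.ker P := L₀.restrict hres
    have hL : Function.Injective L := by
      rw [← LinearMap.ker_eq_bot, LinearMap.ker_eq_bot']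
      rintro ⟨v, hv⟩ h1
      have h2 : L₀ v = 0 := congrArg Subtype.val h1
      refine Subtype.ext (hγ v hv ?_)
      exact h2
    obtain ⟨⟨z, hz⟩, h1⟩ := LinearMap.surjective_of_injective hL
      ⟨Q (c γ - (R γ y - y)), hQ _⟩
    refine ⟨z, hz, ?_⟩
    have h2 : L₀ z = Q (c γ - (R γ y - y)) := congrArg Subtype.val h1
    exact h2.symm
  set y₀ : W := y + z with hy₀
  refine ⟨y₀, ?_⟩
  have key : ∀ σ, c σ - (R σ y₀ - y₀) = 0 := by
    have hc' : ∀ σ τ, c (σ * τ) - (R (σ * τ) y₀ - y₀) = c σ - (R σ y₀ - y₀) +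
        R σ (c τ - (R τ y₀ - y₀)) := by
      intro σ τ
      rw [hc, map_mul, Module.End.mul_apply]
      simp only [map_sub]
      abel
    have e : ∀ σ, c σ - (R σ y₀ - y₀) = c σ - (R σ y - y) - (R σ z - z) := by
      intro σ
      rw [hy₀, map_add]
      abel
    refine vanish_of_small3 (c := fun σ => c σ - (R σ y₀ - y₀)) hn h2 hR hc' ?_ hPn hP₀ hP₁ ?_ ?_ ?_
    · intro σ ε hε
      filter_upwards [hcont σ ε hε, hRcont y₀ σ ε hε] with τ h3 h4
      have e : c τ - (R τ y₀ - y₀) - (c σ - (R σ y₀ - y₀)) = (c τ - c σ) - (R τ y₀ - R σ y₀) := by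
        abel
      show n (c τ - (R τ y₀ - y₀) - (c σ - (R σ y₀ - y₀))) < ε
      rw [e]
      exact hn.sub_lt h3 h4
    · intro M hM _ σ hσ
      show n (P (c σ - (R σ y₀ - y₀))) < M
      have h3 : P (c σ - (R σ y - y) - (R σ z - z)) = 0 := by
        rw [P.map_sub, P.map_sub, P.map_sub (R σ z), hy σ hσ, hs₀ σ hσ z hz0, hz0]
        abel
      rw [e, h3, hn.zero]
      exact hM
    · intro M hM hM' σ hσ
      show n ((c σ - (R σ y₀ - y₀)) - P (c σ - (R σ y₀ - y₀))) < M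
      rcases Set.mem_insert_iff.1 hσ with rfl | hσ
      · have h3 : (c σ - (R σ y - y) - (R σ z - z)) - P (c σ - (R σ y - y) - (R σ z - z)) = 0 := by
          rw [P.map_sub]
          have e2 : c σ - (R σ y - y) - (R σ z - z) -
              (P (c σ - (R σ y - y)) - P (R σ z - z)) =
              (c σ - (R σ y - y) - P (c σ - (R σ y - y))) - ((R σ z - z) - P (R σ z - z)) := by
            abel
          rw [e2, hz, sub_self]
        rw [e, h3, hn.zero]
        exact hM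
      · obtain ⟨h3, h4⟩ := hD₂ σ hσ
        by_cases h5 : c σ - (R σ y₀ - y₀) = 0
        · rw [h5, map_zero, sub_zero, hn.zero]
          exact hM
        · refine (h4 _ ?_ h5).trans_le (hM' σ)
          have h6 := hc' σ σ
          have h7 : c (σ * σ) - (R (σ * σ) y₀ - y₀) = 0 := by
            rw [h3, coc_one hc, map_one, Module.End.one_apply]
            abel
          rw [h7] at h6
          rw [eq_neg_iff_add_eq_zero, add_comm]
          exact h6.symm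
    · intro M hM hM' I hI' σ hσ
      obtain ⟨⟨y, hy⟩, h3⟩ := hI I hI'
      have hy' : ∃ y, ∀ σ ∈ I, c σ - (R σ y₀ - y₀) = R σ y - y :=
        ⟨y - y₀, fun σ hσ => by rw [hy σ hσ, map_sub]; abel⟩
      show n (c σ - (R σ y₀ - y₀)) < M
      rcases h3 with h3 | ⟨φ, hnor, hinj, hlt⟩
      · obtain ⟨y', hy'⟩ := hy'
        rw [hy' σ hσ, h3 σ hσ, sub_self, hn.zero]
        exact hM
      · obtain ⟨y', h4, h5⟩ := ext_frob (c := fun σ => c σ - (R σ y₀ - y₀)) hc' hy' hnor hinj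
        have h5' : c σ - (R σ y₀ - y₀) = R σ y' - y' := h5 σ hσ
        have h4' : c φ - (R φ y₀ - y₀) = R φ y' - y' := h4
        rw [h5']
        by_cases h6 : y' = 0
        · rw [h6, map_zero, sub_zero, hn.zero]
          exact hM
        · refine (hlt σ hσ y' h6).trans_le ?_
          rw [← h4']
          exact hM' φ
  intro σ
  exact sub_eq_zero.1 (key σ)

end abstract

section lattice

variable {N : ℕ} {C : Matrix (Fin N) (Fin N) ℤ_[2]}

/-- the `-1`-part of an involution of a lattice -/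
lemma neg_part {I : Set (Fin N)}
    (h : ∀ v : Fin N → ℤ_[2], C.mulVec v = -v → ∀ i ∈ I, (2 : ℤ_[2]) ∣ v i) :
    ∃ (Z : Matrix (Fin N) (Fin N) ℤ_[2]) (Y : Matrix (Fin N) (Fin N) ℚ_[2]),
      Z.map (algebraMap ℤ_[2] ℚ_[2]) = Y * (1 + C).map (algebraMap ℤ_[2] ℚ_[2]) ∧
      ∀ i ∈ I, ∀ j, (2 : ℤ_[2]) ∣ (1 : Matrix (Fin N) (Fin N) ℤ_[2]) i j - Z i j := by
  classical
  set A : Matrix (Fin N) (Fin N) ℤ_[2] := 1 + C with hA
  set f : (Fin N → ℤ_[2]) →ₗ[ℤ_[2]] (Fin N → ℤ_[2]) := Matrix.mulVecLin A with hf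
  have hker : ∀ v, f v = 0 ↔ C.mulVec v = -v := by
    intro v
    rw [hf, Matrix.mulVecLin_apply, hA, Matrix.add_mulVec, Matrix.one_mulVec, add_comm,
      ← eq_neg_iff_add_eq_zero]
  -- the range is free
  have hfree : Module.Free ℤ_[2] (LinearMap.range f) := inferInstance
  obtain ⟨g, hg⟩ := Module.projective_lifting_property f.rangeRestrict LinearMap.id
    (LinearMap.surjective_rangeRestrict f)
  set z : (Fin N → ℤ_[2]) →ₗ[ℤ_[2]] (Fin N → ℤ_[2]) := g ∘ₗ f.rangeRestrict with hz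
  have hfz : ∀ v, f (v - z v) = 0 := by
    intro v
    have h1 : f.rangeRestrict (g (f.rangeRestrict v)) = f.rangeRestrict v :=
      LinearMap.congr_fun hg (f.rangeRestrict v)
    have h2 : f (g (f.rangeRestrict v)) = f v := congrArg Subtype.val h1
    rw [map_sub, sub_eq_zero]
    exact h2.symm
  have hz0 : ∀ v, f v = 0 → z v = 0 := by
    intro v hv
    have h1 : f.rangeRestrict v = 0 := Subtype.ext hv
    rw [hz, LinearMap.comp_apply, h1, map_zero]
  set Z : Matrix (Fin N) (Fin N) ℤ_[2] := LinearMap.toMatrix' z with hZ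
  have hZv : ∀ v, Z.mulVec v = z v := fun v => by
    rw [hZ, ← Matrix.toLin'_apply, Matrix.toLin'_toMatrix']
  have hZi : ∀ i ∈ I, ∀ j, (2 : ℤ_[2]) ∣ (1 : Matrix (Fin N) (Fin N) ℤ_[2]) i j - Z i j := by
    intro i hi j
    have h1 := h (Pi.single j 1 - z (Pi.single j 1)) ((hker _).1 (hfz _)) i hi
    have e : (Pi.single j 1 - z (Pi.single j 1) : Fin N → ℤ_[2]) i =
        (1 : Matrix (Fin N) (Fin N) ℤ_[2]) i j - Z i j := by
      rw [Pi.sub_apply, ← hZv, Matrix.mulVec_single_one, Matrix.one_apply, Matrix.col_apply]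
      congr 1
      rw [Pi.single_apply]
    rwa [e] at h1
  -- over the field
  have hkerQ : LinearMap.ker (Matrix.mulVecLin (A.map (algebraMap ℤ_[2] ℚ_[2]))) ≤
      LinearMap.ker (Matrix.mulVecLin (Z.map (algebraMap ℤ_[2] ℚ_[2]))) := by
    intro u hu
    rw [LinearMap.mem_ker, Matrix.mulVecLin_apply] at hu ⊢
    -- clear the denominators
    obtain ⟨k, v, hv⟩ : ∃ (k : ℕ) (v : Fin N → ℤ_[2]), ∀ i, (2 : ℚ_[2]) ^ k * u i = v i := by
      have h1 : ∀ i, ∃ k : ℕ, ‖(2 : ℚ_[2]) ^ k * u i‖ ≤ 1 := by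
        intro i
        obtain ⟨k, hk⟩ := exists_pow_lt_of_lt_one (x := (‖u i‖ + 1)⁻¹) (y := (1 / 2 : ℝ))
          (by positivity) (by norm_num)
        refine ⟨k, ?_⟩
        have e : ‖(2 : ℚ_[2])‖ = 1 / 2 := by
          have := Padic.norm_p (p := 2)
          rw [one_div]
          exact_mod_cast this
        rw [norm_mul, norm_pow, e]
        have h2 : (1 / 2 : ℝ) ^ k * ‖u i‖ ≤ (‖u i‖ + 1)⁻¹ * ‖u i‖ :=
          mul_le_mul_of_nonneg_right hk.le (norm_nonneg _)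
        refine h2.trans ?_
        rw [inv_mul_le_iff₀ (by positivity)]
        linarith
      choose k hk using h1
      have h2 : ∀ i, ‖(2 : ℚ_[2]) ^ (Finset.univ.sup k) * u i‖ ≤ 1 := by
        intro i
        obtain ⟨d, hd⟩ := Nat.exists_eq_add_of_le (Finset.le_sup (f := k) (Finset.mem_univ i))
        rw [hd, pow_add, mul_comm (2 ^ k i), mul_assoc, norm_mul]
        have h3 : ‖(2 : ℚ_[2]) ^ d‖ ≤ 1 := by
          have := PadicInt.norm_le_one ((2 : ℤ_[2]) ^ d)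
          rw [PadicInt.norm_def] at this
          push_cast at this
          exact this
        exact mul_le_one₀ h3 (norm_nonneg _) (hk i)
      exact ⟨_, fun i => ⟨_, h2 i⟩, fun i => rfl⟩
    have hinj : Function.Injective (algebraMap ℤ_[2] ℚ_[2]) := FaithfulSMul.algebraMap_injective _ _
    have hmapv : ∀ M : Matrix (Fin N) (Fin N) ℤ_[2], (fun i => algebraMap ℤ_[2] ℚ_[2] (M.mulVec v i)) =
        (2 : ℚ_[2]) ^ k • (M.map (algebraMap ℤ_[2] ℚ_[2])).mulVec u := by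
      intro M
      rw [← Matrix.mulVec_smul]
      funext i
      rw [Matrix.mulVec, Matrix.mulVec, dotProduct, dotProduct, map_sum]
      refine Finset.sum_congr rfl fun j _ => ?_
      rw [map_mul, Matrix.map_apply, Pi.smul_apply, smul_eq_mul, hv j]
      rfl
    have h3 : A.mulVec v = 0 := by
      funext i
      apply hinj
      have h4 := congrFun (hmapv A) i
      rw [hu, smul_zero] at h4
      rw [h4, Pi.zero_apply, Pi.zero_apply, map_zero]
    have h4 : Z.mulVec v = 0 := by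
      rw [hZv]
      exact hz0 v h3
    have h5 := hmapv Z
    rw [h4] at h5
    have h6 : (2 : ℚ_[2]) ^ k • (Z.map (algebraMap ℤ_[2] ℚ_[2])).mulVec u = 0 := by
      rw [← h5]
      funext i
      simp
    exact (smul_eq_zero.1 h6).resolve_left (pow_ne_zero _ two_ne_zero)
  have hrow : ∀ i, ∃ y : Fin N → ℚ_[2], ∀ l, algebraMap ℤ_[2] ℚ_[2] (Z i l) =
      ∑ j, y j * algebraMap ℤ_[2] ℚ_[2] (A j l) := by
    intro i
    have h1 : (LinearMap.proj i ∘ₗ Matrix.mulVecLin (Z.map (algebraMap ℤ_[2] ℚ_[2])) :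
        (Fin N → ℚ_[2]) →ₗ[ℚ_[2]] ℚ_[2]) ∈ Submodule.span ℚ_[2] (Set.range fun j =>
          (LinearMap.proj j ∘ₗ Matrix.mulVecLin (A.map (algebraMap ℤ_[2] ℚ_[2])) :
            (Fin N → ℚ_[2]) →ₗ[ℚ_[2]] ℚ_[2])) := by
      apply mem_span_of_iInf_ker_le_ker
      intro u hu
      rw [Submodule.mem_iInf] at hu
      have h2 : u ∈ LinearMap.ker (Matrix.mulVecLin (A.map (algebraMap ℤ_[2] ℚ_[2]))) := by
        rw [LinearMap.mem_ker]
        funext j
        exact hu j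
      have h3 := hkerQ h2
      rw [LinearMap.mem_ker] at h3 ⊢
      exact congrFun h3 i
    obtain ⟨y, hy⟩ := (Submodule.mem_span_range_iff_exists_fun ℚ_[2]).1 h1
    refine ⟨y, fun l => ?_⟩
    have h2 := LinearMap.congr_fun hy (Pi.single l 1)
    rw [LinearMap.sum_apply] at h2
    have h3 : ∀ (M : Matrix (Fin N) (Fin N) ℤ_[2]) (i : Fin N),
        (LinearMap.proj i ∘ₗ Matrix.mulVecLin (M.map (algebraMap ℤ_[2] ℚ_[2])) :
          (Fin N → ℚ_[2]) →ₗ[ℚ_[2]] ℚ_[2]) (Pi.single l 1) = algebraMap ℤ_[2] ℚ_[2] (M i l) := by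
      intro M i
      rw [LinearMap.comp_apply, Matrix.mulVecLin_apply, Matrix.mulVec_single_one]
      rfl
    rw [h3] at h2
    rw [← h2]
    refine Finset.sum_congr rfl fun j _ => ?_
    rw [LinearMap.smul_apply, h3, smul_eq_mul]
  choose Y hY using hrow
  refine ⟨Z, Matrix.of Y, ?_, hZi⟩
  ext i l
  rw [Matrix.map_apply, hY i l, Matrix.mul_apply]
  rfl

end lattice

end Pool.Agent.NH6
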