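import Pool.Agent.NH6.Gq

/-!
# Complementary local conditions
-/

set_option autoImplicit false
set_option linter.unusedSectionVars false

namespace Pool.Agent.NH6

open Filter Topology

section abstract

variable {G E W : Type} [Group G] [NormedField E] [AddCommGroup W]
  [Module E W] {n : W → ℝ} {R : Representation E G W} {c : G → W}
  [TopologicalSpace G] [CompactSpace G]

/-- rigidity for a component -/
lemma proj_small (hn : UNorm E n) (h2 : ‖(2 : E)‖ < 1)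
    (hR : ∀ σ v, v ≠ 0 → n (R σ v - v) < n v)
    (hc : ∀ σ τ, c (σ * τ) = c σ + R σ (c τ))
    (hcont : ∀ σ, ∀ ε > 0, ∀ᶠ τ in 𝓝 σ, n (c τ - c σ) < ε) {P : W →ₗ[E] W}
    (hPn : ∀ v, n (P v) ≤ n v)
    {D : Set G} {Is : Set (Set G)} (hP : Rigid D Is) {M : ℝ} (hM : 0 < M)
    (hmax : ∀ σ, n (c σ) ≤ M) (hD : ∀ σ ∈ D, n (P (c σ)) < M)
    (hI : ∀ I ∈ Is, ∀ σ ∈ I, n (c σ) < M) (σ : G) : n (P (c σ)) < M := by
  have h3 := hP (W ⧸ hn.ball hM) (fun σ => (QuotientAddGroup.mk (P (c σ)) : W ⧸ hn.ball hM))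
    ?_ ?_ ?_ ?_ ?_ σ
  · rw [QuotientAddGroup.eq_zero_iff] at h3
    exact (hn.mem_ball hM).1 h3
  · rw [IsLocallyConstant.iff_eventually_eq]
    intro σ
    filter_upwards [hcont σ _ hM] with τ hτ
    rw [QuotientAddGroup.eq, hn.mem_ball, ← hn.neg]
    have e : -(-P (c τ) + P (c σ)) = P (c τ - c σ) := by rw [map_sub]; abel
    rw [e]
    exact (hPn _).trans_lt hτ
  · intro σ τ
    rw [← QuotientAddGroup.mk_add, QuotientAddGroup.eq, hn.mem_ball, ← hn.neg, hc]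
    have e : -(-P (c σ + R σ (c τ)) + (P (c σ) + P (c τ))) = P (R σ (c τ) - c τ) := by
      rw [map_add, map_sub]
      abel
    rw [e]
    refine (hPn _).trans_lt ?_
    by_cases h0 : c τ = 0
    · rw [h0, map_zero, sub_zero, hn.zero]
      exact hM
    · exact (hR σ _ h0).trans_le (hmax τ)
  · intro σ
    rw [← QuotientAddGroup.mk_add, QuotientAddGroup.eq_zero_iff, hn.mem_ball]
    have e : P (c σ) + P (c σ) = (2 : E) • P (c σ) := by rw [two_smul]
    rw [e, hn.smul]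
    have := (hPn (c σ)).trans (hmax σ)
    have h4 := hn.nonneg (P (c σ))
    have h5 := norm_nonneg (2 : E)
    nlinarith
  · intro σ hσ
    rw [QuotientAddGroup.eq_zero_iff, hn.mem_ball]
    exact hD σ hσ
  · intro I hI' σ hσ
    rw [QuotientAddGroup.eq_zero_iff, hn.mem_ball]
    exact (hPn _).trans_lt (hI I hI' σ hσ)

/-- a cocycle that is small where rigidity tests its components vanishes -/
theorem vanish_of_small2 (hn : UNorm E n) (h2 : ‖(2 : E)‖ < 1)
    (hR : ∀ σ v, v ≠ 0 → n (R σ v - v) < n v)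
    (hc : ∀ σ τ, c (σ * τ) = c σ + R σ (c τ))
    (hcont : ∀ σ, ∀ ε > 0, ∀ᶠ τ in 𝓝 σ, n (c τ - c σ) < ε)
    {P : W →ₗ[E] W} (hPn : ∀ v, n (P v) ≤ n v)
    {D₀ D₁ : Set G} {Is : Set (Set G)} (hP₀ : Rigid D₀ Is) (hP₁ : Rigid D₁ Is)
    (hD₀ : ∀ σ ∈ D₀, P (c σ) = 0) (hD₁ : ∀ σ ∈ D₁, c σ - P (c σ) = 0)
    (hI : ∀ M : ℝ, 0 < M → (∀ σ, n (c σ) ≤ M) → ∀ I ∈ Is, ∀ σ ∈ I, n (c σ) < M) :
    ∀ σ, c σ = 0 := by
  obtain ⟨σ₀, hσ₀⟩ := exists_max hn hcont
  by_cases hM : 0 < n (c σ₀)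
  · exfalso
    have hQn : ∀ v, n ((LinearMap.id - P : W →ₗ[E] W) v) ≤ n v := by
      intro v
      rw [LinearMap.sub_apply, LinearMap.id_apply]
      exact hn.sub_le le_rfl (hPn v)
    have h3 := proj_small hn h2 hR hc hcont hPn hP₀ hM hσ₀
      (fun σ hσ => by rw [hD₀ σ hσ, hn.zero]; exact hM) (hI _ hM hσ₀) σ₀
    have h4 := proj_small hn h2 hR hc hcont hQn hP₁ hM hσ₀
      (fun σ hσ => by
        rw [LinearMap.sub_apply, LinearMap.id_apply, hD₁ σ hσ, hn.zero]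
        exact hM) (hI _ hM hσ₀) σ₀
    have h5 := hn.add_lt h3 h4
    rw [LinearMap.sub_apply, LinearMap.id_apply] at h5
    have e : P (c σ₀) + (c σ₀ - P (c σ₀)) = c σ₀ := by abel
    rw [e] at h5
    exact lt_irrefl _ h5
  · intro σ
    exact hn.eq_zero ((hσ₀ σ).trans (not_lt.1 hM))

/-- **The abstract vanishing theorem with two local conditions.** -/
theorem abs_main2 [FiniteDimensional E W] (hn : UNorm E n) (h2 : ‖(2 : E)‖ < 1)
    (hR : ∀ σ v, v ≠ 0 → n (R σ v - v) < n v)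
    (hc : ∀ σ τ, c (σ * τ) = c σ + R σ (c τ))
    (hcont : ∀ σ, ∀ ε > 0, ∀ᶠ τ in 𝓝 σ, n (c τ - c σ) < ε)
    (hRcont : ∀ v σ, ∀ ε > 0, ∀ᶠ τ in 𝓝 σ, n (R τ v - R σ v) < ε)
    {P : W →ₗ[E] W} (hPn : ∀ v, n (P v) ≤ n v) (hPP : ∀ v, P (P v) = P v)
    {D₀ D₁ : Set G} {Is : Set (Set G)} (hP₀ : Rigid D₀ Is) (hP₁ : Rigid D₁ Is)
    (hs₀ : ∀ σ ∈ D₀, ∀ v, P v = 0 → P (R σ v) = 0)
    (hs₁ : ∀ σ ∈ D₁, ∀ v, P v = v → P (R σ v) = R σ v)
    (hD₀ : ∃ y, ∀ σ ∈ D₀, P (c σ) = P (R σ y - y))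
    (hD₁ : ∃ y, ∀ σ ∈ D₁, c σ - P (c σ) = (R σ y - y) - P (R σ y - y))
    (hI : ∀ I ∈ Is, (∃ y, ∀ σ ∈ I, c σ = R σ y - y) ∧ ((∀ σ ∈ I, ∀ v, R σ v = v) ∨
      ∃ φ, (∀ σ ∈ I, φ * σ * φ⁻¹ ∈ I) ∧ (∀ v, R φ v = v → v = 0) ∧
        ∀ σ ∈ I, ∀ v, v ≠ 0 → n (R σ v - v) < n (R φ v - v))) :
    ∃ y, ∀ σ, c σ = R σ y - y := by
  obtain ⟨y, hy⟩ := hD₀
  obtain ⟨y', hy'⟩ := hD₁
  set y₀ : W := P y + (y' - P y') with hy₀
  refine ⟨y₀, ?_⟩
  have key : ∀ σ, c σ - (R σ y₀ - y₀) = 0 := by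
    have hc' : ∀ σ τ, c (σ * τ) - (R (σ * τ) y₀ - y₀) = c σ - (R σ y₀ - y₀) +
        R σ (c τ - (R τ y₀ - y₀)) := by
      intro σ τ
      rw [hc, map_mul, Module.End.mul_apply]
      simp only [map_sub]
      abel
    refine vanish_of_small2 (c := fun σ => c σ - (R σ y₀ - y₀)) hn h2 hR hc' ?_ hPn hP₀ hP₁ ?_ ?_ ?_
    · intro σ ε hε
      filter_upwards [hcont σ ε hε, hRcont y₀ σ ε hε] with τ h3 h4
      have e : c τ - (R τ y₀ - y₀) - (c σ - (R σ y₀ - y₀)) = (c τ - c σ) - (R τ y₀ - R σ y₀) := by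
        abel
      show n (c τ - (R τ y₀ - y₀) - (c σ - (R σ y₀ - y₀))) < ε
      rw [e]
      exact hn.sub_lt h3 h4
    · intro σ hσ
      show P (c σ - (R σ y₀ - y₀)) = 0
      have h3 : P (y₀ - y) = 0 := by
        rw [hy₀, map_sub, map_add, map_sub, hPP, hPP]
        abel
      have h4 := hs₀ σ hσ _ h3
      have e : c σ - (R σ y₀ - y₀) = c σ - (R σ y - y) - (R σ (y₀ - y) - (y₀ - y)) := by
        rw [map_sub]
        abel
      rw [e, map_sub, map_sub P (R σ (y₀ - y)), h3, h4, map_sub, hy σ hσ]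
      abel
    · intro σ hσ
      show (c σ - (R σ y₀ - y₀)) - P (c σ - (R σ y₀ - y₀)) = 0
      have h3 : P (y₀ - y') = y₀ - y' := by
        rw [hy₀, map_sub, map_add, map_sub, hPP, hPP]
        abel
      have h4 := hs₁ σ hσ _ h3
      have e : c σ - (R σ y₀ - y₀) = c σ - (R σ y' - y') - (R σ (y₀ - y') - (y₀ - y')) := by
        rw [map_sub]
        abel
      have e2 : P (c σ - (R σ y' - y')) = c σ - (R σ y' - y') := by
        rw [map_sub]
        have := hy' σ hσ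
        have e3 : c σ - (R σ y' - y') - (P (c σ) - P (R σ y' - y')) =
            (c σ - P (c σ)) - ((R σ y' - y') - P (R σ y' - y')) := by abel
        rw [← sub_eq_zero, ← neg_eq_zero, neg_sub, e3, this, sub_self]
      have e4 : P (c σ - (R σ y' - y') - (R σ (y₀ - y') - (y₀ - y'))) =
          c σ - (R σ y' - y') - (R σ (y₀ - y') - (y₀ - y')) := by
        rw [P.map_sub, e2, P.map_sub (R σ (y₀ - y')), h3, h4]
      rw [e, e4, sub_self]
    · intro M hM hM' I hI' σ hσ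
      obtain ⟨⟨y, hy⟩, h3⟩ := hI I hI'
      have hy' : ∃ y, ∀ σ ∈ I, c σ - (R σ y₀ - y₀) = R σ y - y :=
        ⟨y - y₀, fun σ hσ => by rw [hy σ hσ, map_sub]; abel⟩
      show n (c σ - (R σ y₀ - y₀)) < M
      rcases h3 with h3 | ⟨φ, hnor, hinj, hlt⟩
      · obtain ⟨y', hy'⟩ := hy'
        rw [hy' σ hσ, h3 σ hσ, sub_self, hn.zero]
        exact hM
      · obtain ⟨y', h4, h5⟩ := ext_frob (c := fun σ => c σ - (R σ y₀ - y₀)) hc' hy' hnor hinj
        have h5' : c σ - (R σ y₀ - y₀) = R σ y' - y' := h5 σ hσ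
        have h4' : c φ - (R φ y₀ - y₀) = R φ y' - y' := h4
        rw [h5']
        by_cases h6 : y' = 0
        · rw [h6, map_zero, sub_zero, hn.zero]
          exact hM
        · refine (hlt σ hσ y' h6).trans_le ?_
          rw [← h4']
          exact hM' φ
  intro σ
  exact sub_eq_zero.1 (key σ)

end abstract

section weights

variable {E : Type} [NormedField E] [NormedAlgebra ℚ_[2] E] {B : Type} [Fintype B] [DecidableEq B]

/-- the norm with weights -/
noncomputable def nwt (r : ℝ) (wt : B → ℕ) (v : B → E) : ℝ :=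
  ‖(fun i => r ^ wt i * ‖v i‖ : B → ℝ)‖

lemma nwt_le_iff {r : ℝ} (hr : 0 < r) {wt : B → ℕ} {v : B → E} {M : ℝ} (hM : 0 ≤ M) :
    nwt r wt v ≤ M ↔ ∀ i, r ^ wt i * ‖v i‖ ≤ M := by
  unfold nwt
  rw [pi_norm_le_iff_of_nonneg hM]
  refine forall_congr' fun i => ?_
  rw [Real.norm_eq_abs, abs_of_nonneg (by positivity)]

lemma le_nwt {r : ℝ} (hr : 0 < r) (wt : B → ℕ) (v : B → E) (i : B) :
    r ^ wt i * ‖v i‖ ≤ nwt r wt v := by
  exact (nwt_le_iff hr (norm_nonneg _)).1 le_rfl i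

lemma nwt_norm {r : ℝ} (hr : 0 < r) (wt : B → ℕ) : UNorm E (nwt r wt : (B → E) → ℝ) where
  add v w := by
    have hu : IsUltrametricDist E := ultra
    have h0 : 0 ≤ max (nwt r wt v) (nwt r wt w) := le_max_of_le_left (norm_nonneg _)
    rw [nwt_le_iff hr h0]
    intro i
    rw [Pi.add_apply]
    have h1 := IsUltrametricDist.norm_add_le_max (v i) (w i)
    have h2 := le_nwt hr wt v i
    have h3 := le_nwt hr wt w i
    have hp : 0 ≤ r ^ wt i := by positivity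
    rcases le_max_iff.1 h1 with h4 | h4
    · exact le_max_of_le_left ((mul_le_mul_of_nonneg_left h4 hp).trans h2)
    · exact le_max_of_le_right ((mul_le_mul_of_nonneg_left h4 hp).trans h3)
  smul a v := by
    unfold nwt
    have e : (fun i => r ^ wt i * ‖(a • v) i‖ : B → ℝ) = ‖a‖ • fun i => r ^ wt i * ‖v i‖ := by
      funext i
      rw [Pi.smul_apply, Pi.smul_apply, smul_eq_mul, smul_eq_mul, norm_mul]
      ring
    rw [e, norm_smul, norm_norm]
  pos v hv := by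
    obtain ⟨i, hi⟩ := Function.ne_iff.1 hv
    refine lt_of_lt_of_le ?_ (le_nwt hr wt v i)
    have : 0 < ‖v i‖ := norm_pos_iff.2 hi
    positivity

lemma nwt_le_norm {r : ℝ} (hr : 1 ≤ r) {wt : B → ℕ} {n : ℕ} (hwt : ∀ i, wt i < n)
    (v : B → E) : nwt r wt v ≤ r ^ n * ‖v‖ := by
  rw [nwt_le_iff (by linarith) (by positivity)]
  intro i
  exact mul_le_mul (pow_le_pow_right₀ hr (hwt i).le) (norm_le_pi_norm v i) (norm_nonneg _)
    (by positivity)

/-- a unipotent matrix modulo two -/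
def Flg (wt : B → ℕ) (A : Matrix B B ℤ_[2]) : Prop :=
  ∀ i j, ¬ wt i < wt j → (2 : ℤ_[2]) ∣ A i j - (1 : Matrix B B ℤ_[2]) i j

lemma nwt_con {r : ℝ} (hr : 1 < r) {wt : B → ℕ} {n : ℕ} (hwt : ∀ i, wt i < n) (hrn : r ^ n = 2)
    {A : Matrix B B ℤ_[2]} (hA : Flg wt A) (v : B → E) :
    nwt r wt (mv A v - v) ≤ r⁻¹ * nwt r wt v := by
  have hu : IsUltrametricDist E := ultra
  have hr0 : 0 < r := by linarith
  have hr1 : 0 < r⁻¹ := inv_pos.2 hr0
  have hnn : 0 ≤ nwt r wt v := norm_nonneg _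
  rw [nwt_le_iff hr0 (by positivity)]
  intro i
  have h1 : (mv A v - v) i = ∑ j, em E ((A - 1) i j) * v j := by
    have e : mv (1 : Matrix B B ℤ_[2]) v = v := mv_one v
    rw [Pi.sub_apply]
    nth_rw 2 [← e]
    rw [mv_apply, mv_apply, ← Finset.sum_sub_distrib]
    refine Finset.sum_congr rfl fun b' _ => ?_
    rw [Matrix.sub_apply, map_sub, sub_mul]
  have h2 : ‖(mv A v - v) i‖ ≤ (r ^ wt i)⁻¹ * (r⁻¹ * nwt r wt v) := by
    rw [h1]
    refine IsUltrametricDist.norm_sum_le_of_forall_le_of_nonneg (by positivity) fun j _ => ?_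
    rw [norm_mul, norm_em, inv_mul_eq_div, le_div_iff₀ (by positivity)]
    have h3 := le_nwt hr0 wt v j
    have h4 : r ^ wt i * ‖(A - 1) i j‖ ≤ r⁻¹ * r ^ wt j := by
      by_cases h5 : wt i < wt j
      · have h6 : ‖(A - 1) i j‖ ≤ 1 := PadicInt.norm_le_one _
        have h7 : r * r ^ wt i ≤ r ^ wt j := by
          rw [← pow_succ']
          exact pow_le_pow_right₀ hr.le h5
        rw [inv_mul_eq_div, le_div_iff₀ hr0]
        have h8 : 0 < r * r ^ wt i := by positivity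
        nlinarith [mul_le_mul_of_nonneg_left h6 h8.le]
      · have h6 : ‖(A - 1) i j‖ ≤ 1 / 2 := by
          obtain ⟨z, hz⟩ := hA i j h5
          rw [Matrix.sub_apply, hz, norm_mul]
          have e2 : ‖(2 : ℤ_[2])‖ = 1 / 2 := by
            have h2 : (2 : ℤ_[2]) = ((2 : ℕ) : ℤ_[2]) := by norm_num
            rw [h2, PadicInt.norm_p]
            norm_num
          rw [e2]
          nlinarith [PadicInt.norm_le_one z, norm_nonneg z]
        have h7 : r * r ^ wt i ≤ 2 := by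
          rw [← pow_succ', ← hrn]
          exact pow_le_pow_right₀ hr.le (hwt i)
        have h8 : 1 ≤ r ^ wt j := one_le_pow₀ hr.le
        rw [inv_mul_eq_div, le_div_iff₀ hr0]
        have : 0 < r ^ wt i := by positivity
        nlinarith [norm_nonneg ((A - 1) i j)]
    calc ‖(A - 1) i j‖ * ‖v j‖ * r ^ wt i = (r ^ wt i * ‖(A - 1) i j‖) * ‖v j‖ := by ring
      _ ≤ (r⁻¹ * r ^ wt j) * ‖v j‖ := mul_le_mul_of_nonneg_right h4 (norm_nonneg _)
      _ = r⁻¹ * (r ^ wt j * ‖v j‖) := by ring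
      _ ≤ r⁻¹ * nwt r wt v := mul_le_mul_of_nonneg_left h3 hr1.le
  rw [inv_mul_eq_div, le_div_iff₀ (by positivity)] at h2
  rw [mul_comm]
  exact h2

/-- the projection to the coordinates where `κ` is false -/
def prj (κ : B → Bool) : (B → E) →ₗ[E] (B → E) where
  toFun v i := if κ i then 0 else v i
  map_add' v w := by
    funext i
    simp only [Pi.add_apply]
    split_ifs <;> simp
  map_smul' a v := by
    funext i
    simp only [Pi.smul_apply, RingHom.id_apply]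
    split_ifs <;> simp

lemma prj_apply (κ : B → Bool) (v : B → E) (i : B) : prj κ v i = if κ i then 0 else v i := rfl

lemma prj_prj (κ : B → Bool) (v : B → E) : prj κ (prj κ v) = prj κ v := by
  funext i
  rw [prj_apply, prj_apply]
  split_ifs <;> rfl

lemma nwt_prj {r : ℝ} (hr : 0 < r) (wt : B → ℕ) (κ : B → Bool) (v : B → E) :
    nwt r wt (prj κ v) ≤ nwt r wt v := by
  have h0 : 0 ≤ nwt r wt v := norm_nonneg _
  rw [nwt_le_iff hr h0]
  intro i
  refine le_trans ?_ (le_nwt hr wt v i)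
  rw [prj_apply]
  split_ifs
  · rw [norm_zero, mul_zero]
    positivity
  · exact le_rfl

lemma prj_eq_zero {κ : B → Bool} {v : B → E} : prj κ v = 0 ↔ ∀ i, κ i = false → v i = 0 := by
  constructor
  · intro h i hi
    have := congrFun h i
    rw [prj_apply, hi] at this
    exact this
  · intro h
    funext i
    rw [prj_apply, Pi.zero_apply]
    split_ifs with hi
    · rfl
    · exact h i (by simpa using hi)

lemma prj_eq_self {κ : B → Bool} {v : B → E} : prj κ v = v ↔ ∀ i, κ i = true → v i = 0 := by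
  constructor
  · intro h i hi
    have := congrFun h i
    rw [prj_apply, hi] at this
    exact this.symm
  · intro h
    funext i
    rw [prj_apply]
    split_ifs with hi
    · exact (h i hi).symm
    · rfl

end weights

end Pool.Agent.NH6
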