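import Pool.Agent.NH6.Cmpl

/-!
# Complementary local conditions over `ℚ(√-q)`
-/

set_option autoImplicit false
set_option linter.unusedSectionVars false

namespace Pool.Agent.NH6

open Filter Topology
open Pool.Agent.Y715.Nr Pool.Agent.Y715.Red Pool.Agent.W237.RK
open Pool.Agent.Y715.Gi (QB KK GK i₀_mem gk_fix)
open Pool.Agent.Y715.Df (Cmp exists_cmp)

variable {s : QB}

theorem cm_main {q : ℕ} [Fact q.Prime] (hq7 : q % 16 = 7) (hs : s ^ 2 = -(q : QB))
    (ι₀ ι₁ : QB →ₐ[ℚ] PadicAlgCl 2) {N : ℕ} (ρ : GK s →* Matrix (Fin N) (Fin N) ℤ_[2])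
    (hρc : Continuous ρ) {wt : Fin N → ℕ} {n : ℕ} (hwt : ∀ i, wt i < n)
    (hfl : ∀ σ, Flg wt (ρ σ)) (κ : Fin N → Bool)
    (hk₀ : ∀ σ ∈ DecG s ι₀, ∀ i j, κ i = false → κ j = true → ρ σ i j = 0)
    (hk₁ : ∀ σ ∈ DecG s ι₁, ∀ i j, κ i = true → κ j = false → ρ σ i j = 0)
    {E : Type} [NormedField E] [NormedAlgebra ℚ_[2] E] (χ : GK s →* Eˣ)
    (hχc : Continuous fun σ => (χ σ : E)) (hχ2 : ∀ σ, ∃ k : ℕ, χ σ ^ 2 ^ k = 1)
    (hχu : ∀ (p : ℕ) [Fact p.Prime] (ι : QB →ₐ[ℚ] PadicAlgCl p), p ≠ 2 → ∀ σ ∈ InrG s ι, χ σ = 1)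
    (hS : ∀ (p : ℕ) [Fact p.Prime] (ι : QB →ₐ[ℚ] PadicAlgCl p), p ≠ 2 →
      (∀ σ ∈ InrG s ι, ρ σ = 1) ∨ ∃ φ ∈ DecG s ι, 2 * n < orderOf (χ φ))
    (c : GK s → Fin N → E) (hcc : Continuous c)
    (hcm : ∀ σ τ, c (σ * τ) = c σ + (χ σ : E) • mv (ρ σ) (c τ))
    (hodd : ∀ (p : ℕ) [Fact p.Prime] (ι : QB →ₐ[ℚ] PadicAlgCl p), p ≠ 2 →
      ∃ y : Fin N → E, ∀ σ ∈ InrG s ι, c σ = (χ σ : E) • mv (ρ σ) y - y)
    (hw₀ : ∃ y : Fin N → E, ∀ σ ∈ DecG s ι₀, ∀ i, κ i = false →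
      c σ i = ((χ σ : E) • mv (ρ σ) y - y) i)
    (hw₁ : ∃ y : Fin N → E, ∀ σ ∈ DecG s ι₁, ∀ i, κ i = true →
      c σ i = ((χ σ : E) • mv (ρ σ) y - y) i) :
    ∃ y : Fin N → E, ∀ σ, c σ = (χ σ : E) • mv (ρ σ) y - y := by
  by_cases hN : N = 0
  · subst hN
    exact ⟨0, fun σ => Subsingleton.elim _ _⟩
  have hn0 : 0 < n := lt_of_le_of_lt (Nat.zero_le _) (hwt ⟨0, Nat.pos_of_ne_zero hN⟩)
  obtain ⟨r, hr, hrn⟩ : ∃ r : ℝ, 1 < r ∧ r ^ n = 2 := by
    refine ⟨2 ^ ((n : ℝ)⁻¹), ?_, ?_⟩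
    · exact Real.one_lt_rpow (by norm_num) (by positivity)
    · rw [← Real.rpow_natCast, ← Real.rpow_mul (by norm_num), inv_mul_cancel₀ (by positivity),
        Real.rpow_one]
  have hr0 : 0 < r := by linarith
  have hr1 : r⁻¹ < 1 := inv_lt_one_of_one_lt₀ hr
  -- the representation
  let R : Representation E (GK s) (Fin N → E) :=
    { toFun := fun σ => (χ σ : E) • mv (ρ σ)
      map_one' := by
        refine LinearMap.ext fun v => ?_
        rw [map_one, Units.val_one, one_smul, map_one, mv_one]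
        rfl
      map_mul' := fun σ τ => by
        refine LinearMap.ext fun v => ?_
        rw [map_mul, map_mul, Units.val_mul]
        show ((χ σ : E) * (χ τ : E)) • mv (ρ σ * ρ τ) v =
          (χ σ : E) • mv (ρ σ) ((χ τ : E) • mv (ρ τ) v)
        rw [mv_mul, map_smul, mul_smul] }
  have hRd : ∀ σ v, R σ v = (χ σ : E) • mv (ρ σ) v := fun σ v => rfl
  have hn := nwt_norm (E := E) hr0 wt
  have hcon : ∀ σ (v : Fin N → E), nwt r wt (mv (ρ σ) v - v) ≤ r⁻¹ * nwt r wt v :=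
    fun σ v => nwt_con hr hwt hrn (hfl σ) v
  have hχ' : ∀ σ, ∃ k : ℕ, (χ σ : E) ^ (2 ^ k) = 1 := by
    intro σ
    obtain ⟨k, hk⟩ := hχ2 σ
    refine ⟨k, ?_⟩
    rw [← Units.val_pow_eq_pow_val, hk, Units.val_one]
  have hχn : ∀ σ, ‖(χ σ : E)‖ = 1 := by
    intro σ
    obtain ⟨k, hk⟩ := hχ' σ
    exact root_norm hk
  have hχ1 : ∀ σ, ‖(χ σ : E) - 1‖ < 1 := by
    intro σ
    obtain ⟨k, hk⟩ := hχ' σ
    exact root_lt hk
  have hdec : ∀ σ v, R σ v - v = ((χ σ : E) - 1) • v + (χ σ : E) • (mv (ρ σ) v - v) := by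
    intro σ v
    rw [hRd]
    exact dec_id _ _ _
  have hbig : ∀ φ, r⁻¹ < ‖(χ φ : E) - 1‖ → ∀ v,
      nwt r wt (R φ v - v) = ‖(χ φ : E) - 1‖ * nwt r wt v := by
    intro φ hφ v
    by_cases hv : v = 0
    · rw [hv, map_zero, sub_zero, hn.zero, mul_zero]
    · rw [hdec, hn.add_eq, hn.smul]
      rw [hn.smul, hn.smul, hχn, one_mul]
      exact (hcon φ v).trans_lt (mul_lt_mul_of_pos_right hφ (hn.pos v hv))
  have hnle : ∀ v : Fin N → E, nwt r wt v ≤ 2 * ‖v‖ := by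
    intro v
    rw [← hrn]
    exact nwt_le_norm hr.le hwt v
  have hRc : ∀ v, Continuous fun σ => R σ v := by
    intro v
    refine continuous_pi fun i => ?_
    have e : (fun σ => R σ v i) = fun σ => (χ σ : E) * ∑ j, em E (ρ σ i j) * v j := rfl
    rw [e]
    refine hχc.mul (continuous_finsetSum _ fun j _ => Continuous.mul ?_ continuous_const)
    have h1 : Continuous fun σ => (ρ σ) i j := by fun_prop
    have h2 : Continuous (em E) := by
      have h3 : Isometry (em E) := by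
        refine Isometry.of_dist_eq fun x y => ?_
        rw [dist_eq_norm, dist_eq_norm, ← map_sub, norm_em]
      exact h3.continuous
    exact h2.comp h1
  have hnc : ∀ f : GK s → Fin N → E, Continuous f → ∀ σ, ∀ ε > 0,
      ∀ᶠ τ in 𝓝 σ, nwt r wt (f τ - f σ) < ε := by
    intro f hf σ ε hε
    have h1 : Tendsto (fun τ => ‖f τ - f σ‖) (𝓝 σ) (𝓝 0) := by
      have h2 := ((hf.tendsto σ).sub_const (f σ)).norm
      rwa [sub_self, norm_zero] at h2
    filter_upwards [h1.eventually_lt_const (half_pos hε)] with τ hτ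
    have := hnle (f τ - f σ)
    linarith
  refine abs_main2 (R := R) (P := prj κ) hn (by rw [norm_two]; norm_num) ?_ hcm
    (hnc c hcc) (fun v => hnc _ (hRc v)) (nwt_prj hr0 wt κ) (prj_prj κ)
    (rigid_K hq7 hs ι₀) (rigid_K hq7 hs ι₁) ?_ ?_ ?_ ?_ ?_
  · intro σ v hv
    rw [hdec]
    refine hn.add_lt ?_ ?_
    · rw [hn.smul]
      have := hn.pos v hv
      have := hχ1 σ
      nlinarith
    · rw [hn.smul, hχn, one_mul]
      have h3 := hcon σ v
      have := hn.pos v hv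
      nlinarith
  · intro σ hσ v hv
    rw [prj_eq_zero] at hv ⊢
    intro i hi
    rw [hRd, Pi.smul_apply, mv_apply, smul_eq_mul]
    refine mul_eq_zero_of_right _ (Finset.sum_eq_zero fun j _ => ?_)
    by_cases hj : κ j = true
    · rw [hk₀ σ hσ i j hi hj, map_zero, zero_mul]
    · rw [hv j (by simpa using hj), mul_zero]
  · intro σ hσ v hv
    rw [prj_eq_self] at hv ⊢
    intro i hi
    rw [hRd, Pi.smul_apply, mv_apply, smul_eq_mul]
    refine mul_eq_zero_of_right _ (Finset.sum_eq_zero fun j _ => ?_)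
    by_cases hj : κ j = true
    · rw [hv j hj, mul_zero]
    · rw [hk₁ σ hσ i j hi (by simpa using hj), map_zero, zero_mul]
  · obtain ⟨y, hy⟩ := hw₀
    refine ⟨y, fun σ hσ => ?_⟩
    rw [← sub_eq_zero, ← map_sub, prj_eq_zero]
    intro i hi
    rw [Pi.sub_apply, hy σ hσ i hi]
    exact sub_self _
  · obtain ⟨y, hy⟩ := hw₁
    refine ⟨y, fun σ hσ => ?_⟩
    have h1 : prj κ (c σ - (R σ y - y)) = c σ - (R σ y - y) := by
      rw [prj_eq_self]
      intro i hi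
      rw [Pi.sub_apply, hy σ hσ i hi]
      exact sub_self _
    rw [map_sub] at h1
    have e : (c σ - prj κ (c σ)) - ((R σ y - y) - prj κ (R σ y - y)) =
        (c σ - (R σ y - y)) - (prj κ (c σ) - prj κ (R σ y - y)) := by abel
    rw [← sub_eq_zero, e, h1, sub_self]
  · rintro _ ⟨J, ⟨p, hp, ι, hp2, rfl⟩, rfl⟩
    refine ⟨hodd p ι hp2, ?_⟩
    rcases hS p ι hp2 with h | ⟨φ, hφ, hφo⟩
    · left
      intro σ hσ v
      rw [hRd, h σ hσ, mv_one, hχu p ι hp2 σ hσ, Units.val_one, one_smul]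
    · right
      obtain ⟨k, hk⟩ := hχ2 φ
      obtain ⟨m, -, hm⟩ := (Nat.dvd_prime_pow Nat.prime_two).1 (orderOf_dvd_of_pow_eq_one hk)
      rw [hm] at hφo
      obtain ⟨j, rfl⟩ : ∃ j, m = j + 1 := by
        refine ⟨m - 1, ?_⟩
        have : m ≠ 0 := by
          rintro rfl
          rw [pow_zero] at hφo
          omega
        omega
      have hj : n < 2 ^ j := by
        rw [pow_succ] at hφo
        omega
      have hφ2 : (χ φ : E) ^ (2 ^ j) ≠ 1 := by
        intro h2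
        have h2' : χ φ ^ (2 ^ j) = 1 := by
          apply Units.ext
          rw [Units.val_pow_eq_pow_val, h2, Units.val_one]
        have h3 := Nat.le_of_dvd (by positivity) (orderOf_dvd_of_pow_eq_one h2')
        rw [hm, pow_succ] at h3
        have : 0 < 2 ^ j := by positivity
        omega
      obtain ⟨k', hk'⟩ := hχ' φ
      have hgt := root_gt hk' hφ2 hr hrn hj
      refine ⟨φ, fun σ hσ => inr_normal hφ hσ, fun v hv => ?_, fun σ hσ v hv => ?_⟩
      · by_contra h0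
        have h6 := hbig φ hgt v
        rw [hv, sub_self, hn.zero] at h6
        have := hn.pos v h0
        have h7 : 0 < ‖(χ φ : E) - 1‖ := lt_trans (by positivity) hgt
        nlinarith [mul_pos h7 this]
      · rw [hbig φ hgt, hRd, hχu p ι hp2 σ hσ, Units.val_one, one_smul]
        exact (hcon σ v).trans_lt (mul_lt_mul_of_pos_right hgt (hn.pos v hv))

end Pool.Agent.NH6
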