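import Pool.Agent.NH6.PK3
import Pool.Agent.Y715.T.Fro

/-!
# Characters of the cyclotomic extension and Frobenius elements
-/

set_option autoImplicit false
set_option linter.unusedSectionVars false

namespace Pool.Agent.NH6

open Pool.Agent.Y715.Nr Pool.Agent.Y715.Red Pool.Agent.W237.RK
open Pool.Agent.Y715.Gi (QB KK GK i₀_mem gk_fix)
open Pool.Agent.Y715.Df (Cmp exists_cmp)

/-! ### Powers modulo powers of two -/

lemma pow_two_pow {u : ℤ} {b : ℕ} (hb : 2 ≤ b) {w : ℤ} (hw : Odd w) (hu : u = 1 + 2 ^ b * w)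
    (i : ℕ) : ∃ w' : ℤ, Odd w' ∧ u ^ (2 ^ i) = 1 + 2 ^ (b + i) * w' := by
  induction i with
  | zero => exact ⟨w, hw, by rw [pow_zero, pow_one, add_zero]; exact hu⟩
  | succ i ih =>
    obtain ⟨w', hw', e⟩ := ih
    obtain ⟨m, hm⟩ : ∃ m, b + i = m + 2 := ⟨b + i - 2, by omega⟩
    refine ⟨w' + 2 ^ (m + 1) * w' ^ 2, ?_, ?_⟩
    · refine hw'.add_even ?_
      rw [pow_succ]
      exact (even_two.mul_left _).mul_right _
    · rw [pow_succ, pow_mul, e, ← add_assoc, hm]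
      ring

lemma pow_gen {u : ℤ} {b : ℕ} (hb : 2 ≤ b) {w : ℤ} (hw : Odd w) (hu : u = 1 + 2 ^ b * w) {y : ℤ}
    (hy : (2 : ℤ) ^ b ∣ y - 1) (k : ℕ) : ∃ t : ℕ, (2 : ℤ) ^ k ∣ y - u ^ t := by
  have huo : Odd u := by
    rw [hu]
    refine odd_one.add_even ?_
    obtain ⟨m, rfl⟩ : ∃ m, b = m + 1 := ⟨b - 1, by omega⟩
    rw [pow_succ]
    exact (even_two.mul_left _).mul_right _
  induction k with
  | zero => exact ⟨0, by simp⟩
  | succ k ih =>
    by_cases hk : k + 1 ≤ b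
    · exact ⟨0, by rw [pow_zero]; exact (pow_dvd_pow 2 hk).trans hy⟩
    · obtain ⟨t, z, hz⟩ := ih
      rcases Int.even_or_odd z with h | h
      · obtain ⟨z', hz'⟩ := h.two_dvd
        exact ⟨t, z', by rw [hz, hz']; ring⟩
      · obtain ⟨w', hw', e⟩ := pow_two_pow hb hw hu (k - b)
        have hkb : b + (k - b) = k := by omega
        rw [hkb] at e
        refine ⟨t + 2 ^ (k - b), ?_⟩
        have h1 : Even (z - u ^ t * w') := h.sub_odd ((huo.pow).mul hw')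
        obtain ⟨z', hz'⟩ := h1.two_dvd
        refine ⟨z', ?_⟩
        rw [pow_add, e]
        calc y - u ^ t * (1 + 2 ^ k * w') = (y - u ^ t) - 2 ^ k * (u ^ t * w') := by ring
          _ = 2 ^ k * (z - u ^ t * w') := by rw [hz]; ring
          _ = 2 ^ (k + 1) * z' := by rw [hz']; ring

lemma odd_pow {a : ℤ} (ha : Odd a) (i : ℕ) : (2 : ℤ) ^ (i + 3) ∣ a ^ (2 ^ (i + 1)) - 1 := by
  induction i with
  | zero =>
    have h := Int.sq_mod_four_eq_one_of_odd ha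
    have h8 := Int.eight_dvd_sq_sub_one_of_odd ha
    norm_num
    exact h8
  | succ i ih =>
    have e : a ^ (2 ^ (i + 1 + 1)) - 1 = (a ^ (2 ^ (i + 1)) - 1) * (a ^ (2 ^ (i + 1)) + 1) := by
      rw [pow_succ 2 (i + 1), pow_mul]
      ring
    rw [e, show i + 1 + 3 = (i + 3) + 1 by ring, pow_succ]
    refine mul_dvd_mul ih ?_
    have h1 : Even (a ^ (2 ^ (i + 1)) + 1) := ha.pow.add_odd odd_one
    exact h1.two_dvd

/-! ### The action on roots of unity -/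

variable {s : QB}

instance enough (i : ℕ) : HasEnoughRootsOfUnity QB (2 ^ i) := by
  have : NeZero ((2 ^ i : ℕ) : QB) := ⟨by push_cast; exact pow_ne_zero _ two_ne_zero⟩
  infer_instance

/-- `σ` acts on the roots of unity of order `2 ^ k` by the exponent `a` -/
def ActsE {s : QB} (k : ℕ) (σ : GK s) (a : ℕ) : Prop := ∀ ζ : QB, ζ ^ (2 ^ k) = 1 → σ ζ = ζ ^ a

lemma exists_exp (k : ℕ) (σ : GK s) : ∃ a : ℕ, Odd a ∧ ActsE k σ a := by
  by_cases hk0 : k = 0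
  · subst hk0
    refine ⟨1, odd_one, fun ζ hζ => ?_⟩
    rw [pow_zero, pow_one] at hζ
    rw [hζ, map_one, one_pow]
  obtain ⟨ζ, hζ⟩ := HasEnoughRootsOfUnity.exists_primitiveRoot QB (2 ^ k)
  have hσ : IsPrimitiveRoot (σ ζ) (2 ^ k) := hζ.map_of_injective (f := σ) σ.injective
  have hne : NeZero (2 ^ k) := ⟨by positivity⟩
  obtain ⟨a, -, ha⟩ := hζ.eq_pow_of_pow_eq_one (ξ := σ ζ) hσ.pow_eq_one
  have hcop : a.Coprime (2 ^ k) := by
    rw [← ha] at hσ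
    exact (hζ.pow_iff_coprime (by positivity) a).1 hσ
  refine ⟨a, ?_, fun ξ hξ => ?_⟩
  · have h1 : a.Coprime 2 := Nat.Coprime.coprime_dvd_right (dvd_pow_self 2 hk0) hcop
    exact (Nat.coprime_two_right).1 h1
  · obtain ⟨i, -, rfl⟩ := hζ.eq_pow_of_pow_eq_one hξ
    rw [map_pow, ← ha, ← pow_mul, ← pow_mul, mul_comm]

lemma ActsE.pow {k : ℕ} {σ : GK s} {a : ℕ} (h : ActsE k σ a) (n : ℕ) : ActsE k (σ ^ n) (a ^ n) := by
  induction n with
  | zero =>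
    intro ζ _
    rw [pow_zero, pow_zero, pow_one]
    rfl
  | succ n ih =>
    intro ζ hζ
    rw [pow_succ, AlgEquiv.mul_apply, h ζ hζ, map_pow, ih ζ hζ, ← pow_mul, pow_succ]

lemma zeta_pow {k : ℕ} {ζ : QB} (hζ : ζ ^ (2 ^ k) = 1) {a b : ℕ}
    (h : (2 : ℤ) ^ k ∣ (a : ℤ) - b) : ζ ^ a = ζ ^ b := by
  have key : ∀ a b : ℕ, a ≤ b → (2 : ℤ) ^ k ∣ (b : ℤ) - a → ζ ^ a = ζ ^ b := by
    intro a b hab h
    obtain ⟨c, rfl⟩ := Nat.exists_eq_add_of_le hab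
    have h1 : (2 : ℤ) ^ k ∣ (c : ℤ) := by
      have e : ((a + c : ℕ) : ℤ) - a = c := by push_cast; ring
      rwa [e] at h
    have h2 : 2 ^ k ∣ c := by exact_mod_cast h1
    obtain ⟨d, rfl⟩ := h2
    rw [pow_add, pow_mul, hζ, one_pow, mul_one]
  rcases le_total a b with hab | hab
  · refine key a b hab ?_
    have := (dvd_neg (a := (2 : ℤ) ^ k)).2 h
    rwa [neg_sub] at this
  · exact (key b a hab h).symm

/-- elements with the same exponent -/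
lemma chi_eq {E : Type} [Field E] {χ : GK s →* Eˣ} {k : ℕ}
    (hχ : ∀ σ : GK s, (∀ ζ : QB, ζ ^ (2 ^ k) = 1 → σ ζ = ζ) → χ σ = 1) {σ τ : GK s} {a b : ℕ}
    (ha : ActsE k σ a) (hb : ActsE k τ b) (h : (2 : ℤ) ^ k ∣ (a : ℤ) - b) : χ σ = χ τ := by
  have h1 : χ (τ⁻¹ * σ) = 1 := by
    apply hχ
    intro ζ hζ
    rw [AlgEquiv.mul_apply, ha ζ hζ, zeta_pow hζ h, ← hb ζ hζ, ← AlgEquiv.mul_apply,
      inv_mul_cancel, AlgEquiv.one_apply]
  rw [map_mul, map_inv, inv_mul_eq_one] at h1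
  exact h1.symm

/-- the character has values in the roots of unity of order a power of two -/
lemma chi_two {E : Type} [Field E] {χ : GK s →* Eˣ} {k : ℕ}
    (hχ : ∀ σ : GK s, (∀ ζ : QB, ζ ^ (2 ^ k) = 1 → σ ζ = ζ) → χ σ = 1) (σ : GK s) :
    χ σ ^ (2 ^ (k + 1)) = 1 := by
  obtain ⟨a, hao, ha⟩ := exists_exp k σ
  rw [← map_pow, ← map_one χ]
  refine chi_eq hχ (ha.pow (2 ^ (k + 1))) (b := 1) (fun ζ _ => by rw [pow_one]; rfl) ?_
  have h1 := odd_pow (a := (a : ℤ)) (by exact_mod_cast hao) k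
  push_cast
  exact (pow_dvd_pow 2 (by omega)).trans h1

/-- Frobenius elements and the order of the character -/
lemma chi_order {E : Type} [Field E] {χ : GK s →* Eˣ} {k : ℕ}
    (hχ : ∀ σ : GK s, (∀ ζ : QB, ζ ^ (2 ^ k) = 1 → σ ζ = ζ) → χ σ = 1) {φ : GK s} {ℓ : ℕ}
    (hℓ : Odd ℓ) (hℓ1 : 1 < ℓ) (hφ : ActsE k φ (ℓ ^ 2)) {j : ℕ} (hj : χ φ ^ (2 ^ j) = 1) :
    4 * orderOf χ < ℓ ^ 2 * 2 ^ j := by
  -- the valuation of `ℓ² - 1`
  have h8 : (8 : ℤ) ∣ (ℓ : ℤ) ^ 2 - 1 := Int.eight_dvd_sq_sub_one_of_odd (by exact_mod_cast hℓ)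
  have hpos : (ℓ ^ 2 - 1) ≠ 0 := by
    have : 1 < ℓ ^ 2 := Nat.one_lt_pow two_ne_zero hℓ1
    omega
  obtain ⟨b, w, hw, hbw⟩ := Nat.exists_eq_two_pow_mul_odd hpos
  have hle : 1 ≤ ℓ ^ 2 := Nat.one_le_pow _ _ (by omega)
  have hu : (ℓ : ℤ) ^ 2 = 1 + 2 ^ b * w := by
    have h1 : ((ℓ ^ 2 - 1 : ℕ) : ℤ) = ((2 ^ b * w : ℕ) : ℤ) := by rw [hbw]
    rw [Nat.cast_sub hle] at h1
    push_cast at h1
    linarith
  have hwo : Odd (w : ℤ) := by exact_mod_cast hw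
  have hb3 : 3 ≤ b := by
    by_contra hcon
    have h1 : (8 : ℤ) ∣ 2 ^ b * w := by
      have e : (2 : ℤ) ^ b * w = (ℓ : ℤ) ^ 2 - 1 := by rw [hu]; ring
      rw [e]; exact h8
    obtain ⟨c, hc⟩ := hwo
    rcases (by omega : b = 0 ∨ b = 1 ∨ b = 2) with rfl | rfl | rfl <;> omega
  obtain ⟨b', rfl⟩ : ∃ b', b = b' + 3 := ⟨b - 3, by omega⟩
  have hb' : 2 ^ (b' + 3) < ℓ ^ 2 := by
    have h1 : 2 ^ (b' + 3) ≤ 2 ^ (b' + 3) * w := Nat.le_mul_of_pos_right _ (Nat.pos_of_ne_zero (by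
      rintro rfl
      exact absurd hw (by decide)))
    omega
  have key : ∀ σ : GK s, χ σ ^ (2 ^ (b' + 1) * 2 ^ j) = 1 := by
    intro σ
    obtain ⟨a, hao, ha⟩ := exists_exp k σ
    have h1 := odd_pow (a := (a : ℤ)) (by exact_mod_cast hao) b'
    obtain ⟨t, ht⟩ := pow_gen (by omega) hwo hu h1 k
    have h2 : χ (σ ^ (2 ^ (b' + 1))) = χ (φ ^ t) := by
      refine chi_eq hχ (ha.pow _) (hφ.pow t) ?_
      push_cast
      exact ht
    rw [pow_mul, ← map_pow, h2, map_pow, ← pow_mul, mul_comm, pow_mul, hj, one_pow]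
  have h2 : orderOf χ ∣ 2 ^ (b' + 1) * 2 ^ j := by
    apply orderOf_dvd_of_pow_eq_one
    ext σ
    rw [MonoidHom.pow_apply, key σ]
    rfl
  have h3 : orderOf χ ≤ 2 ^ (b' + 1) * 2 ^ j := Nat.le_of_dvd (by positivity) h2
  have e : 4 * (2 ^ (b' + 1) * 2 ^ j) = 2 ^ (b' + 3) * 2 ^ j := by ring
  calc 4 * orderOf χ ≤ 4 * (2 ^ (b' + 1) * 2 ^ j) := Nat.mul_le_mul_left 4 h3
    _ = 2 ^ (b' + 3) * 2 ^ j := e
    _ < ℓ ^ 2 * 2 ^ j := Nat.mul_lt_mul_of_pos_right hb' (by positivity)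

/-! ### Local elements -/

/-- the roots of unity are fixed by the inertia groups of the odd primes -/
lemma root_fix {p : ℕ} [Fact p.Prime] (hp : p ≠ 2) {τ : Au p} (hin : Inert τ) (n : ℕ) :
    ∀ z : PadicAlgCl p, z ^ 2 ^ n = 1 → τ z = z := by
  intro z hz
  have hz0 : z ≠ 0 := by
    rintro rfl
    rw [zero_pow (by positivity)] at hz
    exact zero_ne_one hz
  have hz1 : ‖z‖ = 1 := by
    have h1 := congrArg norm hz
    rw [norm_pow, norm_one] at h1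
    exact (pow_eq_one_iff_of_nonneg (norm_nonneg _) (by positivity)).1 h1
  set u := τ z / z with hu
  have hu1 : u ^ 2 ^ n = 1 := by
    rw [hu, div_pow, ← map_pow, hz, map_one, div_one]
  have hu2 : ‖u - 1‖ < 1 := by
    have h1 := hin z hz1.le
    have e : u - 1 = (τ z - z) / z := by rw [hu]; field_simp
    rw [e, norm_div, hz1, div_one]
    exact h1
  have key : ∀ m : ℕ, u ^ 2 ^ m = 1 → u = 1 := by
    intro m
    induction m with
    | zero =>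
      intro h
      simpa using h
    | succ m ih =>
      intro h
      apply ih
      have h1 : (u ^ 2 ^ m) ^ 2 = 1 := by rw [← pow_mul, ← pow_succ, h]
      rcases sq_eq_one_iff.1 h1 with h2 | h2
      · exact h2
      · exfalso
        have h3 : ‖u ^ 2 ^ m - 1‖ < 1 := by
          obtain ⟨c, hc⟩ : u - 1 ∣ u ^ 2 ^ m - 1 := by
            have := sub_dvd_pow_sub_pow u 1 (2 ^ m)
            rwa [one_pow] at this
          have hun : ‖u‖ = 1 := by rw [hu, norm_div, nrm, hz1, div_one]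
          -- the quotient is integral
          have h4 : u ^ 2 ^ m - 1 = (u - 1) * ∑ i ∈ Finset.range (2 ^ m), u ^ i := by
            rw [mul_comm, geom_sum_mul]
          rw [h4, norm_mul]
          have h5 : ‖∑ i ∈ Finset.range (2 ^ m), u ^ i‖ ≤ 1 := by
            apply IsUltrametricDist.norm_sum_le_of_forall_le_of_nonneg (by norm_num)
            intro i _
            rw [norm_pow, hun, one_pow]
          calc ‖u - 1‖ * _ ≤ ‖u - 1‖ * 1 := mul_le_mul_of_nonneg_left h5 (norm_nonneg _)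
            _ < 1 := by rwa [mul_one]
        rw [h2] at h3
        have e : (-1 - 1 : PadicAlgCl p) = -2 := by norm_num
        rw [e, norm_neg, norm_two_odd hp] at h3
        exact lt_irrefl _ h3
  have h1 := key n hu1
  rw [hu, div_eq_one_iff_eq hz0] at h1
  exact h1

lemma inr_fix {p : ℕ} [Fact p.Prime] (hp : p ≠ 2) {ι : QB →ₐ[ℚ] PadicAlgCl p} {σ : GK s}
    (hσ : σ ∈ InrG s ι) {k : ℕ} {ζ : QB} (hζ : ζ ^ (2 ^ k) = 1) : σ ζ = ζ := by
  obtain ⟨τ, hin, hτ⟩ := hσ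
  apply ι.injective
  show ι (σ ζ) = ι ζ
  rw [← hτ]
  exact root_fix hp hin k _ (by rw [← map_pow, hζ, map_one])

/-- the Frobenius elements -/
theorem exists_frob {q : ℕ} (hs : s ^ 2 = -(q : QB)) {p : ℕ} [Fact p.Prime] (hp : p ≠ 2)
    (ι : QB →ₐ[ℚ] PadicAlgCl p) : ∃ φ ∈ DecG s ι, ∀ k, ActsE k φ (p ^ 2) := by
  obtain ⟨f, hf⟩ := Pool.Agent.Y715.T.Fro.exists_Frob p
  have hfs : (f ^ 2) (ι s) = ι s := by
    rw [pow_two, AlgEquiv.mul_apply]
    rcases sq_or (io_s hs ι) f with h | h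
    · rw [h, h]
    · rw [h, map_neg, h, neg_neg]
  obtain ⟨φ, hφ⟩ := exists_cmp (i₀ := s) ι (f ^ 2) hfs
  refine ⟨φ, ⟨f ^ 2, hφ⟩, fun k ζ hζ => ?_⟩
  apply ι.injective
  show ι (φ ζ) = ι (ζ ^ p ^ 2)
  have hcop : ¬ p ∣ 2 ^ k := by
    intro h
    have := (Fact.out : p.Prime).dvd_of_dvd_pow h
    exact hp ((Nat.prime_dvd_prime_iff_eq Fact.out Nat.prime_two).1 this)
  have h1 : (ι ζ) ^ (2 ^ k) = 1 := by rw [← map_pow, hζ, map_one]
  rw [← hφ, pow_two, AlgEquiv.mul_apply, hf _ hcop _ h1, map_pow, hf _ hcop _ h1, map_pow, ← pow_mul,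
    ← pow_two]

/-- the decomposition group normalises the inertia group -/
lemma inr_normal {p : ℕ} [Fact p.Prime] {ι : QB →ₐ[ℚ] PadicAlgCl p} {φ σ : GK s}
    (hφ : φ ∈ DecG s ι) (hσ : σ ∈ InrG s ι) : φ * σ * φ⁻¹ ∈ InrG s ι := by
  obtain ⟨t, ht⟩ := hφ
  obtain ⟨t', ht'⟩ := (DecG s ι).inv_mem (⟨t, ht⟩ : φ ∈ DecG s ι)
  have ht'' : Cmp ι t⁻¹ φ⁻¹ := by
    intro x
    have h1 := ht (φ⁻¹ x)
    rw [← AlgEquiv.mul_apply, mul_inv_cancel, AlgEquiv.one_apply] at h1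
    rw [← h1, ← AlgEquiv.mul_apply, inv_mul_cancel, AlgEquiv.one_apply]
  obtain ⟨τ, hin, hτ⟩ := hσ
  refine ⟨t * τ * t⁻¹, fun z hz => ?_, (ht.mul hτ).mul ht''⟩
  have h1 := hin (t⁻¹ z) (by rwa [nrm])
  have e : (t * τ * t⁻¹) z - z = t (τ (t⁻¹ z) - t⁻¹ z) := by
    rw [map_sub, ← AlgEquiv.mul_apply t t⁻¹ z, mul_inv_cancel, AlgEquiv.one_apply]
    rfl
  rw [e, nrm]
  exact h1

end Pool.Agent.NH6
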