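import Pool.Agent.NH6.Res

/-!
# The vanishing theorem for open subgroups of the absolute Galois group of `ℚ(√-q)`
-/

set_option autoImplicit false
set_option linter.unusedSectionVars false

namespace Pool.Agent.NH6

open Filter Topology
open Pool.Agent.Y715.Nr Pool.Agent.Y715.Red Pool.Agent.W237.RK
open Pool.Agent.Y715.Gi (QB KK GK i₀_mem gk_fix)
open Pool.Agent.Y715.Df (Cmp exists_cmp)

variable {s : QB}

theorem fin_main {q : ℕ} [Fact q.Prime] (hq7 : q % 16 = 7) (hs : s ^ 2 = -(q : QB))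
    (ι₀ : QB →ₐ[ℚ] PadicAlgCl 2) {H : Subgroup (GK s)} (hHo : IsOpen (H : Set (GK s)))
    [hfin : H.FiniteIndex] {n : ℕ} (hpow : ∀ σ : GK s, σ ^ (2 ^ n) ∈ H) {N : ℕ}
    (ρ : H →* Matrix (Fin N) (Fin N) ℤ_[2]) (hρc : Continuous ρ)
    (hρ2 : ∀ σ, ∃ k : ℕ, ∀ i j,
      (2 : ℤ_[2]) ∣ (ρ σ ^ 2 ^ k) i j - (1 : Matrix (Fin N) (Fin N) ℤ_[2]) i j)
    {E : Type} [NormedField E] [NormedAlgebra ℚ_[2] E] (χ : GK s →* Eˣ)
    (hχc : Continuous fun σ => (χ σ : E))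
    (hχ2 : ∀ σ, ∃ k : ℕ, χ σ ^ 2 ^ k = 1)
    (hχu : ∀ (p : ℕ) [Fact p.Prime] (ι : QB →ₐ[ℚ] PadicAlgCl p), p ≠ 2 → ∀ σ ∈ InrG s ι, χ σ = 1)
    (hS : ∀ (p : ℕ) [Fact p.Prime] (ι : QB →ₐ[ℚ] PadicAlgCl p), p ≠ 2 →
      (∀ g : GK s, ∀ σ ∈ InrG s (cj ι g), ∃ h : σ ∈ H, ρ ⟨σ, h⟩ = 1) ∨
      ∃ φ ∈ DecG s ι, 2 * (N * H.index) < orderOf (χ φ))
    (c : H → Fin N → E) (hcc : Continuous c)
    (hcm : ∀ σ τ, c (σ * τ) = c σ + (χ (σ : GK s) : E) • mv (ρ σ) (c τ))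
    (hodd : ∀ (p : ℕ) [Fact p.Prime] (ι : QB →ₐ[ℚ] PadicAlgCl p), p ≠ 2 →
      ∃ y : Fin N → E, ∀ σ : H, (σ : GK s) ∈ InrG s ι → c σ = (χ (σ : GK s) : E) • mv (ρ σ) y - y)
    (htwo : ∀ ι : QB →ₐ[ℚ] PadicAlgCl 2, ι s = ι₀ s →
      ∃ y : Fin N → E, ∀ σ : H, (σ : GK s) ∈ DecG s ι → c σ = (χ (σ : GK s) : E) • mv (ρ σ) y - y) :
    ∃ y : Fin N → E, ∀ σ : H, c σ = (χ (σ : GK s) : E) • mv (ρ σ) y - y := by
  by_cases hN : N = 0
  · subst hN
    exact ⟨0, fun σ => Subsingleton.elim _ _⟩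
  have hft : Fintype (GK s ⧸ H) := Fintype.ofFinite _
  have hcard : Fintype.card (GK s ⧸ H) = H.index := by
    rw [Subgroup.index, Nat.card_eq_fintype_card]
  -- extension to the whole group
  set ρ' : GK s → Matrix (Fin N) (Fin N) ℤ_[2] := ex 1 ρ with hρ'
  set c' : GK s → Fin N → E := ex 0 c with hc'
  have eρ : ∀ {g : GK s} (h : g ∈ H), ρ' g = ρ ⟨g, h⟩ := fun h => ex_of 1 ρ h
  have ec : ∀ {g : GK s} (h : g ∈ H), c' g = c ⟨g, h⟩ := fun h => ex_of 0 c h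
  have h1 : ρ' 1 = 1 := by
    rw [eρ (one_mem _)]
    exact map_one ρ
  have hmul : ∀ a ∈ H, ∀ b ∈ H, ρ' (a * b) = ρ' a * ρ' b := by
    intro a ha b hb
    rw [eρ ha, eρ hb, eρ (mul_mem ha hb), ← map_mul]
    rfl
  have hcmul : ∀ a ∈ H, ∀ b ∈ H,
      c' (a * b) = c' a + (χ a : E) • mv (ρ' a) (c' b) := by
    intro a ha b hb
    have h2 := hcm ⟨a, ha⟩ ⟨b, hb⟩
    rw [ec ha, ec hb, ec (mul_mem ha hb), eρ ha]
    exact h2
  have htw : TwoGrp H ρ' := by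
    refine ⟨⟨n, hpow⟩, ?_⟩
    obtain ⟨k, hk⟩ := unif_exp (B := Fin N)
    refine ⟨k, fun h hh => hk _ ?_⟩
    obtain ⟨k', hk'⟩ := hρ2 ⟨h, hh⟩
    refine ⟨k', ?_⟩
    unfold AF
    rw [eρ hh]
    exact mod_two hk'
  have hcts : Cts H ρ' χ c' := by
    intro ε hε
    have hc1 : c 1 = 0 := by
      have h2 := hcm 1 1
      rw [mul_one] at h2
      have h3 : (((1 : H) : GK s)) = 1 := rfl
      rw [h3, map_one, Units.val_one, one_smul, map_one, mv_one] at h2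
      exact left_eq_add.1 h2
    have e1 : ∀ᶠ x : H in 𝓝 1, ‖c x‖ < ε := by
      have h2 := (hcc.tendsto 1).norm
      rw [hc1, norm_zero] at h2
      exact h2.eventually_lt_const hε
    have e2 : ∀ᶠ x : H in 𝓝 1, ∀ i j,
        ‖(ρ x) i j - (1 : Matrix (Fin N) (Fin N) ℤ_[2]) i j‖ < ε := by
      rw [eventually_all]
      intro i
      rw [eventually_all]
      intro j
      have h2 : Continuous fun x : H => (ρ x) i j - (1 : Matrix (Fin N) (Fin N) ℤ_[2]) i j := by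
        fun_prop
      have h3 := (h2.tendsto 1).norm
      rw [map_one, sub_self, norm_zero] at h3
      exact h3.eventually_lt_const hε
    have e3 : ∀ᶠ x : GK s in 𝓝 1, ‖(χ x : E) - 1‖ < ε := by
      have h2 : Continuous fun x : GK s => (χ x : E) - 1 :=
        hχc.sub continuous_const
      have h3 := (h2.tendsto 1).norm
      rw [map_one, Units.val_one, sub_self, norm_zero] at h3
      exact h3.eventually_lt_const hε
    have e4 : ∀ᶠ x : GK s in 𝓝 1, x ∈ H ∧ ‖c' x‖ < ε ∧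
        ∀ v : Fin N → E, ‖mv (ρ' x) v - v‖ ≤ ε * ‖v‖ := by
      apply eventually_sub hHo
      filter_upwards [e1, e2] with x h2 h3
      refine ⟨x.2, ?_, ?_⟩
      · rw [ec x.2]
        exact h2
      · rw [eρ x.2]
        exact mv_small hε.le fun i j => (h3 i j).le
    filter_upwards [e3, e4] with x h2 h3
    exact ⟨h3.1, h3.2.1, h3.2.2, h2⟩
  suffices hmain : ∃ v : Fin N → E, ∀ a ∈ H,
      c' a = (χ a : E) • mv (ρ' a) v - v by
    obtain ⟨v, hv⟩ := hmain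
    refine ⟨v, fun σ => ?_⟩
    have h2 := hv σ σ.2
    rw [ec σ.2, eρ σ.2] at h2
    exact h2
  refine ind_main h1 hmul htw χ hχ2 hcmul hcts (DecG s ι₀) (OddI s) (rigid_K hq7 hs ι₀) ?_ ?_
  · -- the place above two
    intro g
    obtain ⟨y, hy⟩ := htwo (cj ι₀ g) (cj_s ι₀ g)
    refine ⟨y, fun a ha hD => ?_⟩
    obtain ⟨τ, hτ⟩ := hD
    rw [ec ha, hy ⟨a, ha⟩ ⟨τ, cj_cmp hτ⟩, eρ ha]
  · -- the odd places
    rintro _ ⟨p, hp, ι, hp2, rfl⟩
    refine ⟨?_, ?_, ?_⟩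
    · intro g
      obtain ⟨y, hy⟩ := hodd p (cj ι g) hp2
      refine ⟨y, fun a ha hD => ?_⟩
      obtain ⟨τ, hin, hτ⟩ := hD
      rw [ec ha, hy ⟨a, ha⟩ ⟨τ, hin, cj_cmp hτ⟩, eρ ha]
    · exact hχu p ι hp2
    · rcases hS p ι hp2 with h | ⟨φ, hφ, hφo⟩
      · left
        intro g σ hσ
        obtain ⟨τ, hin, hτ⟩ := hσ
        obtain ⟨h2, h3⟩ := h g (g * σ * g⁻¹) ⟨τ, hin, cj_cmp' hτ⟩
        exact ⟨h2, by rw [eρ h2, h3]⟩
      · right
        obtain ⟨k, hk⟩ := hχ2 φ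
        obtain ⟨m, -, hm⟩ := (Nat.dvd_prime_pow Nat.prime_two).1 (orderOf_dvd_of_pow_eq_one hk)
        rw [hm] at hφo
        obtain ⟨j, rfl⟩ : ∃ j, m = j + 1 := by
          refine ⟨m - 1, ?_⟩
          have : m ≠ 0 := by
            rintro rfl
            have h1 : 0 < N * H.index :=
              Nat.mul_pos (Nat.pos_of_ne_zero hN) (Nat.pos_of_ne_zero hfin.index_ne_zero)
            rw [pow_zero] at hφo
            omega
          omega
        refine ⟨φ, j, fun σ hσ => inr_normal hφ hσ, ?_, ?_⟩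
        · rw [Fintype.card_fin, hcard]
          rw [pow_succ] at hφo
          omega
        · intro h2
          have h3 := Nat.le_of_dvd (by positivity) (orderOf_dvd_of_pow_eq_one h2)
          rw [hm, pow_succ] at h3
          have : 0 < 2 ^ j := by positivity
          omega

end Pool.Agent.NH6
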