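import Pool.Agent.NH6.Shp

/-!
# Roots of unity of order a power of two, and the vanishing theorem for induced modules
-/

set_option autoImplicit false
set_option linter.unusedSectionVars false

namespace Pool.Agent.NH6

open Filter Topology

section roots

variable {E : Type} [NormedField E] [NormedAlgebra ℚ_[2] E]

lemma add_lt' {a b : E} {r : ℝ} (ha : ‖a‖ < r) (hb : ‖b‖ < r) : ‖a + b‖ < r := by
  have hu : IsUltrametricDist E := ultra
  exact (IsUltrametricDist.norm_add_le_max a b).trans_lt (max_lt ha hb)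

lemma add_le' {a b : E} {r : ℝ} (ha : ‖a‖ ≤ r) (hb : ‖b‖ ≤ r) : ‖a + b‖ ≤ r := by
  have hu : IsUltrametricDist E := ultra
  exact (IsUltrametricDist.norm_add_le_max a b).trans (max_le ha hb)

lemma root_norm {x : E} {k : ℕ} (h : x ^ (2 ^ k) = 1) : ‖x‖ = 1 := by
  have h1 : ‖x‖ ^ (2 ^ k) = 1 := by rw [← norm_pow, h, norm_one]
  exact (pow_eq_one_iff_of_nonneg (norm_nonneg _) (by positivity)).1 h1

lemma root_lt {x : E} {k : ℕ} (h : x ^ (2 ^ k) = 1) : ‖x - 1‖ < 1 := by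
  induction k generalizing x with
  | zero =>
    rw [pow_zero, pow_one] at h
    rw [h, sub_self, norm_zero]
    exact zero_lt_one
  | succ k ih =>
    have h1 := ih (x := x ^ 2) (by rw [← pow_mul, ← pow_succ']; exact h)
    by_contra hcon
    push Not at hcon
    have h2 : 1 ≤ ‖x + 1‖ := by
      by_contra h3
      push Not at h3
      have h4 : ‖x - 1‖ < 1 := by
        have e : x - 1 = (x + 1) + (-2) := by ring
        rw [e]
        refine add_lt' h3 ?_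
        rw [norm_neg, norm_two]
        norm_num
      linarith
    have e : x ^ 2 - 1 = (x - 1) * (x + 1) := by ring
    rw [e, norm_mul] at h1
    nlinarith

lemma root_half {x : E} {k : ℕ} (h : x ^ (2 ^ k) = 1) (hx : x ≠ 1) : 1 / 2 ≤ ‖x - 1‖ := by
  induction k generalizing x with
  | zero =>
    rw [pow_zero, pow_one] at h
    exact absurd h hx
  | succ k ih =>
    by_cases h2 : x ^ 2 = 1
    · have h3 : x = -1 := by
        have h4 : (x - 1) * (x + 1) = 0 := by linear_combination h2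
        exact eq_neg_of_add_eq_zero_left ((mul_eq_zero.1 h4).resolve_left (sub_ne_zero.2 hx))
      have e : x - 1 = -2 := by rw [h3]; ring
      rw [e, norm_neg, norm_two]
    · have h1 := ih (x := x ^ 2) (by rw [← pow_mul, ← pow_succ']; exact h) h2
      have e : x ^ 2 - 1 = (x - 1) * (x + 1) := by ring
      rw [e, norm_mul] at h1
      have h3 : ‖x + 1‖ ≤ 1 := add_le' (root_norm h).le norm_one.le
      nlinarith [norm_nonneg (x - 1)]

lemma root_sq {x : E} {k : ℕ} (h : x ^ (2 ^ k) = 1) (hx : x ≠ 1) :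
    ‖x ^ 2 - 1‖ ≤ ‖x - 1‖ ^ 2 := by
  have h1 := root_half h hx
  have e : x ^ 2 - 1 = (x - 1) * (x + 1) := by ring
  have h3 : ‖x + 1‖ ≤ ‖x - 1‖ := by
    have e : x + 1 = (x - 1) + 2 := by ring
    rw [e]
    exact add_le' le_rfl (by rw [norm_two]; exact h1)
  rw [e, norm_mul, pow_two]
  exact mul_le_mul_of_nonneg_left h3 (norm_nonneg _)

lemma root_pow {x : E} {k j : ℕ} (h : x ^ (2 ^ k) = 1) (hx : x ^ (2 ^ j) ≠ 1) :
    1 / 2 ≤ ‖x - 1‖ ^ (2 ^ j) := by
  induction j generalizing x with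
  | zero =>
    rw [pow_zero, pow_one] at hx ⊢
    exact root_half h hx
  | succ j ih =>
    have h1 : (x ^ 2) ^ (2 ^ k) = 1 := by rw [← pow_mul, mul_comm, pow_mul, h, one_pow]
    have h2 : (x ^ 2) ^ (2 ^ j) ≠ 1 := by rwa [← pow_mul, ← pow_succ']
    have hx1 : x ≠ 1 := by
      rintro rfl
      exact hx (one_pow _)
    refine (ih h1 h2).trans ?_
    have e : 2 ^ (j + 1) = 2 * 2 ^ j := pow_succ' 2 j
    rw [e, pow_mul]
    exact pow_le_pow_left₀ (norm_nonneg _) (root_sq h hx1) _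

lemma root_gt {x : E} {k j m : ℕ} (h : x ^ (2 ^ k) = 1) (hx : x ^ (2 ^ j) ≠ 1) {a : ℝ} (ha : 1 < a)
    (ham : a ^ m = 2) (hm : m < 2 ^ j) : a⁻¹ < ‖x - 1‖ := by
  by_contra hcon
  push Not at hcon
  have h1 := root_pow h hx
  have h2 : ‖x - 1‖ ^ (2 ^ j) ≤ a⁻¹ ^ (2 ^ j) := pow_le_pow_left₀ (norm_nonneg _) hcon _
  have h3 : a ^ m < a ^ (2 ^ j) := pow_lt_pow_right₀ ha hm
  rw [ham] at h3
  have h4 : a⁻¹ ^ (2 ^ j) < 1 / 2 := by
    rw [inv_pow, one_div]
    exact inv_strictAnti₀ (by norm_num) h3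
  linarith

lemma dec_id {W : Type} [AddCommGroup W] [Module E W] (a : E) (v w : W) :
    a • w - v = (a - 1) • v + a • (w - v) := by
  rw [sub_smul, one_smul, smul_sub]
  abel

end roots

variable {G : Type} [Group G] {H : Subgroup G} {B : Type} [Fintype B] [DecidableEq B]
  {E : Type} [NormedField E] [NormedAlgebra ℚ_[2] E] [Fintype (G ⧸ H)] [TopologicalSpace G]
  [IsTopologicalGroup G] [CompactSpace G]

/-- **The vanishing theorem for induced modules.** -/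
theorem ind_main {ρ : G → Matrix B B ℤ_[2]} (h1 : ρ 1 = 1)
    (hρ : ∀ a ∈ H, ∀ b ∈ H, ρ (a * b) = ρ a * ρ b) (h2 : TwoGrp H ρ) (χ : G →* Eˣ)
    (hχ : ∀ σ, ∃ k : ℕ, χ σ ^ (2 ^ k) = 1) {c : G → B → E}
    (hc : ∀ a ∈ H, ∀ b ∈ H, c (a * b) = c a + (χ a : E) • mv (ρ a) (c b))
    (hcts : Cts H ρ χ c) (D : Subgroup G) (Is : Set (Subgroup G))
    (hP : Rigid (D : Set G) {I | ∃ J ∈ Is, I = (J : Set G)})
    (hD : ∀ g : G, ∃ y : B → E, ∀ a ∈ H, g⁻¹ * a * g ∈ D → c a = (χ a : E) • mv (ρ a) y - y)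
    (hI : ∀ I ∈ Is, (∀ g : G, ∃ y : B → E, ∀ a ∈ H, g⁻¹ * a * g ∈ I →
      c a = (χ a : E) • mv (ρ a) y - y) ∧ (∀ σ ∈ I, χ σ = 1) ∧
      ((∀ g, ∀ σ ∈ I, g * σ * g⁻¹ ∈ H ∧ ρ (g * σ * g⁻¹) = 1) ∨
      ∃ (φ : G) (j : ℕ), (∀ σ ∈ I, φ * σ * φ⁻¹ ∈ I) ∧
        Fintype.card B * Fintype.card (G ⧸ H) < 2 ^ j ∧ χ φ ^ (2 ^ j) ≠ 1)) :
    ∃ v : B → E, ∀ a ∈ H, c a = (χ a : E) • mv (ρ a) v - v := by
  apply glob_ind h1 hρ χ hc
  by_cases hB : IsEmpty B
  · refine ⟨0, fun σ => ?_⟩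
    apply Subtype.ext
    funext g b
    exact (hB.false b).elim
  have hBne : Nonempty B := not_isEmpty_iff.1 hB
  have hGne : Nonempty (G ⧸ H) := ⟨QuotientGroup.mk 1⟩
  set m := Fintype.card B * Fintype.card (G ⧸ H) with hm
  have hm0 : 0 < m := Nat.mul_pos Fintype.card_pos Fintype.card_pos
  obtain ⟨a, ha, ham⟩ : ∃ a : ℝ, 1 < a ∧ a ^ m = 2 := by
    refine ⟨2 ^ ((m : ℝ)⁻¹), ?_, ?_⟩
    · exact Real.one_lt_rpow (by norm_num) (by positivity)
    · rw [← Real.rpow_natCast, ← Real.rpow_mul (by norm_num), inv_mul_cancel₀ (by positivity),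
        Real.rpow_one]
  have ha0 : (0 : ℝ) < a := by linarith
  have hs : UNorm E (sn : WI H (AE E ρ) → ℝ) := sn_norm
  have hT := sn_TI (E := E) h1 hρ
  have hnil : ∀ l : List G, l.length = m → ∀ v : WI H (AE E ρ), sn (Al (TI (AE E ρ)) l v) ≤
      1 / 2 * sn v := fun l hl v => sn_nil h1 hρ h2 (by rw [hl]) v
  have hn := nw_norm hs hT hm0 hnil ha ham
  have hcon := nw_con hs hT hm0 hnil ha ham
  have hle := nw_le hs hT hm0 hnil ha ham
  set n : WI H (AE E ρ) → ℝ := nw sn (TI (AE E ρ)) a with hndef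
  have hχ' : ∀ σ, ∃ k : ℕ, (χ σ : E) ^ (2 ^ k) = 1 := by
    intro σ
    obtain ⟨k, hk⟩ := hχ σ
    refine ⟨k, ?_⟩
    rw [← Units.val_pow_eq_pow_val, hk, Units.val_one]
  have hχn : ∀ σ, ‖(χ σ : E)‖ = 1 := by
    intro σ
    obtain ⟨k, hk⟩ := hχ' σ
    exact root_norm hk
  have hχ1 : ∀ σ, ‖(χ σ : E) - 1‖ < 1 := by
    intro σ
    obtain ⟨k, hk⟩ := hχ' σ
    exact root_lt hk
  have ha1 : a⁻¹ < 1 := inv_lt_one_of_one_lt₀ ha
  have hdec : ∀ σ (v : WI H (AE E ρ)), RR ρ χ σ v - v = ((χ σ : E) - 1) • v + (χ σ : E) • (TI (AE E ρ) σ v - v) := by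
    intro σ v
    rw [RR_def]
    exact dec_id _ _ _
  have hbig : ∀ φ, a⁻¹ < ‖(χ φ : E) - 1‖ → ∀ v : WI H (AE E ρ), n (RR ρ χ φ v - v) = ‖(χ φ : E) - 1‖ * n v := by
    intro φ hφ v
    by_cases hv : v = 0
    · rw [hv, map_zero, sub_zero, hn.zero, mul_zero]
    · rw [hdec, hn.add_eq, hn.smul]
      rw [hn.smul, hn.smul, hχn, one_mul]
      exact (hcon φ v).trans_lt (mul_lt_mul_of_pos_right hφ (hn.pos v hv))
  have hfd : FiniteDimensional E (WI H (AE E ρ)) :=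
    Module.Finite.of_injective (evs (AE E ρ)) (evs_inj (AE E ρ))
  refine abs_main (n := n) hn (by rw [norm_two]; norm_num) ?_ (Cc_mul χ hc) ?_ ?_ hP
    (loc_ind h1 hρ χ hc D hD) ?_
  · intro σ v hv
    rw [hdec]
    refine hn.add_lt ?_ ?_
    · rw [hn.smul]
      have := hn.pos v hv
      have := hχ1 σ
      nlinarith
    · rw [hn.smul, hχn, one_mul]
      have h3 := hcon σ v
      have := hn.pos v hv
      nlinarith
  · intro σ ε hε
    filter_upwards [Cc_cont χ hc hχn hcts σ (half_pos hε)] with τ hτ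
    have := hle (Cc χ hc τ - Cc χ hc σ)
    linarith
  · intro v σ ε hε
    filter_upwards [RR_cont χ hχn hcts v σ (half_pos hε)] with τ hτ
    have := hle (RR ρ χ τ v - RR ρ χ σ v)
    linarith
  · rintro _ ⟨I, hI', rfl⟩
    obtain ⟨h3, h4, h5⟩ := hI I hI'
    refine ⟨loc_ind h1 hρ χ hc I h3, ?_⟩
    rcases h5 with h5 | ⟨φ, j, hnor, hj, hφ⟩
    · left
      intro σ hσ v
      apply Subtype.ext
      funext g
      rw [RR_apply, h4 σ hσ, Units.val_one, one_smul]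
      obtain ⟨h6, h7⟩ := h5 g σ hσ
      have e : g * σ = (g * σ * g⁻¹) * g := by group
      rw [e, v.2 _ h6, AE_mv, h7, mv_one]
    · right
      obtain ⟨k, hk⟩ := hχ' φ
      have hφ' : (χ φ : E) ^ (2 ^ j) ≠ 1 := by
        intro h6
        apply hφ
        apply Units.ext
        rw [Units.val_pow_eq_pow_val, h6, Units.val_one]
      have hgt := root_gt hk hφ' ha ham hj
      refine ⟨φ, hnor, fun v hv => ?_, fun σ hσ v hv => ?_⟩
      · by_contra h0
        have h6 := hbig φ hgt v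
        rw [hv, sub_self, hn.zero] at h6
        have := hn.pos v h0
        have h7 : 0 < ‖(χ φ : E) - 1‖ := lt_trans (by positivity) hgt
        nlinarith [mul_pos h7 this]
      · rw [hbig φ hgt, RR_def, h4 σ hσ, Units.val_one, one_smul]
        exact (hcon σ v).trans_lt (mul_lt_mul_of_pos_right hgt (hn.pos v hv))

end Pool.Agent.NH6
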