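import Pool.Agent.NH6.Cyc
import Pool.Agent.NH6.Rou

/-!
# Subgroups of the Galois group
-/

set_option autoImplicit false
set_option linter.unusedSectionVars false

namespace Pool.Agent.NH6

open Filter Topology
open Pool.Agent.Y715.Nr Pool.Agent.Y715.Red Pool.Agent.W237.RK
open Pool.Agent.Y715.Gi (QB KK GK i₀_mem gk_fix)
open Pool.Agent.Y715.Df (Cmp exists_cmp)

section ext

variable {G : Type} [Group G] {H : Subgroup G}

open Classical in
/-- extension of a function on the subgroup -/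
noncomputable def ex {X : Type} (x₀ : X) (f : H → X) (g : G) : X :=
  if h : g ∈ H then f ⟨g, h⟩ else x₀

lemma ex_of {X : Type} (x₀ : X) (f : H → X) {g : G} (h : g ∈ H) : ex x₀ f g = f ⟨g, h⟩ :=
  dif_pos h

lemma ex_coe {X : Type} (x₀ : X) (f : H → X) (h : H) : ex x₀ f h = f h := ex_of x₀ f h.2

end ext

section two

variable {B : Type} [Fintype B] [DecidableEq B]

/-- a uniform exponent -/
lemma unif_exp : ∃ K : ℕ, ∀ M : Matrix B B (ZMod 2), (∃ k : ℕ, M ^ (2 ^ k) = 1) →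
    M ^ (2 ^ K) = 1 := by
  classical
  let f : Matrix B B (ZMod 2) → ℕ := fun M => if h : ∃ k : ℕ, M ^ (2 ^ k) = 1 then h.choose else 0
  refine ⟨Finset.univ.sup f, fun M h => ?_⟩
  have h1 : M ^ (2 ^ f M) = 1 := by
    show M ^ (2 ^ (if h : ∃ k : ℕ, M ^ (2 ^ k) = 1 then h.choose else 0)) = 1
    rw [dif_pos h]
    exact h.choose_spec
  have h2 : f M ≤ Finset.univ.sup f := Finset.le_sup (f := f) (Finset.mem_univ M)
  obtain ⟨d, hd⟩ := Nat.exists_eq_add_of_le h2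
  rw [hd, pow_add, pow_mul, h1, one_pow]

lemma mod_two {A : Matrix B B ℤ_[2]} {k : ℕ}
    (h : ∀ i j, (2 : ℤ_[2]) ∣ (A ^ (2 ^ k)) i j - (1 : Matrix B B ℤ_[2]) i j) :
    (A.map (PadicInt.toZMod (p := 2))) ^ (2 ^ k) = 1 := by
  have e : (A.map (PadicInt.toZMod (p := 2))) ^ (2 ^ k) = (A ^ (2 ^ k)).map (PadicInt.toZMod (p := 2)) := by
    have := map_pow (RingHom.mapMatrix (m := B) (PadicInt.toZMod (p := 2))) A (2 ^ k)
    exact this.symm
  have e1 : (1 : Matrix B B (ZMod 2)) = (1 : Matrix B B ℤ_[2]).map (PadicInt.toZMod (p := 2)) := by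
    rw [Matrix.map_one _ (map_zero _) (map_one _)]
  rw [e, e1]
  ext i j
  rw [Matrix.map_apply, Matrix.map_apply, ← sub_eq_zero, ← map_sub]
  obtain ⟨z, hz⟩ := h i j
  rw [hz, map_mul, map_ofNat]
  have : (2 : ZMod 2) = 0 := by decide
  rw [this, zero_mul]

variable {E : Type} [NormedField E] [NormedAlgebra ℚ_[2] E]

lemma mv_small {A : Matrix B B ℤ_[2]} {ε : ℝ} (hε : 0 ≤ ε)
    (h : ∀ i j, ‖A i j - (1 : Matrix B B ℤ_[2]) i j‖ ≤ ε) (v : B → E) :
    ‖mv A v - v‖ ≤ ε * ‖v‖ := by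
  have hu : IsUltrametricDist E := ultra
  have h1 : mv A v - v = mv (A - 1) v := by
    have e : mv (1 : Matrix B B ℤ_[2]) v = v := mv_one v
    funext b
    rw [Pi.sub_apply]
    nth_rw 2 [← e]
    rw [mv_apply, mv_apply, mv_apply, ← Finset.sum_sub_distrib]
    refine Finset.sum_congr rfl fun b' _ => ?_
    rw [Matrix.sub_apply, map_sub, sub_mul]
  rw [h1, pi_norm_le_iff_of_nonneg (by positivity)]
  intro b
  rw [mv_apply]
  refine IsUltrametricDist.norm_sum_le_of_forall_le_of_nonneg (by positivity) fun b' _ => ?_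
  rw [norm_mul, norm_em]
  exact mul_le_mul (h b b') (norm_le_pi_norm v b') (norm_nonneg _) hε

end two

variable {s : QB}

/-- conjugate embeddings -/
noncomputable def cj {p : ℕ} [Fact p.Prime] (ι : QB →ₐ[ℚ] PadicAlgCl p) (g : GK s) :
    QB →ₐ[ℚ] PadicAlgCl p := ι.comp (g⁻¹.toAlgHom.restrictScalars ℚ)

lemma cj_apply {p : ℕ} [Fact p.Prime] (ι : QB →ₐ[ℚ] PadicAlgCl p) (g : GK s) (x : QB) :
    cj ι g x = ι (g⁻¹ x) := rfl

lemma cj_s {p : ℕ} [Fact p.Prime] (ι : QB →ₐ[ℚ] PadicAlgCl p) (g : GK s) : cj ι g s = ι s := by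
  rw [cj_apply, gk_fix]

lemma cj_cmp {p : ℕ} [Fact p.Prime] {ι : QB →ₐ[ℚ] PadicAlgCl p} {g a : GK s} {τ : Au p}
    (h : Cmp ι τ (g⁻¹ * a * g)) : Cmp (cj ι g) τ a := by
  intro x
  rw [cj_apply, cj_apply, h, AlgEquiv.mul_apply, AlgEquiv.mul_apply, ← AlgEquiv.mul_apply g g⁻¹,
    mul_inv_cancel, AlgEquiv.one_apply]

lemma cj_cmp' {p : ℕ} [Fact p.Prime] {ι : QB →ₐ[ℚ] PadicAlgCl p} {g σ : GK s} {τ : Au p}
    (h : Cmp ι τ σ) : Cmp (cj ι g) τ (g * σ * g⁻¹) := by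
  apply cj_cmp
  have e : g⁻¹ * (g * σ * g⁻¹) * g = σ := by group
  rw [e]
  exact h

/-- powers of automorphisms in Galois extensions whose degree is a power of two -/
lemma pow_mem {F L : IntermediateField (KK s) QB} (hFL : F ≤ L) [IsGalois (KK s) L]
    {n : ℕ} (hn : Module.finrank (KK s) L = 2 ^ n) (σ : GK s) : σ ^ (2 ^ n) ∈ F.fixingSubgroup := by
  have hfd : FiniteDimensional (KK s) L := Module.finite_of_finrank_pos (by rw [hn]; positivity)
  have h1 : (AlgEquiv.restrictNormalHom L σ) ^ (2 ^ n) = 1 := by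
    rw [← hn, ← IsGalois.card_aut_eq_finrank (KK s) L]
    exact pow_card_eq_one'
  rw [IntermediateField.mem_fixingSubgroup_iff]
  intro x hx
  have h2 := AlgEquiv.restrictNormal_commutes (σ ^ (2 ^ n)) L ⟨x, hFL hx⟩
  have h3 : (σ ^ (2 ^ n)).restrictNormal L = 1 := by
    have : AlgEquiv.restrictNormalHom L (σ ^ (2 ^ n)) = 1 := by rw [map_pow, h1]
    exact this
  rw [h3] at h2
  exact h2.symm

lemma eventually_sub {G : Type} [Group G] [TopologicalSpace G] {H : Subgroup G}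
    (hH : IsOpen (H : Set G)) {P : G → Prop} (h : ∀ᶠ x : H in 𝓝 1, P x) : ∀ᶠ x in 𝓝 (1 : G), P x := by
  have h1 : 𝓝 (1 : G) = map (Subtype.val : H → G) (𝓝 (1 : H)) :=
    (hH.isOpenEmbedding_subtypeVal.map_nhds_eq (1 : H)).symm
  rw [h1, eventually_map]
  exact h

end Pool.Agent.NH6
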