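import Pool.Agent.NH6.Fin

/-!
# Subfields of `ℚ̄` that contain `ℚ(√-q)`
-/

set_option autoImplicit false
set_option linter.unusedSectionVars false

namespace Pool.Agent.NH6

open Filter Topology
open Pool.Agent.Y715.Gi (QB KK GK i₀_mem gk_fix)

variable {s : QB}

lemma res_range' : (res s).range = (KK s).fixingSubgroup := by
  rw [res_range]
  ext g
  rw [MulAction.mem_stabilizer_iff, IntermediateField.mem_fixingSubgroup_iff]
  constructor
  · intro hg x hx
    obtain ⟨σ, rfl⟩ := exists_res (s := s) hg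
    exact σ.commutes (⟨x, hx⟩ : KK s)
  · intro h
    exact h s i₀_mem

/-- the preimage of the Galois group of `F` -/
noncomputable def HF (s : QB) (F : IntermediateField ℚ QB) : Subgroup (GK s) :=
  F.fixingSubgroup.comap (res s)

lemma HF_open (F : IntermediateField ℚ QB) [FiniteDimensional ℚ F] :
    IsOpen (HF s F : Set (GK s)) :=
  (IntermediateField.fixingSubgroup_isOpen F).preimage res_cont

lemma HF_idx {F : IntermediateField ℚ QB} [FiniteDimensional ℚ F] (hF : KK s ≤ F) :
    (HF s F).index * (KK s).fixingSubgroup.index = Module.finrank ℚ F := by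
  rw [HF, Subgroup.index_comap, res_range',
    Subgroup.relIndex_mul_index (IntermediateField.fixingSubgroup_antitone hF),
    ← IntermediateField.finrank_eq_fixingSubgroup_index]

lemma KK_idx {q : ℕ} (hq : 0 < q) (hs : s ^ 2 = -(q : QB)) :
    (KK s).fixingSubgroup.index ≠ 1 := by
  intro h
  rw [Subgroup.index_eq_one] at h
  obtain ⟨c, hc⟩ := exists_conj (s := s) hs hq
  have h1 : c ∈ (KK s).fixingSubgroup := by rw [h]; trivial
  rw [IntermediateField.mem_fixingSubgroup_iff] at h1
  have h2 := h1 s i₀_mem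
  rw [hc] at h2
  have h3 : s = 0 := by
    have : (2 : QB) * s = 0 := by linear_combination -h2
    rcases mul_eq_zero.1 this with h4 | h4
    · norm_num at h4
    · exact h4
  rw [h3] at hs
  have : (q : QB) = 0 := by linear_combination hs
  rw [Nat.cast_eq_zero] at this
  omega

lemma HF_fin {F : IntermediateField ℚ QB} [FiniteDimensional ℚ F] (hF : KK s ≤ F) :
    (HF s F).FiniteIndex := by
  refine ⟨fun h => ?_⟩
  have h1 := HF_idx hF
  rw [h, zero_mul] at h1
  have : 0 < Module.finrank ℚ F := Module.finrank_pos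
  omega

lemma HF_le {q : ℕ} (hq : 0 < q) (hs : s ^ 2 = -(q : QB)) {F : IntermediateField ℚ QB}
    [FiniteDimensional ℚ F] (hF : KK s ≤ F) : 2 * (HF s F).index ≤ Module.finrank ℚ F := by
  have h1 := HF_idx hF
  have h2 := KK_idx hq hs
  have h3 : (KK s).fixingSubgroup.index ≠ 0 := by
    intro h
    rw [h, mul_zero] at h1
    have : 0 < Module.finrank ℚ F := Module.finrank_pos
    omega
  rw [← h1, mul_comm]
  exact Nat.mul_le_mul_left _ (by omega)

lemma HF_pow {F L : IntermediateField ℚ QB} [FiniteDimensional ℚ L] (hF : KK s ≤ F) (hFL : F ≤ L)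
    (hL : ∀ σ ∈ (KK s).fixingSubgroup, ∀ x ∈ L, σ x ∈ L) {n : ℕ}
    (hn : Module.finrank ℚ L = 2 ^ n) (σ : GK s) : σ ^ (2 ^ n) ∈ HF s F := by
  have hnor : (HF s L).Normal := by
    refine ⟨fun t ht g => ?_⟩
    rw [HF, Subgroup.mem_comap, IntermediateField.mem_fixingSubgroup_iff] at ht ⊢
    intro x hx
    have hg : ∀ g : GK s, res s g ∈ (KK s).fixingSubgroup := fun g => by
      rw [← res_range']
      exact ⟨g, rfl⟩
    have h1 := hL _ (hg g⁻¹) x hx
    rw [map_mul, map_mul, AlgEquiv.mul_apply, AlgEquiv.mul_apply, ht _ h1,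
      ← AlgEquiv.mul_apply, ← map_mul, mul_inv_cancel, map_one, AlgEquiv.one_apply]
  have h1 := Subgroup.pow_index_mem (HF s L) σ
  have h2 : (HF s L).index ∣ 2 ^ n := ⟨_, by rw [HF_idx (hF.trans hFL), hn]⟩
  obtain ⟨d, hd⟩ := h2
  have h3 : σ ^ (2 ^ n) ∈ HF s L := by
    rw [hd, pow_mul]
    exact (HF s L).pow_mem h1 d
  exact Subgroup.comap_mono (IntermediateField.fixingSubgroup_antitone hFL) h3

end Pool.Agent.NH6
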