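import Pool.Agent.NH6.Nil

/-!
# Induced modules
-/

set_option autoImplicit false
set_option linter.unusedSectionVars false

namespace Pool.Agent.NH6

open Filter Topology

section coeff

variable {E : Type} [NormedField E] [NormedAlgebra ℚ_[2] E]

variable (E) in
/-- `ℤ_2` in `E` -/
noncomputable def em : ℤ_[2] →+* E := (algebraMap ℚ_[2] E).comp PadicInt.Coe.ringHom

lemma em_apply (x : ℤ_[2]) : em E x = algebraMap ℚ_[2] E (x : ℚ_[2]) := rfl

lemma norm_em (x : ℤ_[2]) : ‖em E x‖ = ‖x‖ := by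
  rw [em_apply, norm_algebraMap', PadicInt.norm_def]

lemma norm_em_le (x : ℤ_[2]) : ‖em E x‖ ≤ 1 := by
  rw [norm_em]
  exact PadicInt.norm_le_one x

lemma norm_two : ‖(2 : E)‖ = 1 / 2 := by
  have h : (2 : E) = em E 2 := by rw [map_ofNat]
  rw [h, norm_em]
  have h2 : (2 : ℤ_[2]) = ((2 : ℕ) : ℤ_[2]) := by norm_num
  rw [h2, PadicInt.norm_p]
  norm_num

lemma ultra : IsUltrametricDist E := IsUltrametricDist.of_normedAlgebra ℚ_[2]

variable {B : Type} [Fintype B] [DecidableEq B]

/-- the action of a matrix -/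
noncomputable def mv (A : Matrix B B ℤ_[2]) : (B → E) →ₗ[E] (B → E) :=
  Matrix.mulVecLin (A.map (em E))

lemma mv_apply (A : Matrix B B ℤ_[2]) (v : B → E) (b : B) :
    mv A v b = ∑ b', em E (A b b') * v b' := rfl

lemma mv_one (v : B → E) : mv (1 : Matrix B B ℤ_[2]) v = v := by
  unfold mv
  rw [Matrix.map_one _ (map_zero _) (map_one _), Matrix.mulVecLin_one]
  rfl

lemma mv_mul (A A' : Matrix B B ℤ_[2]) (v : B → E) : mv (A * A') v = mv A (mv A' v) := by
  unfold mv
  rw [Matrix.map_mul, Matrix.mulVecLin_mul]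
  rfl

lemma mv_le (A : Matrix B B ℤ_[2]) (v : B → E) : ‖mv A v‖ ≤ ‖v‖ := by
  have hu : IsUltrametricDist E := ultra
  rw [pi_norm_le_iff_of_nonneg (norm_nonneg v)]
  intro b
  rw [mv_apply]
  refine IsUltrametricDist.norm_sum_le_of_forall_le_of_nonneg (norm_nonneg v) fun b' _ => ?_
  rw [norm_mul]
  calc ‖em E (A b b')‖ * ‖v b'‖ ≤ 1 * ‖v‖ :=
        mul_le_mul (norm_em_le _) (norm_le_pi_norm v b') (norm_nonneg _) zero_le_one
    _ = ‖v‖ := one_mul _

lemma mv_eq {A A' : Matrix B B ℤ_[2]} (h : A' * A = 1) (v : B → E) : ‖mv A v‖ = ‖v‖ := by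
  refine le_antisymm (mv_le A v) ?_
  have h1 : v = mv A' (mv A v) := by rw [← mv_mul, h, mv_one]
  nth_rw 1 [h1]
  exact mv_le _ _

lemma pi_add (v w : B → E) : ‖v + w‖ ≤ max ‖v‖ ‖w‖ := by
  have hu : IsUltrametricDist E := ultra
  rw [pi_norm_le_iff_of_nonneg (le_max_of_le_left (norm_nonneg v))]
  intro b
  rw [Pi.add_apply]
  exact (IsUltrametricDist.norm_add_le_max _ _).trans
    (max_le_max (norm_le_pi_norm v b) (norm_le_pi_norm w b))

end coeff

variable {G : Type} [Group G] (H : Subgroup G) {B : Type} [Fintype B] [DecidableEq B]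

/-- the representative of a right coset -/
noncomputable def sx (x : G ⧸ H) : G := (Quotient.out x)⁻¹

/-- the representative of the right coset of `g` -/
noncomputable def rp (g : G) : G := sx H (QuotientGroup.mk g⁻¹)

lemma rp_mem (g : G) : g * (rp H g)⁻¹ ∈ H := by
  unfold rp sx
  rw [inv_inv]
  have h : (QuotientGroup.mk g⁻¹ : G ⧸ H) =
      QuotientGroup.mk (Quotient.out (QuotientGroup.mk g⁻¹ : G ⧸ H)) :=
    (QuotientGroup.out_eq' _).symm
  have := QuotientGroup.eq.1 h
  rwa [inv_inv] at this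

lemma mk_mul {h : G} (hh : h ∈ H) (g : G) :
    (QuotientGroup.mk (h * g)⁻¹ : G ⧸ H) = QuotientGroup.mk g⁻¹ := by
  rw [QuotientGroup.eq]
  group
  exact hh

lemma rp_mul {h : G} (hh : h ∈ H) (g : G) : rp H (h * g) = rp H g := by
  unfold rp
  rw [mk_mul H hh]

lemma mk_sx (x : G ⧸ H) : (QuotientGroup.mk (sx H x)⁻¹ : G ⧸ H) = x := by
  unfold sx
  rw [inv_inv]
  exact QuotientGroup.out_eq' x

variable {H}

section space

variable {S : Type} [CommRing S]

/-- the operators `σ - 1` on functions -/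
def PL {G S : Type} [Group G] {B : Type} [CommRing S] : List G → (G → B → S) → (G → B → S)
  | [], F => F
  | σ :: l, F => PL l (fun g b => F (g * σ) b - F g b)

lemma PL_map {S' : Type} [CommRing S'] (φ : S →+* S') (l : List G) (F : G → B → S) (g : G) (b : B) :
    PL l (fun g b => φ (F g b)) g b = φ (PL l F g b) := by
  induction l generalizing F with
  | nil => rfl
  | cons σ l ih =>
    show PL l (fun g b => φ (F (g * σ) b) - φ (F g b)) g b = φ (PL l _ g b)
    rw [← ih]
    congr 1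
    funext g b
    rw [map_sub]

variable (H) in
/-- the induced module for the matrices `A` -/
def WI (A : G → Matrix B B S) : Submodule S (G → B → S) where
  carrier := {f | ∀ h ∈ H, ∀ g, f (h * g) = (A h).mulVec (f g)}
  zero_mem' := fun h _ g => by rw [Pi.zero_apply, Pi.zero_apply, Matrix.mulVec_zero]
  add_mem' := fun {a b} ha hb h hh g => by
    rw [Pi.add_apply, Pi.add_apply, ha h hh, hb h hh, Matrix.mulVec_add]
  smul_mem' := fun x a ha h hh g => by
    rw [Pi.smul_apply, Pi.smul_apply, ha h hh, Matrix.mulVec_smul]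

/-- the action of the group -/
def TI (A : G → Matrix B B S) : Representation S G (WI H A) where
  toFun σ :=
    { toFun := fun f => ⟨fun g => f.1 (g * σ), fun h hh g => by
        show f.1 (h * g * σ) = (A h).mulVec (f.1 (g * σ))
        rw [mul_assoc]
        exact f.2 h hh _⟩
      map_add' := fun _ _ => rfl
      map_smul' := fun _ _ => rfl }
  map_one' := by
    ext f g b
    show f.1 (g * 1) b = f.1 g b
    rw [mul_one]
  map_mul' σ τ := by
    ext f g b
    show f.1 (g * (σ * τ)) b = f.1 (g * σ * τ) b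
    rw [mul_assoc]

lemma TI_apply (A : G → Matrix B B S) (σ : G) (f : WI H A) (g : G) :
    (TI A σ f).1 g = f.1 (g * σ) := rfl

lemma Al_TI (A : G → Matrix B B S) (l : List G) (f : WI H A) (g : G) (b : B) :
    (Al (TI A) l f).1 g b = PL l f.1 g b := by
  induction l generalizing f with
  | nil => rfl
  | cons σ l ih =>
    rw [Al_cons, ih]
    rfl

variable (A : G → Matrix B B S)

lemma WI_rp (f : WI H A) (g : G) : f.1 g = (A (g * (rp H g)⁻¹)).mulVec (f.1 (rp H g)) := by
  rw [← f.2 _ (rp_mem H g), inv_mul_cancel_right]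

/-- the values at the representatives -/
noncomputable def evs (A : G → Matrix B B S) : WI H A →ₗ[S] (G ⧸ H → B → S) where
  toFun f := fun x => f.1 (sx H x)
  map_add' _ _ := rfl
  map_smul' _ _ := rfl

lemma evs_inj : Function.Injective (evs (H := H) A) := by
  rw [← LinearMap.ker_eq_bot, LinearMap.ker_eq_bot']
  intro f hf
  apply Subtype.ext
  funext g
  have h1 : f.1 (rp H g) = 0 := congrFun hf (QuotientGroup.mk g⁻¹)
  rw [WI_rp, h1, Matrix.mulVec_zero]
  rfl

variable (hA : ∀ a ∈ H, ∀ b ∈ H, A (a * b) = A a * A b)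

open Classical in
/-- the basis of the induced module -/
noncomputable def eb (A : G → Matrix B B S)
    (hA : ∀ a ∈ H, ∀ b ∈ H, A (a * b) = A a * A b) (x : G ⧸ H) (b : B) : WI H A :=
  ⟨fun g => if (QuotientGroup.mk g⁻¹ : G ⧸ H) = x then (A (g * (rp H g)⁻¹)).mulVec (Pi.single b 1)
    else 0, fun h hh g => by
      beta_reduce
      rw [mk_mul H hh, rp_mul H hh, mul_assoc h g, hA h hh _ (rp_mem H g)]
      split_ifs
      · rw [Matrix.mulVec_mulVec]
      · rw [Matrix.mulVec_zero]⟩

lemma eb_sum [Fintype (G ⧸ H)] (f : WI H A) :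
    f = ∑ x : G ⧸ H, ∑ b : B, (f.1 (sx H x) b) • eb A hA x b := by
  classical
  apply Subtype.ext
  funext g
  rw [WI_rp]
  rw [AddSubmonoidClass.coe_finsetSum, Finset.sum_apply]
  rw [Finset.sum_eq_single (QuotientGroup.mk g⁻¹ : G ⧸ H)]
  · rw [AddSubmonoidClass.coe_finsetSum, Finset.sum_apply]
    have e : ∀ b : B, ((f.1 (sx H (QuotientGroup.mk g⁻¹)) b •
        eb A hA (QuotientGroup.mk g⁻¹) b : WI H A)).1 g =
        f.1 (rp H g) b • (A (g * (rp H g)⁻¹)).mulVec (Pi.single b 1) := by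
      intro b
      show f.1 (sx H (QuotientGroup.mk g⁻¹)) b • (if (QuotientGroup.mk g⁻¹ : G ⧸ H) =
        QuotientGroup.mk g⁻¹ then (A (g * (rp H g)⁻¹)).mulVec (Pi.single b 1) else 0) = _
      rw [if_pos rfl]
      rfl
    rw [Finset.sum_congr rfl fun b _ => e b]
    funext b'
    rw [Finset.sum_apply, Matrix.mulVec, dotProduct]
    refine Finset.sum_congr rfl fun b _ => ?_
    rw [Pi.smul_apply, Matrix.mulVec_single_one, smul_eq_mul, mul_comm]
    rfl
  · intro x _ hx
    rw [AddSubmonoidClass.coe_finsetSum, Finset.sum_apply]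
    refine Finset.sum_eq_zero fun b _ => ?_
    show f.1 (sx H x) b • (if (QuotientGroup.mk g⁻¹ : G ⧸ H) = x then
      (A (g * (rp H g)⁻¹)).mulVec (Pi.single b 1) else 0) = 0
    rw [if_neg (Ne.symm hx), smul_zero]
  · intro h
    exact absurd (Finset.mem_univ _) h

end space

end Pool.Agent.NH6
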