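import Pool.Agent.NH6.Ind

/-!
# The norm of the induced module
-/

set_option autoImplicit false
set_option linter.unusedSectionVars false

namespace Pool.Agent.NH6

open Filter Topology

variable {G : Type} [Group G] {H : Subgroup G} {B : Type} [Fintype B] [DecidableEq B]
  {E : Type} [NormedField E] [NormedAlgebra ℚ_[2] E] [Fintype (G ⧸ H)]

lemma sum_le {W ι : Type} [AddCommGroup W] [Module E W] {n : W → ℝ} (h : UNorm E n)
    (s : Finset ι) (f : ι → W) {r : ℝ} (hr : 0 ≤ r) (hf : ∀ i ∈ s, n (f i) ≤ r) :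
    n (∑ i ∈ s, f i) ≤ r := by
  classical
  induction s using Finset.induction_on with
  | empty => rw [Finset.sum_empty, h.zero]; exact hr
  | insert i s hi ih =>
    rw [Finset.sum_insert hi]
    exact (h.add _ _).trans (max_le (hf i (Finset.mem_insert_self i s))
      (ih fun j hj => hf j (Finset.mem_insert_of_mem hj)))

section

variable {S S' : Type} [CommRing S] [CommRing S'] (φ : S →+* S') {A : G → Matrix B B S}
  (hA : ∀ a ∈ H, ∀ b ∈ H, A (a * b) = A a * A b)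

include hA in
lemma hA_map : ∀ a ∈ H, ∀ b ∈ H, (A (a * b)).map φ = (A a).map φ * (A b).map φ := by
  intro a ha b hb
  rw [hA a ha b hb, Matrix.map_mul]

lemma eb_map (x : G ⧸ H) (b : B) (g : G) (b' : B) :
    (eb (fun g => (A g).map φ) (hA_map φ hA) x b).1 g b' = φ ((eb A hA x b).1 g b') := by
  classical
  show (if (QuotientGroup.mk g⁻¹ : G ⧸ H) = x then ((A (g * (rp H g)⁻¹)).map φ).mulVec
    (Pi.single b 1) else 0) b' = φ ((if (QuotientGroup.mk g⁻¹ : G ⧸ H) = x then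
      (A (g * (rp H g)⁻¹)).mulVec (Pi.single b 1) else 0) b')
  split_ifs
  · rw [Matrix.mulVec_single_one, Matrix.mulVec_single_one]
    rfl
  · rw [Pi.zero_apply, Pi.zero_apply, map_zero]

end

/-- the operators `σ - 1` as linear maps -/
def AlL {W : Type} [AddCommGroup W] [Module E W] (T : Representation E G W) (l : List G) :
    W →ₗ[E] W where
  toFun := Al T l
  map_add' := Al_add T l
  map_smul' := Al_smul T l

variable {ρ : G → Matrix B B ℤ_[2]} (h1 : ρ 1 = 1)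
  (hρ : ∀ a ∈ H, ∀ b ∈ H, ρ (a * b) = ρ a * ρ b)

variable (E) in
/-- the matrices over `E` -/
noncomputable def AE (ρ : G → Matrix B B ℤ_[2]) (g : G) : Matrix B B E := (ρ g).map (em E)

/-- the matrices modulo two -/
noncomputable def AF (ρ : G → Matrix B B ℤ_[2]) (g : G) : Matrix B B (ZMod 2) :=
  (ρ g).map (PadicInt.toZMod (p := 2))

lemma AE_mv (g : G) (v : B → E) : (AE E ρ g).mulVec v = mv (ρ g) v := rfl

include h1 hρ in
lemma inv_mul_rho {h : G} (hh : h ∈ H) : ρ h⁻¹ * ρ h = 1 := by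
  rw [← hρ _ (H.inv_mem hh) _ hh, inv_mul_cancel, h1]

include h1 hρ in
lemma mv_iso {h : G} (hh : h ∈ H) (v : B → E) : ‖mv (ρ h) v‖ = ‖v‖ :=
  mv_eq (inv_mul_rho h1 hρ hh) v

/-- the supremum norm -/
noncomputable def sn (f : WI H (AE E ρ)) : ℝ := ‖evs (AE E ρ) f‖

lemma sn_def (f : WI H (AE E ρ)) : sn f = ‖fun x : G ⧸ H => f.1 (sx H x)‖ := rfl

include h1 hρ in
lemma le_sn (f : WI H (AE E ρ)) (g : G) : ‖f.1 g‖ ≤ sn f := by
  rw [WI_rp, AE_mv, mv_iso h1 hρ (rp_mem H g)]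
  exact norm_le_pi_norm (fun x : G ⧸ H => f.1 (sx H x)) _

lemma sn_le {f : WI H (AE E ρ)} {r : ℝ} (hr : 0 ≤ r) (h : ∀ x : G ⧸ H, ‖f.1 (sx H x)‖ ≤ r) :
    sn f ≤ r := by
  rw [sn_def, pi_norm_le_iff_of_nonneg hr]
  exact h

lemma sn_lt {f : WI H (AE E ρ)} {r : ℝ} (hr : 0 < r) (h : ∀ x : G ⧸ H, ‖f.1 (sx H x)‖ < r) :
    sn f < r := by
  rw [sn_def, pi_norm_lt_iff hr]
  exact h

lemma sn_norm : UNorm E (sn : WI H (AE E ρ) → ℝ) where
  add v w := by
    refine sn_le (le_max_of_le_left (norm_nonneg _)) fun x => ?_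
    refine (pi_add (v.1 (sx H x)) (w.1 (sx H x))).trans (max_le_max ?_ ?_)
    · exact norm_le_pi_norm (fun x : G ⧸ H => v.1 (sx H x)) x
    · exact norm_le_pi_norm (fun x : G ⧸ H => w.1 (sx H x)) x
  smul a v := by
    unfold sn
    rw [map_smul, norm_smul]
  pos v hv := by
    unfold sn
    rw [norm_pos_iff]
    intro h
    apply hv
    apply evs_inj
    rw [h, map_zero]

include h1 hρ in
lemma sn_TI (σ : G) (f : WI H (AE E ρ)) : sn (TI (AE E ρ) σ f) = sn f := by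
  have key : ∀ (σ : G) (f : WI H (AE E ρ)), sn (TI (AE E ρ) σ f) ≤ sn f := by
    intro σ f
    refine sn_le (norm_nonneg _) fun x => ?_
    rw [TI_apply]
    exact le_sn h1 hρ f _
  refine le_antisymm (key σ f) ?_
  have h := key σ⁻¹ (TI (AE E ρ) σ f)
  rwa [← Module.End.mul_apply, ← map_mul, inv_mul_cancel, map_one, Module.End.one_apply] at h

/-- the group acts through a `2`-group modulo two -/
structure TwoGrp (H : Subgroup G) (ρ : G → Matrix B B ℤ_[2]) : Prop where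
  grp : ∃ m : ℕ, ∀ σ : G, σ ^ (2 ^ m) ∈ H
  mat : ∃ k : ℕ, ∀ h ∈ H, (AF ρ h) ^ (2 ^ k) = 1

include h1 hρ in
lemma AF_pow {h : G} (hh : h ∈ H) (n : ℕ) : AF ρ (h ^ n) = AF ρ h ^ n := by
  induction n with
  | zero =>
    rw [pow_zero, pow_zero]
    unfold AF
    rw [h1, Matrix.map_one _ (map_zero _) (map_one _)]
  | succ n ih =>
    rw [pow_succ, pow_succ, ← ih]
    unfold AF
    rw [hρ _ (H.pow_mem hh n) _ hh, Matrix.map_mul]

include h1 hρ in
lemma TI_two (h2 : TwoGrp H ρ) (σ : G) : ∃ k : ℕ, ∀ v : WI H (AF ρ),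
    TI (AF ρ) (σ ^ (2 ^ k)) v = v := by
  obtain ⟨m, hm⟩ := h2.grp
  obtain ⟨k, hk⟩ := h2.mat
  refine ⟨m + k, fun v => ?_⟩
  apply Subtype.ext
  funext g
  rw [TI_apply]
  have hh : g * σ ^ (2 ^ m) * g⁻¹ ∈ H := by
    have := hm (g * σ * g⁻¹)
    rwa [conj_pow] at this
  have e : g * σ ^ (2 ^ (m + k)) = (g * σ ^ (2 ^ m) * g⁻¹) ^ (2 ^ k) * g := by
    rw [conj_pow, ← pow_mul, ← pow_add]
    group
  rw [e, v.2 _ (H.pow_mem hh _), AF_pow h1 hρ hh, hk _ hh, Matrix.one_mulVec]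

include h1 hρ in
/-- the operators `σ - 1` are nilpotent modulo two -/
theorem sn_nil (h2 : TwoGrp H ρ) {l : List G}
    (hl : Fintype.card B * Fintype.card (G ⧸ H) ≤ l.length) (f : WI H (AE E ρ)) :
    sn (Al (TI (AE E ρ)) l f) ≤ 1 / 2 * sn f := by
  have hF : ∀ v : WI H (AF ρ), Al (TI (AF ρ)) l v = 0 := by
    have hfin : Module.Finite (ZMod 2) (WI H (AF ρ)) :=
      Module.Finite.of_injective (evs (AF ρ)) (evs_inj (AF ρ))
    apply Al_zero _ (TI_two h1 hρ h2)
    have h3 := LinearMap.finrank_le_finrank_of_injective (evs_inj (H := H) (AF ρ))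
    rw [Module.finrank_pi_fintype, Finset.sum_const, Module.finrank_pi] at h3
    refine h3.trans ?_
    rw [Finset.card_univ, smul_eq_mul, mul_comm]
    exact hl
  have hZ : ∀ (x : G ⧸ H) (b : B) (g : G) (b' : B), ‖PL l (eb ρ hρ x b).1 g b'‖ ≤ 1 / 2 := by
    intro x b g b'
    have h3 : PadicInt.toZMod (p := 2) (PL l (eb ρ hρ x b).1 g b') = 0 := by
      rw [← PL_map]
      have h4 := congrFun (congrFun (congrArg Subtype.val
        (hF (eb (AF ρ) (hA_map PadicInt.toZMod hρ) x b))) g) b'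
      rw [Al_TI] at h4
      have e : (eb (AF ρ) (hA_map PadicInt.toZMod hρ) x b).1 =
          fun g b' => PadicInt.toZMod (p := 2) ((eb ρ hρ x b).1 g b') := by
        funext g b'
        exact eb_map PadicInt.toZMod hρ x b g b'
      rw [e] at h4
      exact h4
    have h4 : PL l (eb ρ hρ x b).1 g b' ∈ RingHom.ker (PadicInt.toZMod (p := 2)) := h3
    rw [PadicInt.ker_toZMod, PadicInt.maximalIdeal_eq_span_p, Ideal.mem_span_singleton] at h4
    obtain ⟨z, hz⟩ := h4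
    rw [hz, norm_mul, PadicInt.norm_p]
    have := PadicInt.norm_le_one z
    push_cast
    linarith
  have hn : UNorm E (sn : WI H (AE E ρ) → ℝ) := sn_norm
  have hE : ∀ (x : G ⧸ H) (b : B), sn (Al (TI (AE E ρ)) l (eb (AE E ρ)
      (hA_map (em E) hρ) x b)) ≤ 1 / 2 := by
    intro x b
    refine sn_le (by norm_num) fun x' => ?_
    rw [pi_norm_le_iff_of_nonneg (by norm_num)]
    intro b'
    rw [Al_TI]
    have e : (eb (AE E ρ) (hA_map (em E) hρ) x b).1 = fun g b' => em E ((eb ρ hρ x b).1 g b') := by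
      funext g b'
      exact eb_map (em E) hρ x b g b'
    rw [e, PL_map, norm_em]
    exact hZ _ _ _ _
  have e := eb_sum (AE E ρ) (hA_map (em E) hρ) f
  have e2 : Al (TI (AE E ρ)) l f = ∑ x : G ⧸ H, ∑ b : B, (f.1 (sx H x) b) •
      Al (TI (AE E ρ)) l (eb (AE E ρ) (hA_map (em E) hρ) x b) := by
    have h3 : AlL (TI (AE E ρ)) l f = _ := congrArg (AlL (TI (AE E ρ)) l) e
    rw [map_sum] at h3
    refine h3.trans (Finset.sum_congr rfl fun x _ => ?_)
    rw [map_sum]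
    refine Finset.sum_congr rfl fun b _ => ?_
    rw [map_smul]
    rfl
  rw [e2]
  have h0 : 0 ≤ 1 / 2 * sn f := mul_nonneg (by norm_num) (norm_nonneg _)
  refine sum_le hn _ _ h0 fun x _ => sum_le hn _ _ h0 fun b _ => ?_
  rw [hn.smul, mul_comm]
  refine mul_le_mul (hE x b) ?_ (norm_nonneg _) (by norm_num)
  exact (norm_le_pi_norm (f.1 (sx H x)) b).trans
    (norm_le_pi_norm (fun x : G ⧸ H => f.1 (sx H x)) x)

end Pool.Agent.NH6
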