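import Pool.Agent.NH6.Abs

/-!
# A norm adapted to the action of a group through a nilpotent quotient
-/

set_option autoImplicit false

namespace Pool.Agent.NH6

variable {G E W : Type} [Group G] [NormedField E] [AddCommGroup W] [Module E W]

/-- the product of the operators `σ - 1` -/
def Al {G R W : Type} [Group G] [CommRing R] [AddCommGroup W] [Module R W]
    (T : Representation R G W) : List G → W → W
  | [], v => v
  | σ :: l, v => Al T l (T σ v - v)

section

variable {R : Type} [CommRing R] {W' : Type} [AddCommGroup W'] [Module R W']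
  (T : Representation R G W')

lemma Al_nil (v : W') : Al T [] v = v := rfl

lemma Al_cons (σ : G) (l : List G) (v : W') : Al T (σ :: l) v = Al T l (T σ v - v) := rfl

lemma Al_add (l : List G) (v w : W') : Al T l (v + w) = Al T l v + Al T l w := by
  induction l generalizing v w with
  | nil => rfl
  | cons σ l ih =>
    rw [Al_cons, Al_cons, Al_cons, ← ih, map_add]
    congr 1
    abel

lemma Al_smul (l : List G) (a : R) (v : W') : Al T l (a • v) = a • Al T l v := by
  induction l generalizing v with
  | nil => rfl
  | cons σ l ih =>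
    rw [Al_cons, Al_cons, ← ih, map_smul, smul_sub]

lemma Al_append (l l' : List G) (v : W') : Al T (l ++ l') v = Al T l' (Al T l v) := by
  induction l generalizing v with
  | nil => rfl
  | cons σ l ih => rw [List.cons_append, Al_cons, Al_cons, ih]

end

variable {s : W → ℝ} {T : Representation E G W}

/-- the new norm -/
noncomputable def nw (s : W → ℝ) (T : Representation E G W) (a : ℝ) (v : W) : ℝ :=
  ⨆ l : List G, a ^ l.length * s (Al T l v)

variable (hs : UNorm E s) (hT : ∀ σ v, s (T σ v) = s v) {k : ℕ} (hk : 0 < k)
  (hnil : ∀ l : List G, l.length = k → ∀ v, s (Al T l v) ≤ 1 / 2 * s v)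
  {a : ℝ} (ha : 1 < a) (hak : a ^ k = 2)

include hs hT in
lemma s_Al (l : List G) (v : W) : s (Al T l v) ≤ s v := by
  induction l generalizing v with
  | nil => exact le_rfl
  | cons σ l ih =>
    rw [Al_cons]
    refine (ih _).trans ?_
    exact hs.sub_le (hT σ v).le le_rfl

include hs hT hk hnil ha hak in
lemma nw_bd (l : List G) (v : W) : a ^ l.length * s (Al T l v) ≤ 2 * s v := by
  obtain ⟨m, hm⟩ : ∃ m, l.length = m := ⟨_, rfl⟩
  induction m using Nat.strong_induction_on generalizing l v with
  | _ m ih =>
    by_cases h : m < k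
    · have h1 : a ^ l.length ≤ a ^ k := pow_le_pow_right₀ ha.le (by omega)
      rw [hak] at h1
      exact mul_le_mul h1 (s_Al hs hT l v) (hs.nonneg _) (by norm_num)
    · have e : l = l.take k ++ l.drop k := (List.take_append_drop k l).symm
      have h1 : (l.take k).length = k := by rw [List.length_take]; omega
      have h2 : (l.drop k).length = m - k := by rw [List.length_drop, hm]
      have h3 := ih (m - k) (by omega) (l.drop k) (Al T (l.take k) v) h2
      rw [e, Al_append, List.length_append, h1, pow_add, hak]
      have h4 := hnil _ h1 v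
      calc 2 * a ^ (l.drop k).length * s (Al T (l.drop k) (Al T (l.take k) v))
          = 2 * (a ^ (l.drop k).length * s (Al T (l.drop k) (Al T (l.take k) v))) := by ring
        _ ≤ 2 * (2 * s (Al T (l.take k) v)) := by linarith
        _ ≤ 2 * (2 * (1 / 2 * s v)) := by linarith
        _ = 2 * s v := by ring

include hs hT hk hnil ha hak in
lemma nw_bdd (v : W) : BddAbove (Set.range fun l : List G => a ^ l.length * s (Al T l v)) := by
  refine ⟨2 * s v, ?_⟩
  rintro _ ⟨l, rfl⟩
  exact nw_bd hs hT hk hnil ha hak l v

include hs hT hk hnil ha hak in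
lemma le_nw (l : List G) (v : W) : a ^ l.length * s (Al T l v) ≤ nw s T a v :=
  le_ciSup (nw_bdd hs hT hk hnil ha hak v) l

include hs hT hk hnil ha hak in
lemma s_le_nw (v : W) : s v ≤ nw s T a v := by
  have := le_nw hs hT hk hnil ha hak [] v
  simpa [Al_nil] using this

include hs hT hk hnil ha hak in
lemma nw_le (v : W) : nw s T a v ≤ 2 * s v := ciSup_le fun l => nw_bd hs hT hk hnil ha hak l v

include hs hT hk hnil ha hak in
/-- it is a norm -/
lemma nw_norm : UNorm E (nw s T a) where
  add v w := by
    refine ciSup_le fun l => ?_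
    rw [Al_add]
    have h1 := hs.add (Al T l v) (Al T l w)
    have h2 : (0 : ℝ) ≤ a ^ l.length := by positivity
    calc a ^ l.length * s (Al T l v + Al T l w)
        ≤ a ^ l.length * max (s (Al T l v)) (s (Al T l w)) := mul_le_mul_of_nonneg_left h1 h2
      _ = max (a ^ l.length * s (Al T l v)) (a ^ l.length * s (Al T l w)) :=
          mul_max_of_nonneg _ _ h2
      _ ≤ _ := max_le_max (le_nw hs hT hk hnil ha hak l v) (le_nw hs hT hk hnil ha hak l w)
  smul x v := by
    unfold nw
    rw [Real.mul_iSup_of_nonneg (norm_nonneg x)]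
    congr 1
    funext l
    rw [Al_smul, hs.smul]
    ring
  pos v hv := (hs.pos v hv).trans_le (s_le_nw hs hT hk hnil ha hak v)

include hs hT hk hnil ha hak in
/-- the operators `σ - 1` are contracting -/
lemma nw_con (σ : G) (v : W) : nw s T a (T σ v - v) ≤ a⁻¹ * nw s T a v := by
  refine ciSup_le fun l => ?_
  have h1 := le_nw hs hT hk hnil ha hak (σ :: l) v
  rw [Al_cons, List.length_cons, pow_succ] at h1
  have ha0 : (0 : ℝ) < a := by linarith
  rw [inv_mul_eq_div, le_div_iff₀ ha0]
  calc a ^ l.length * s (Al T l (T σ v - v)) * a = a ^ l.length * a * s (Al T l (T σ v - v)) := by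
        ring
    _ ≤ _ := h1

end Pool.Agent.NH6
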