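import Pool.Agent.NH6.Lst

/-!
# Groups that act through a `2`-group on a vector space over the field with two elements
-/

set_option autoImplicit false

namespace Pool.Agent.NH6

variable {G M : Type} [Group G] [AddCommGroup M] [Module (ZMod 2) M]
  (T : Representation (ZMod 2) G M)

/-- the iterated invariants -/
def Vf : ℕ → Submodule (ZMod 2) M
  | 0 => ⊥
  | k + 1 =>
    { carrier := {v | ∀ τ, T τ v - v ∈ Vf k}
      zero_mem' := fun τ => by rw [map_zero, sub_zero]; exact zero_mem _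
      add_mem' := fun {a b} ha hb τ => by
        rw [map_add]
        have e : T τ a + T τ b - (a + b) = (T τ a - a) + (T τ b - b) := by abel
        rw [e]
        exact add_mem (ha τ) (hb τ)
      smul_mem' := fun x a ha τ => by
        rw [map_smul, ← smul_sub]
        exact Submodule.smul_mem _ _ (ha τ) }

lemma mem_Vf_succ {k : ℕ} {v : M} : v ∈ Vf T (k + 1) ↔ ∀ τ, T τ v - v ∈ Vf T k := Iff.rfl

lemma Vf_stab (k : ℕ) (σ : G) {v : M} (hv : v ∈ Vf T k) : T σ v ∈ Vf T k := by
  induction k generalizing σ v with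
  | zero =>
    have h0 : v = 0 := hv
    rw [h0, map_zero]
    exact zero_mem _
  | succ k ih =>
    rw [mem_Vf_succ]
    intro τ
    have e : T τ (T σ v) - T σ v = T σ (T (σ⁻¹ * τ * σ) v - v) := by
      rw [map_sub, ← Module.End.mul_apply, ← Module.End.mul_apply, ← map_mul, ← map_mul]
      congr 3
      group
    rw [e]
    exact ih σ (hv _)

lemma Vf_mono_succ (k : ℕ) : Vf T k ≤ Vf T (k + 1) := by
  intro v hv τ
  exact sub_mem (Vf_stab T k τ hv) hv

lemma Vf_mono {k l : ℕ} (h : k ≤ l) : Vf T k ≤ Vf T l :=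
  monotone_nat_of_le_succ (Vf_mono_succ T) h

lemma Al_of_mem (l : List G) {v : M} (hv : v ∈ Vf T l.length) : Al T l v = 0 := by
  induction l generalizing v with
  | nil => exact hv
  | cons σ l ih =>
    rw [Al_cons]
    exact ih (hv σ)

variable [Module.Finite (ZMod 2) M]

/-- new invariants -/
lemma Vf_lt (hT : ∀ σ : G, ∃ k : ℕ, ∀ v, T (σ ^ (2 ^ k)) v = v) {k : ℕ} (h : Vf T k ≠ ⊤) :
    Vf T k < Vf T (k + 1) := by
  refine lt_of_le_of_ne (Vf_mono_succ T k) ?_
  have hst : ∀ σ : G, Vf T k ≤ (Vf T k).comap (T σ) := fun σ v hv => Vf_stab T k σ hv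
  let act : MulAction G (M ⧸ Vf T k) :=
    { smul := fun σ q => (Vf T k).mapQ (Vf T k) (T σ) (hst σ) q
      one_smul := by
        intro q
        obtain ⟨v, rfl⟩ := Submodule.Quotient.mk_surjective _ q
        show (Vf T k).mapQ (Vf T k) (T 1) (hst 1) (Submodule.Quotient.mk v) = _
        rw [Submodule.mapQ_apply, map_one, Module.End.one_apply]
      mul_smul := by
        intro σ τ q
        obtain ⟨v, rfl⟩ := Submodule.Quotient.mk_surjective _ q
        show (Vf T k).mapQ (Vf T k) (T (σ * τ)) (hst _) (Submodule.Quotient.mk v) =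
          (Vf T k).mapQ (Vf T k) (T σ) (hst σ) ((Vf T k).mapQ (Vf T k) (T τ) (hst τ)
            (Submodule.Quotient.mk v))
        rw [Submodule.mapQ_apply, Submodule.mapQ_apply, Submodule.mapQ_apply, map_mul,
          Module.End.mul_apply] }
  have hact : ∀ (σ : G) (v : M), σ • (Submodule.Quotient.mk v : M ⧸ Vf T k) =
      Submodule.Quotient.mk (T σ v) := fun σ v => Submodule.mapQ_apply _ _ _ _
  have hfin : Finite M := Module.finite_of_finite (ZMod 2)
  have hfinQ : Finite (M ⧸ Vf T k) := Finite.of_surjective _ (Submodule.Quotient.mk_surjective _)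
  let P := (MulAction.toPermHom G (M ⧸ Vf T k)).range
  have hP : IsPGroup 2 P := by
    rintro ⟨g, σ, rfl⟩
    obtain ⟨m, hm⟩ := hT σ
    refine ⟨m, Subtype.ext ?_⟩
    show (MulAction.toPermHom G (M ⧸ Vf T k) σ) ^ 2 ^ m = 1
    rw [← map_pow]
    apply Equiv.ext
    intro q
    obtain ⟨v, rfl⟩ := Submodule.Quotient.mk_surjective _ q
    rw [MulAction.toPermHom_apply, MulAction.toPerm_apply, hact, hm]
    rfl
  have hcard : 2 ∣ Nat.card (M ⧸ Vf T k) := by
    have : Module.Finite (ZMod 2) (M ⧸ Vf T k) := inferInstance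
    have hnt : Nontrivial (M ⧸ Vf T k) := Submodule.Quotient.nontrivial_iff.2 h
    have h1 : Nat.card (M ⧸ Vf T k) = 2 ^ Module.finrank (ZMod 2) (M ⧸ Vf T k) := by
      have := Module.natCard_eq_pow_finrank (K := ZMod 2) (V := M ⧸ Vf T k)
      rwa [Nat.card_zmod] at this
    rw [h1]
    exact dvd_pow_self 2 (Module.finrank_pos (R := ZMod 2) (M := M ⧸ Vf T k)).ne'
  have h0 : (0 : M ⧸ Vf T k) ∈ MulAction.fixedPoints P (M ⧸ Vf T k) := by
    rintro ⟨g, σ, rfl⟩
    show σ • (0 : M ⧸ Vf T k) = 0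
    rw [← Submodule.Quotient.mk_zero, hact, map_zero]
  obtain ⟨b, hb, hb0⟩ := hP.exists_fixed_point_of_prime_dvd_card_of_fixed_point _ hcard h0
  obtain ⟨v, rfl⟩ := Submodule.Quotient.mk_surjective _ b
  intro heq
  apply hb0
  rw [eq_comm, Submodule.Quotient.mk_eq_zero, heq]
  intro τ
  rw [← Submodule.Quotient.mk_eq_zero (p := Vf T k), Submodule.Quotient.mk_sub, sub_eq_zero, ← hact]
  exact hb ⟨_, τ, rfl⟩

lemma Vf_rank (hT : ∀ σ : G, ∃ k : ℕ, ∀ v, T (σ ^ (2 ^ k)) v = v) (k : ℕ) :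
    Vf T k = ⊤ ∨ k ≤ Module.finrank (ZMod 2) (Vf T k) := by
  induction k with
  | zero => exact Or.inr (Nat.zero_le _)
  | succ k ih =>
    by_cases h : Vf T k = ⊤
    · left
      exact top_le_iff.1 (h ▸ Vf_mono_succ T k)
    · right
      have h1 := ih.resolve_left h
      have h2 := Submodule.finrank_lt_finrank_of_lt (Vf_lt T hT h)
      omega

/-- **nilpotency** -/
theorem Al_zero (hT : ∀ σ : G, ∃ k : ℕ, ∀ v, T (σ ^ (2 ^ k)) v = v) {l : List G}
    (hl : Module.finrank (ZMod 2) M ≤ l.length) (v : M) : Al T l v = 0 := by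
  apply Al_of_mem
  have h1 : Vf T (Module.finrank (ZMod 2) M) = ⊤ := by
    rcases Vf_rank T hT (Module.finrank (ZMod 2) M) with h | h
    · exact h
    · exact Submodule.eq_top_of_finrank_eq (le_antisymm (Submodule.finrank_le _) h)
  exact Vf_mono T hl (h1 ▸ Submodule.mem_top)

end Pool.Agent.NH6
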