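import Pool.Agent.NH6.PG2

/-!
# The general vanishing theorem
-/

set_option autoImplicit false
set_option linter.unusedSectionVars false

namespace Pool.Agent.NH6.PG

open Filter Topology Pool.Agent.NH6

variable {p : ℕ} [Fact p.Prime]

variable {G : Type} [Group G] [TopologicalSpace G]
  {E : Type} [NormedField E] [NormedAlgebra ℚ_[p] E] {N : ℕ}

/-- rigidity for a coordinate -/
lemma coord_small {R : Representation E G (Fin N → E)} {c : G → Fin N → E} {r : ℝ} (hr : 0 < r)
    {wt : Fin N → ℕ}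
    (hR : ∀ σ v, v ≠ 0 → nwt r wt (R σ v - v) < nwt r wt v)
    (hc : ∀ σ τ, c (σ * τ) = c σ + R σ (c τ))
    (hcont : ∀ σ, ∀ ε > 0, ∀ᶠ τ in 𝓝 σ, nwt r wt (c τ - c σ) < ε)
    {D : Set G} {Is : Set (Set G)} (hP : RigP p D Is) {M : ℝ} (hM : 0 < M)
    (hmax : ∀ σ, nwt r wt (c σ) ≤ M) (i : Fin N) (hD : ∀ σ ∈ D, r ^ wt i * ‖c σ i‖ < M)
    (hI : ∀ I ∈ Is, ∀ σ ∈ I, nwt r wt (c σ) < M) (σ : G) : r ^ wt i * ‖c σ i‖ < M := by
  have hul : IsUltrametricDist E := ultra p E
  have hp : p.Prime := Fact.out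
  have hn : UNorm E (nwt r wt : (Fin N → E) → ℝ) := nwt_norm p hr wt
  have hw : 0 < r ^ wt i := by positivity
  -- the ball
  let A : AddSubgroup E :=
    { carrier := {x | r ^ wt i * ‖x‖ < M}
      zero_mem' := by
        show r ^ wt i * ‖(0 : E)‖ < M
        rw [norm_zero, mul_zero]
        exact hM
      add_mem' := fun {x y} hx hy => by
        show r ^ wt i * ‖x + y‖ < M
        have hx' : r ^ wt i * ‖x‖ < M := hx
        have hy' : r ^ wt i * ‖y‖ < M := hy
        rcases le_max_iff.1 (IsUltrametricDist.norm_add_le_max x y) with h | h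
        · exact (mul_le_mul_of_nonneg_left h hw.le).trans_lt hx'
        · exact (mul_le_mul_of_nonneg_left h hw.le).trans_lt hy'
      neg_mem' := fun {x} hx => by
        show r ^ wt i * ‖-x‖ < M
        rw [norm_neg]
        exact hx }
  have hA : ∀ x, x ∈ A ↔ r ^ wt i * ‖x‖ < M := fun x => Iff.rfl
  have h3 := hP.gen (A := E ⧸ A) (f := fun σ => (QuotientAddGroup.mk (c σ i) : E ⧸ A))
    ?_ ?_ ?_ ?_ ?_ σ
  · rw [QuotientAddGroup.eq_zero_iff] at h3
    exact h3
  · rw [IsLocallyConstant.iff_eventually_eq]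
    intro σ
    filter_upwards [hcont σ _ hM] with τ hτ
    rw [QuotientAddGroup.eq, hA, ← norm_neg]
    have e : -(-c τ i + c σ i) = (c τ - c σ) i := by rw [Pi.sub_apply]; abel
    rw [e]
    exact (le_nwt hr wt _ i).trans_lt hτ
  · intro σ τ
    rw [← QuotientAddGroup.mk_add, QuotientAddGroup.eq, hA, ← norm_neg, hc]
    have e : -(-(c σ + R σ (c τ)) i + (c σ i + c τ i)) = (R σ (c τ) - c τ) i := by
      rw [Pi.add_apply, Pi.sub_apply]
      abel
    rw [e]
    refine (le_nwt hr wt _ i).trans_lt ?_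
    by_cases h0 : c τ = 0
    · rw [h0, map_zero, sub_zero, hn.zero]
      exact hM
    · exact (hR σ _ h0).trans_le (hmax τ)
  · intro σ
    rw [← QuotientAddGroup.mk_nsmul, QuotientAddGroup.eq_zero_iff, hA, nsmul_eq_mul, norm_mul,
      norm_p p E]
    have h4 := (le_nwt hr wt (c σ) i).trans (hmax σ)
    have h5 : (p : ℝ)⁻¹ < 1 := inv_lt_one_of_one_lt₀ (by exact_mod_cast hp.one_lt)
    have h6 : 0 < (p : ℝ)⁻¹ := inv_pos.2 (by exact_mod_cast hp.pos)
    calc r ^ wt i * ((p : ℝ)⁻¹ * ‖c σ i‖) = (p : ℝ)⁻¹ * (r ^ wt i * ‖c σ i‖) := by ring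
      _ ≤ (p : ℝ)⁻¹ * M := mul_le_mul_of_nonneg_left h4 h6.le
      _ < 1 * M := mul_lt_mul_of_pos_right h5 hM
      _ = M := one_mul M
  · intro σ hσ
    rw [QuotientAddGroup.eq_zero_iff]
    exact hD σ hσ
  · intro I hI' σ hσ
    rw [QuotientAddGroup.eq_zero_iff, hA]
    exact (le_nwt hr wt _ i).trans_lt (hI I hI' σ hσ)

variable [CompactSpace G]

/-- **The general vanishing theorem.** -/
theorem u_main (ρ : G →* Matrix (Fin N) (Fin N) ℤ_[p]) (hρc : Continuous ρ) {wt : Fin N → ℕ}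
    {n : ℕ} (hwt : ∀ i, wt i < n) (hfl : ∀ σ, Flg wt (ρ σ)) {K : Type} [DecidableEq K]
    (κ : Fin N → Option K) (D : K → Set G) (C : Set G) (γ : G) (Is : Set (Set G))
    (hst : ∀ k, ∀ σ ∈ D k, ∀ i j, κ i = some k → κ j ≠ some k → ρ σ i j = 0)
    (χ : G →* Eˣ) (hχc : Continuous fun σ => (χ σ : E)) (hχp : ∀ σ, ∃ k : ℕ, χ σ ^ p ^ k = 1)
    (hC : ∀ σ ∈ C, σ * σ = 1 ∧ χ σ = 1 ∧ ∀ v : Fin N → ℤ_[p], (ρ σ).mulVec v = -v →
      ∀ i, κ i = none → (p : ℤ_[p]) ∣ v i)
    (hrig : ∀ i k, κ i = some k → RigP p (D k) Is)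
    (hrign : ∀ i, κ i = none → RigP p (insert γ C) Is ∧ n < (orderOf (χ γ)).totient)
    (hIs : ∀ I ∈ Is, (∀ σ ∈ I, χ σ = 1) ∧ ((∀ σ ∈ I, ρ σ = 1) ∨
      ∃ φ, (∀ σ ∈ I, φ * σ * φ⁻¹ ∈ I) ∧ n < (orderOf (χ φ)).totient))
    (c : G → Fin N → E) (hcc : Continuous c)
    (hcm : ∀ σ τ, c (σ * τ) = c σ + (χ σ : E) • mv (ρ σ) (c τ))
    (hodd : ∀ I ∈ Is, ∃ y : Fin N → E, ∀ σ ∈ I, c σ = (χ σ : E) • mv (ρ σ) y - y)
    (hloc : ∀ k, ∃ y : Fin N → E, ∀ σ ∈ D k, ∀ i, κ i = some k →
      c σ i = ((χ σ : E) • mv (ρ σ) y - y) i) :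
    ∃ y : Fin N → E, ∀ σ, c σ = (χ σ : E) • mv (ρ σ) y - y := by
  have hp : p.Prime := Fact.out
  by_cases hN : N = 0
  · subst hN
    exact ⟨0, fun σ => Subsingleton.elim _ _⟩
  have hn0 : 0 < n := lt_of_le_of_lt (Nat.zero_le _) (hwt ⟨0, Nat.pos_of_ne_zero hN⟩)
  have hpR : (1 : ℝ) < p := by exact_mod_cast hp.one_lt
  obtain ⟨r, hr, hrn⟩ : ∃ r : ℝ, 1 < r ∧ r ^ n = p := by
    refine ⟨(p : ℝ) ^ ((n : ℝ)⁻¹), ?_, ?_⟩
    · exact Real.one_lt_rpow hpR (by positivity)
    · rw [← Real.rpow_natCast, ← Real.rpow_mul (by linarith), inv_mul_cancel₀ (by positivity),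
        Real.rpow_one]
  have hr0 : 0 < r := by linarith
  have hr1 : r⁻¹ < 1 := inv_lt_one_of_one_lt₀ hr
  have hr2 : 0 < r⁻¹ := inv_pos.2 hr0
  -- the representation
  let R : Representation E G (Fin N → E) :=
    { toFun := fun σ => (χ σ : E) • mv (ρ σ)
      map_one' := by
        refine LinearMap.ext fun v => ?_
        rw [map_one, Units.val_one, one_smul, map_one, mv_one]
        rfl
      map_mul' := fun σ τ => by
        refine LinearMap.ext fun v => ?_
        rw [map_mul, map_mul, Units.val_mul]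
        show ((χ σ : E) * (χ τ : E)) • mv (ρ σ * ρ τ) v =
          (χ σ : E) • mv (ρ σ) ((χ τ : E) • mv (ρ τ) v)
        rw [mv_mul, map_smul, mul_smul] }
  have hRd : ∀ σ v, R σ v = (χ σ : E) • mv (ρ σ) v := fun σ v => rfl
  have hn := nwt_norm (E := E) p hr0 wt
  have hcon : ∀ σ (v : Fin N → E), nwt r wt (mv (ρ σ) v - v) ≤ r⁻¹ * nwt r wt v :=
    fun σ v => nwt_con hr hwt hrn (hfl σ) v
  have hχ' : ∀ σ, ∃ k : ℕ, (χ σ : E) ^ (p ^ k) = 1 := by
    intro σ
    obtain ⟨k, hk⟩ := hχp σ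
    refine ⟨k, ?_⟩
    rw [← Units.val_pow_eq_pow_val, hk, Units.val_one]
  have hχn : ∀ σ, ‖(χ σ : E)‖ = 1 := by
    intro σ
    obtain ⟨k, hk⟩ := hχ' σ
    exact root_norm hk
  have hχ1 : ∀ σ, ‖(χ σ : E) - 1‖ < 1 := by
    intro σ
    obtain ⟨k, hk⟩ := hχ' σ
    exact root_lt hk
  have hdec : ∀ σ v, R σ v - v = ((χ σ : E) - 1) • v + (χ σ : E) • (mv (ρ σ) v - v) := by
    intro σ v
    rw [hRd, sub_smul, one_smul, smul_sub]
    abel
  have hsm : ∀ φ, r⁻¹ < ‖(χ φ : E) - 1‖ → ∀ v : Fin N → E, v ≠ 0 →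
      nwt r wt ((χ φ : E) • (mv (ρ φ) v - v)) < ‖(χ φ : E) - 1‖ * nwt r wt v := by
    intro φ hφ v hv
    rw [hn.smul, hχn, one_mul]
    exact (hcon φ v).trans_lt (mul_lt_mul_of_pos_right hφ (hn.pos v hv))
  have hbig : ∀ φ, r⁻¹ < ‖(χ φ : E) - 1‖ → ∀ v,
      nwt r wt (R φ v - v) = ‖(χ φ : E) - 1‖ * nwt r wt v := by
    intro φ hφ v
    by_cases hv : v = 0
    · rw [hv, map_zero, sub_zero, hn.zero, mul_zero]
    · have h1 : nwt r wt ((χ φ : E) • (mv (ρ φ) v - v)) < nwt r wt (((χ φ : E) - 1) • v) := by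
        rw [hn.smul ((χ φ : E) - 1)]
        exact hsm φ hφ v hv
      rw [hdec, hn.add_eq h1, hn.smul]
  have hR : ∀ σ v, v ≠ 0 → nwt r wt (R σ v - v) < nwt r wt v := by
    intro σ v hv
    rw [hdec]
    refine hn.add_lt ?_ ?_
    · rw [hn.smul]
      have := hn.pos v hv
      have := hχ1 σ
      nlinarith
    · rw [hn.smul, hχn, one_mul]
      have h3 := hcon σ v
      have := hn.pos v hv
      nlinarith
  have hnle : ∀ v : Fin N → E, nwt r wt v ≤ p * ‖v‖ := by
    intro v
    rw [← hrn]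
    exact nwt_le_norm hr.le hwt v
  have hRc : ∀ v, Continuous fun σ => R σ v := by
    intro v
    refine continuous_pi fun i => ?_
    have e : (fun σ => R σ v i) = fun σ => (χ σ : E) * ∑ j, em p E (ρ σ i j) * v j := rfl
    rw [e]
    refine hχc.mul (continuous_finsetSum _ fun j _ => Continuous.mul ?_ continuous_const)
    have h1 : Continuous fun σ => (ρ σ) i j := by fun_prop
    have h2 : Continuous (em p E) := by
      have h3 : Isometry (em p E) := by
        refine Isometry.of_dist_eq fun x y => ?_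
        rw [dist_eq_norm, dist_eq_norm, ← map_sub, norm_em]
      exact h3.continuous
    exact h2.comp h1
  have hnc : ∀ f : G → Fin N → E, Continuous f → ∀ σ, ∀ ε > 0,
      ∀ᶠ τ in 𝓝 σ, nwt r wt (f τ - f σ) < ε := by
    intro f hf σ ε hε
    have h1 : Tendsto (fun τ => ‖f τ - f σ‖) (𝓝 σ) (𝓝 0) := by
      have h2 := ((hf.tendsto σ).sub_const (f σ)).norm
      rwa [sub_self, norm_zero] at h2
    have h0 : (0 : ℝ) < p := by linarith
    filter_upwards [h1.eventually_lt_const (div_pos hε h0)] with τ hτ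
    refine (hnle (f τ - f σ)).trans_lt ?_
    rw [lt_div_iff₀ h0] at hτ
    linarith
  have hgt : ∀ φ, n < (orderOf (χ φ)).totient → r⁻¹ < ‖(χ φ : E) - 1‖ := by
    intro φ hφo
    obtain ⟨k', hk'⟩ := hχ' φ
    rw [← orderOf_units] at hφo
    exact root_gt hk' hφo hr hrn
  -- the normalization at the places
  choose yk hyk using hloc
  set y₁ : Fin N → E := fun i => match κ i with
    | some k => yk k i
    | none => 0 with hy₁
  have hy₁' : ∀ i k, κ i = some k → y₁ i = yk k i := by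
    intro i k hi
    show (match κ i with
    | some k => yk k i
    | none => 0) = yk k i
    rw [hi]
  have hstab : ∀ k, ∀ σ ∈ D k, ∀ v : Fin N → E, (∀ i, κ i = some k → v i = 0) →
      ∀ i, κ i = some k → (R σ v - v) i = 0 := by
    intro k σ hσ v hv i hi
    rw [Pi.sub_apply, hv i hi, sub_zero, hRd, Pi.smul_apply, mv_apply, smul_eq_mul]
    refine mul_eq_zero_of_right _ (Finset.sum_eq_zero fun j _ => ?_)
    by_cases hj : κ j = some k
    · rw [hv j hj, mul_zero]
    · rw [hst k σ hσ i j hi hj, map_zero, zero_mul]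
  have h1 : ∀ k, ∀ σ ∈ D k, ∀ i, κ i = some k → (c σ - (R σ y₁ - y₁)) i = 0 := by
    intro k σ hσ i hi
    have h2 := hstab k σ hσ (yk k - y₁) (fun i hi => by
      rw [Pi.sub_apply, hy₁' i k hi, sub_self]) i hi
    have h3 : c σ i = (R σ (yk k) - yk k) i := hyk k σ hσ i hi
    have e : (c σ - (R σ y₁ - y₁)) i = (c σ i - (R σ (yk k) - yk k) i) +
        (R σ (yk k - y₁) - (yk k - y₁)) i := by
      rw [map_sub]
      simp only [Pi.sub_apply]
      ring
    rw [e, h2, h3, sub_self, add_zero]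
  -- the normalization at `γ`
  obtain ⟨z, hz0, hz⟩ : ∃ z : Fin N → E, (∀ i, κ i ≠ none → z i = 0) ∧
      ∀ i, κ i = none → (c γ - (R γ y₁ - y₁)) i = (R γ z - z) i := by
    by_cases hnone : ∃ i, κ i = none
    · obtain ⟨i₀, hi₀⟩ := hnone
      have hγ := hgt γ (hrign i₀ hi₀).2
      -- the projection
      let Q : (Fin N → E) →ₗ[E] (Fin N → E) :=
        { toFun := fun v i => if κ i = none then v i else 0
          map_add' := fun v w => by
            funext i
            simp only [Pi.add_apply]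
            split_ifs <;> simp
          map_smul' := fun a v => by
            funext i
            simp only [Pi.smul_apply, RingHom.id_apply]
            split_ifs <;> simp }
      have hQa : ∀ v i, Q v i = if κ i = none then v i else 0 := fun v i => rfl
      have hQn : ∀ v, nwt r wt (Q v) ≤ nwt r wt v := by
        intro v
        have h0 : 0 ≤ nwt r wt v := norm_nonneg _
        rw [nwt_le_iff hr0 h0]
        intro i
        refine le_trans ?_ (le_nwt hr0 wt v i)
        rw [hQa]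
        split_ifs
        · exact le_rfl
        · rw [norm_zero, mul_zero]
          positivity
      let Wn : Submodule E (Fin N → E) :=
        { carrier := {v | ∀ i, κ i ≠ none → v i = 0}
          zero_mem' := fun i _ => rfl
          add_mem' := fun {a b} ha hb i hi => by rw [Pi.add_apply, ha i hi, hb i hi, add_zero]
          smul_mem' := fun a v hv i hi => by rw [Pi.smul_apply, hv i hi, smul_zero] }
      have hQW : ∀ v, Q v ∈ Wn := fun v i hi => by rw [hQa, if_neg hi]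
      have hQself : ∀ v ∈ Wn, Q v = v := by
        intro v hv
        funext i
        rw [hQa]
        split_ifs with h
        · rfl
        · exact (hv i h).symm
      let L₀ : (Fin N → E) →ₗ[E] (Fin N → E) := Q ∘ₗ (R γ - 1)
      have hres : ∀ v ∈ Wn, L₀ v ∈ Wn := fun v _ => hQW _
      let L : Wn →ₗ[E] Wn := L₀.restrict hres
      have hL : Function.Injective L := by
        rw [← LinearMap.ker_eq_bot, LinearMap.ker_eq_bot']
        rintro ⟨v, hv⟩ h1
        have h2 : Q (R γ v - v) = 0 := congrArg Subtype.val h1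
        refine Subtype.ext ?_
        by_contra hv0
        have hv0' : v ≠ 0 := hv0
        rw [hdec, map_add, map_smul, hQself v hv] at h2
        have h3 := congrArg (nwt r wt) (add_eq_zero_iff_eq_neg.1 h2)
        rw [hn.neg, hn.smul] at h3
        have h4 := hQn ((χ γ : E) • (mv (ρ γ) v - v))
        have h5 := hsm γ hγ v hv0'
        linarith
      obtain ⟨⟨z, hz⟩, h1⟩ := LinearMap.surjective_of_injective hL ⟨Q (c γ - (R γ y₁ - y₁)), hQW _⟩
      refine ⟨z, hz, fun i hi => ?_⟩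
      have h2 : Q (R γ z - z) = Q (c γ - (R γ y₁ - y₁)) := congrArg Subtype.val h1
      have h3 := congrFun h2 i
      rw [hQa, hQa, if_pos hi, if_pos hi] at h3
      exact h3.symm
    · exact ⟨0, fun i _ => rfl, fun i hi => absurd ⟨i, hi⟩ hnone⟩
  set y₀ : Fin N → E := y₁ + z with hy₀
  set c' : G → Fin N → E := fun σ => c σ - (R σ y₀ - y₀) with hc'
  have he : ∀ σ, c' σ = (c σ - (R σ y₁ - y₁)) - (R σ z - z) := by
    intro σ
    rw [hc', hy₀]
    show c σ - (R σ (y₁ + z) - (y₁ + z)) = _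
    rw [map_add]
    abel
  have hloc' : ∀ k, ∀ σ ∈ D k, ∀ i, κ i = some k → c' σ i = 0 := by
    intro k σ hσ i hi
    rw [he, Pi.sub_apply, h1 k σ hσ i hi, hstab k σ hσ z (fun i hi => hz0 i (by rw [hi]; simp)) i hi,
      sub_zero]
  have hγ' : ∀ i, κ i = none → c' γ i = 0 := by
    intro i hi
    rw [he, Pi.sub_apply, hz i hi, sub_self]
  have hcm' : ∀ σ τ, c' (σ * τ) = c' σ + R σ (c' τ) := by
    intro σ τ
    show c (σ * τ) - (R (σ * τ) y₀ - y₀) = c σ - (R σ y₀ - y₀) + R σ (c τ - (R τ y₀ - y₀))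
    rw [hcm, ← hRd, map_mul, Module.End.mul_apply]
    simp only [map_sub]
    abel
  have hcc' : Continuous c' := hcc.sub ((hRc y₀).sub continuous_const)
  refine ⟨y₀, ?_⟩
  suffices key : ∀ σ, c' σ = 0 by
    intro σ
    exact sub_eq_zero.1 (key σ)
  obtain ⟨σ₀, hσ₀⟩ := exists_max hn (hnc c' hcc')
  by_cases hM : 0 < nwt r wt (c' σ₀)
  · exfalso
    have hI : ∀ I ∈ Is, ∀ σ ∈ I, nwt r wt (c' σ) < nwt r wt (c' σ₀) := by
      intro I hI' σ hσ
      obtain ⟨y, hy⟩ := hodd I hI'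
      obtain ⟨hχI, h3⟩ := hIs I hI'
      have hy' : ∃ y, ∀ σ ∈ I, c' σ = R σ y - y := by
        refine ⟨y - y₀, fun σ hσ => ?_⟩
        show c σ - (R σ y₀ - y₀) = _
        rw [hy σ hσ, ← hRd, map_sub]
        abel
      rcases h3 with h3 | ⟨φ, hnor, hφ⟩
      · obtain ⟨y', hy'⟩ := hy'
        rw [hy' σ hσ, hRd, h3 σ hσ, mv_one, hχI σ hσ, Units.val_one, one_smul, sub_self, hn.zero]
        exact hM
      · have hg := hgt φ hφ
        have hinj : ∀ v, R φ v = v → v = 0 := by
          intro v hv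
          by_contra h0
          have h6 := hbig φ hg v
          rw [hv, sub_self, hn.zero] at h6
          have := hn.pos v h0
          have h7 : 0 < ‖(χ φ : E) - 1‖ := lt_trans hr2 hg
          nlinarith [mul_pos h7 this]
        obtain ⟨y', h4, h5⟩ := ext_frob hcm' hy' hnor hinj
        rw [h5 σ hσ]
        by_cases h6 : y' = 0
        · rw [h6, map_zero, sub_zero, hn.zero]
          exact hM
        · refine lt_of_lt_of_le ?_ (hσ₀ φ)
          rw [h4, hbig φ hg, hRd, hχI σ hσ, Units.val_one, one_smul]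
          exact (hcon σ y').trans_lt (mul_lt_mul_of_pos_right hg (hn.pos y' h6))
    have hlt : nwt r wt (c' σ₀) < nwt r wt (c' σ₀) := by
      rw [nwt_lt_iff hr0 hM]
      intro i
      rcases hκ : κ i with _ | k
      · -- the coordinates without place
        refine coord_small hr0 hR hcm' (hnc c' hcc') (hrign i hκ).1 hM hσ₀ i ?_ hI σ₀
        intro σ hσ
        rcases Set.mem_insert_iff.1 hσ with rfl | hσ
        · rw [hγ' i hκ, norm_zero, mul_zero]
          exact hM
        · obtain ⟨h3, h4, h5⟩ := hC σ hσ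
          have h6 : mv (ρ σ) (c' σ) = -c' σ := by
            have h7 := hcm' σ σ
            rw [h3, coc_one hcm', hRd, h4, Units.val_one, one_smul] at h7
            exact (neg_eq_of_add_eq_zero_right h7.symm).symm
          have h7 := neg_small (I := {i | κ i = none}) h5 h6 hκ
          have h8 : r * r ^ wt i ≤ p := by
            rw [← pow_succ', ← hrn]
            exact pow_le_pow_right₀ hr.le (hwt i)
          have h9 : ‖c' σ‖ ≤ nwt r wt (c' σ) := by
            have h0 : 0 ≤ nwt r wt (c' σ) := norm_nonneg _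
            rw [pi_norm_le_iff_of_nonneg h0]
            intro b
            refine le_trans ?_ (le_nwt hr0 wt (c' σ) b)
            have : 1 ≤ r ^ wt b := one_le_pow₀ hr.le
            nlinarith [norm_nonneg (c' σ b)]
          have h10 : r * (r ^ wt i * ‖c' σ i‖) ≤ nwt r wt (c' σ₀) := by
            calc r * (r ^ wt i * ‖c' σ i‖) = (r * r ^ wt i) * ‖c' σ i‖ := by ring
              _ ≤ p * ((p : ℝ)⁻¹ * ‖c' σ‖) :=
                mul_le_mul h8 h7 (norm_nonneg _) (by linarith)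
              _ = ‖c' σ‖ := by
                rw [← mul_assoc, mul_inv_cancel₀ (by linarith), one_mul]
              _ ≤ nwt r wt (c' σ₀) := h9.trans (hσ₀ σ)
          have h11 : 0 ≤ r ^ wt i * ‖c' σ i‖ := by positivity
          rcases h11.eq_or_lt with h12 | h12
          · rw [← h12]
            exact hM
          · nlinarith
      · refine coord_small hr0 hR hcm' (hnc c' hcc') (hrig i k hκ) hM hσ₀ i ?_ hI σ₀
        intro σ hσ
        rw [hloc' k σ hσ i hκ, norm_zero, mul_zero]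
        exact hM
    exact lt_irrefl _ hlt
  · intro σ
    exact hn.eq_zero ((hσ₀ σ).trans (not_lt.1 hM))

end Pool.Agent.NH6.PG
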