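import Pool.Agent.NH6.Abs

/-!
# Matrices over the `p`-adic integers acting on vectors over a normed field
-/

set_option autoImplicit false
set_option linter.unusedSectionVars false

namespace Pool.Agent.NH6.PG

open Filter Topology Pool.Agent.NH6

variable {p : ℕ} [Fact p.Prime]

section coeff

variable {E : Type} [NormedField E] [NormedAlgebra ℚ_[p] E]

variable (p E) in
/-- `ℤ_p` in `E` -/
noncomputable def em : ℤ_[p] →+* E := (algebraMap ℚ_[p] E).comp PadicInt.Coe.ringHom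

lemma em_apply (x : ℤ_[p]) : em p E x = algebraMap ℚ_[p] E (x : ℚ_[p]) := rfl

lemma norm_em (x : ℤ_[p]) : ‖em p E x‖ = ‖x‖ := by
  rw [em_apply, norm_algebraMap', PadicInt.norm_def]

lemma norm_em_le (x : ℤ_[p]) : ‖em p E x‖ ≤ 1 := by
  rw [norm_em]
  exact PadicInt.norm_le_one x

variable (p E) in
lemma norm_p : ‖(p : E)‖ = (p : ℝ)⁻¹ := by
  have h : (p : E) = em p E p := by rw [map_natCast]
  rw [h, norm_em, PadicInt.norm_p]

variable (p E) in
include p in
lemma ultra : IsUltrametricDist E := IsUltrametricDist.of_normedAlgebra ℚ_[p]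

variable (p) in
include p in
lemma add_le' {a b : E} {r : ℝ} (ha : ‖a‖ ≤ r) (hb : ‖b‖ ≤ r) : ‖a + b‖ ≤ r := by
  have hu : IsUltrametricDist E := ultra p E
  exact (IsUltrametricDist.norm_add_le_max a b).trans (max_le ha hb)

variable (p) in
include p in
lemma sub_le' {a b : E} {r : ℝ} (ha : ‖a‖ ≤ r) (hb : ‖b‖ ≤ r) : ‖a - b‖ ≤ r := by
  rw [sub_eq_add_neg]
  exact add_le' p ha (by rwa [norm_neg])

variable {B : Type} [Fintype B] [DecidableEq B]

/-- the action of a matrix -/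
noncomputable def mv (A : Matrix B B ℤ_[p]) : (B → E) →ₗ[E] (B → E) :=
  Matrix.mulVecLin (A.map (em p E))

lemma mv_apply (A : Matrix B B ℤ_[p]) (v : B → E) (b : B) :
    mv A v b = ∑ b', em p E (A b b') * v b' := rfl

lemma mv_one (v : B → E) : mv (1 : Matrix B B ℤ_[p]) v = v := by
  unfold mv
  rw [Matrix.map_one _ (map_zero _) (map_one _), Matrix.mulVecLin_one]
  rfl

lemma mv_mul (A A' : Matrix B B ℤ_[p]) (v : B → E) : mv (A * A') v = mv A (mv A' v) := by
  unfold mv
  rw [Matrix.map_mul, Matrix.mulVecLin_mul]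
  rfl

end coeff

/-! ### Roots of unity -/

section roots

variable {E : Type} [NormedField E] [NormedAlgebra ℚ_[p] E]

lemma root_norm {x : E} {k : ℕ} (h : x ^ (p ^ k) = 1) : ‖x‖ = 1 := by
  have hp : 0 < p := (Fact.out : p.Prime).pos
  have h1 : ‖x‖ ^ (p ^ k) = 1 := by rw [← norm_pow, h, norm_one]
  exact (pow_eq_one_iff_of_nonneg (norm_nonneg _) (by positivity)).1 h1

/-- the `p`-th power of `1 + y` -/
lemma pow_sub (x : E) (hx : ‖x - 1‖ ≤ 1) : ‖x ^ p - 1 - (x - 1) ^ p‖ ≤ (p : ℝ)⁻¹ * ‖x - 1‖ := by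
  have hu : IsUltrametricDist E := ultra p E
  have hp : p.Prime := Fact.out
  have h1 : x ^ p = ∑ m ∈ Finset.range (p + 1), (x - 1) ^ m * 1 ^ (p - m) * (p.choose m : E) := by
    rw [← add_pow]
    congr 1
    ring
  have h2 : x ^ p - 1 - (x - 1) ^ p =
      ∑ m ∈ Finset.Ico 1 p, (x - 1) ^ m * 1 ^ (p - m) * (p.choose m : E) := by
    rw [h1, Finset.sum_range_succ, Finset.range_eq_Ico,
      Finset.sum_eq_sum_Ico_succ_bot hp.pos]
    simp
    ring
  rw [h2]
  refine IsUltrametricDist.norm_sum_le_of_forall_le_of_nonneg (by positivity) fun m hm => ?_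
  rw [Finset.mem_Ico] at hm
  obtain ⟨d, hd⟩ := hp.dvd_choose_self (by omega) hm.2
  rw [one_pow, mul_one, hd, Nat.cast_mul, norm_mul, norm_mul, norm_p p E, norm_pow]
  have h3 : ‖(d : E)‖ ≤ 1 := IsUltrametricDist.norm_natCast_le_one E d
  have h4 : ‖x - 1‖ ^ m ≤ ‖x - 1‖ := by
    calc ‖x - 1‖ ^ m ≤ ‖x - 1‖ ^ 1 := pow_le_pow_of_le_one (norm_nonneg _) hx hm.1
      _ = _ := pow_one _
  have hp0 : (0 : ℝ) ≤ (p : ℝ)⁻¹ := by positivity
  calc ‖x - 1‖ ^ m * ((p : ℝ)⁻¹ * ‖(d : E)‖) ≤ ‖x - 1‖ * ((p : ℝ)⁻¹ * 1) := by gcongr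
    _ = _ := by ring

lemma root_le {x : E} {k : ℕ} (h : x ^ (p ^ k) = 1) : ‖x - 1‖ ≤ 1 :=
  sub_le' p (root_norm h).le norm_one.le

lemma root_lt {x : E} {k : ℕ} (h : x ^ (p ^ k) = 1) : ‖x - 1‖ < 1 := by
  have hp : p.Prime := Fact.out
  have hu : IsUltrametricDist E := ultra p E
  have hp1 : (p : ℝ)⁻¹ < 1 := inv_lt_one_of_one_lt₀ (by exact_mod_cast hp.one_lt)
  induction k generalizing x with
  | zero =>
    rw [pow_zero, pow_one] at h
    rw [h, sub_self, norm_zero]
    exact zero_lt_one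
  | succ k ih =>
    have h0 := root_le h
    have h1 := ih (x := x ^ p) (by rw [← pow_mul, ← pow_succ']; exact h)
    have h2 := pow_sub (p := p) x h0
    have h3 : ‖(x - 1) ^ p‖ < 1 := by
      have e : (x - 1) ^ p = (x ^ p - 1) - (x ^ p - 1 - (x - 1) ^ p) := by ring
      rw [e]
      rw [sub_eq_add_neg (x ^ p - 1)]
      refine (IsUltrametricDist.norm_add_le_max _ _).trans_lt (max_lt h1 ?_)
      rw [norm_neg]
      refine h2.trans_lt ?_
      calc (p : ℝ)⁻¹ * ‖x - 1‖ ≤ (p : ℝ)⁻¹ * 1 := by gcongr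
        _ < 1 := by rw [mul_one]; exact hp1
    rw [norm_pow] at h3
    exact (pow_lt_one_iff_of_nonneg (norm_nonneg _) hp.ne_zero).1 h3

/-- roots of unity different from one are not too close to one -/
lemma root_ge {x : E} {k : ℕ} (h : x ^ (p ^ k) = 1) (hx : x ≠ 1) :
    (p : ℝ)⁻¹ ≤ ‖x - 1‖ ^ (p - 1) := by
  have hp : p.Prime := Fact.out
  have hu : IsUltrametricDist E := ultra p E
  induction k generalizing x with
  | zero =>
    rw [pow_zero, pow_one] at h
    exact absurd h hx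
  | succ k ih =>
    have h0 := root_le h
    have h2 := pow_sub (p := p) x h0
    have hx1 : 0 < ‖x - 1‖ := norm_pos_iff.2 (sub_ne_zero.2 hx)
    have e1 : ‖x - 1‖ ^ p = ‖x - 1‖ ^ (p - 1) * ‖x - 1‖ := by
      rw [← pow_succ]
      congr 1
      have := hp.pos
      omega
    by_contra hcon
    push Not at hcon
    -- then the linear term dominates
    by_cases h1 : x ^ p = 1
    · -- use the exact expansion
      have h3 : ‖(x - 1) ^ (p - 1)‖ = (p : ℝ)⁻¹ := by
        -- the geometric sum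
        have h4 : ∑ m ∈ Finset.range p, x ^ m = 0 := by
          have h5 := geom_sum_mul x p
          rw [h1, sub_self] at h5
          exact (mul_eq_zero.1 h5).resolve_right (sub_ne_zero.2 hx)
        -- `∑ x ^ m - p` is divisible by `x - 1`
        have h6 : ‖∑ m ∈ Finset.range p, x ^ m - (x - 1) ^ (p - 1) - (p : E)‖ ≤
            (p : ℝ)⁻¹ * ‖x - 1‖ := by
          have h7 : (∑ m ∈ Finset.range p, x ^ m - (x - 1) ^ (p - 1) - (p : E)) * (x - 1) =
              ∑ m ∈ Finset.Ico 2 p, (x - 1) ^ m * (p.choose m : E) := by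
            have h8 : x ^ p = ∑ m ∈ Finset.range (p + 1), (x - 1) ^ m * 1 ^ (p - m) *
                (p.choose m : E) := by
              rw [← add_pow]
              congr 1
              ring
            have h9 : (x - 1) ^ (p - 1) * (x - 1) = (x - 1) ^ p := by
              rw [← pow_succ]
              congr 1
              have := hp.pos
              omega
            rw [sub_mul, sub_mul, geom_sum_mul, h9, h8, Finset.sum_range_succ, Finset.range_eq_Ico,
              Finset.sum_eq_sum_Ico_succ_bot hp.pos, Finset.sum_eq_sum_Ico_succ_bot hp.one_lt]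
            simp
            ring
          have h10 : ‖∑ m ∈ Finset.Ico 2 p, (x - 1) ^ m * (p.choose m : E)‖ ≤
              ((p : ℝ)⁻¹ * ‖x - 1‖) * ‖x - 1‖ := by
            refine IsUltrametricDist.norm_sum_le_of_forall_le_of_nonneg (by positivity)
              fun m hm => ?_
            rw [Finset.mem_Ico] at hm
            obtain ⟨d, hd⟩ := hp.dvd_choose_self (by omega) hm.2
            rw [hd, Nat.cast_mul, norm_mul, norm_mul, norm_p p E, norm_pow]
            have h3 : ‖(d : E)‖ ≤ 1 := IsUltrametricDist.norm_natCast_le_one E d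
            have h4 : ‖x - 1‖ ^ m ≤ ‖x - 1‖ ^ 2 := pow_le_pow_of_le_one (norm_nonneg _) h0 hm.1
            have hp0 : (0 : ℝ) ≤ (p : ℝ)⁻¹ := by positivity
            calc ‖x - 1‖ ^ m * ((p : ℝ)⁻¹ * ‖(d : E)‖) ≤ ‖x - 1‖ ^ 2 * ((p : ℝ)⁻¹ * 1) := by
                  gcongr
              _ = _ := by ring
          rw [← h7, norm_mul] at h10
          exact le_of_mul_le_mul_right h10 hx1
        rw [h4, zero_sub] at h6
        have hlt : (p : ℝ)⁻¹ * ‖x - 1‖ < (p : ℝ)⁻¹ := by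
          have h11 := root_lt h
          have hp0 : (0 : ℝ) < (p : ℝ)⁻¹ := by
            have := hp.pos
            positivity
          nlinarith
        have e2 : (x - 1) ^ (p - 1) = -(p : E) + -(-(x - 1) ^ (p - 1) - (p : E)) := by ring
        have h12 : ‖-(-(x - 1) ^ (p - 1) - (p : E))‖ < ‖-(p : E)‖ := by
          rw [norm_neg, norm_neg, norm_p p E]
          exact h6.trans_lt hlt
        rw [e2, IsUltrametricDist.norm_add_eq_max_of_norm_ne_norm h12.ne', max_eq_left h12.le,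
          norm_neg, norm_p p E]
      rw [norm_pow] at h3
      linarith
    · have h3 := ih (x := x ^ p) (by rw [← pow_mul, ← pow_succ']; exact h) h1
      -- `‖x ^ p - 1‖ ≤ p⁻¹ ‖x - 1‖`
      have h4 : ‖x ^ p - 1‖ ≤ (p : ℝ)⁻¹ * ‖x - 1‖ := by
        have e : x ^ p - 1 = (x ^ p - 1 - (x - 1) ^ p) + (x - 1) ^ p := by ring
        rw [e]
        refine add_le' p h2 ?_
        rw [norm_pow, e1]
        gcongr
      have h5 : ‖x ^ p - 1‖ ^ (p - 1) ≤ ‖x - 1‖ ^ (p - 1) := by
        refine pow_le_pow_left₀ (norm_nonneg _) (h4.trans ?_) _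
        have hp1 : (p : ℝ)⁻¹ ≤ 1 := inv_le_one_of_one_le₀ (by exact_mod_cast hp.one_lt.le)
        nlinarith
      linarith

lemma root_step {x : E} {k : ℕ} (h : x ^ (p ^ k) = 1) (hx : x ≠ 1) :
    ‖x ^ p - 1‖ ≤ ‖x - 1‖ ^ p := by
  have hp : p.Prime := Fact.out
  have h0 := root_le h
  have h1 := root_ge h hx
  have h2 := pow_sub (p := p) x h0
  have e1 : ‖x - 1‖ ^ p = ‖x - 1‖ ^ (p - 1) * ‖x - 1‖ := by
    rw [← pow_succ]
    congr 1
    have := hp.pos
    omega
  have e : x ^ p - 1 = (x ^ p - 1 - (x - 1) ^ p) + (x - 1) ^ p := by ring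
  rw [e]
  refine add_le' p (h2.trans ?_) (by rw [norm_pow])
  rw [e1]
  gcongr

lemma root_pow {x : E} {k j : ℕ} (h : x ^ (p ^ k) = 1) (hx : x ^ (p ^ j) ≠ 1) :
    (p : ℝ)⁻¹ ≤ ‖x - 1‖ ^ (p ^ j * (p - 1)) := by
  induction j generalizing x with
  | zero =>
    rw [pow_zero, pow_one] at hx
    rw [pow_zero, one_mul]
    exact root_ge h hx
  | succ j ih =>
    have h1 : (x ^ p) ^ (p ^ k) = 1 := by rw [← pow_mul, mul_comm, pow_mul, h, one_pow]
    have h2 : (x ^ p) ^ (p ^ j) ≠ 1 := by rwa [← pow_mul, ← pow_succ']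
    have hx1 : x ≠ 1 := by
      rintro rfl
      exact hx (one_pow _)
    refine (ih h1 h2).trans ?_
    have e : p ^ (j + 1) * (p - 1) = p * (p ^ j * (p - 1)) := by rw [pow_succ']; ring
    rw [e, pow_mul ‖x - 1‖]
    exact pow_le_pow_left₀ (norm_nonneg _) (root_step h hx1) _

lemma root_gt {x : E} {k n : ℕ} (h : x ^ (p ^ k) = 1) (hx : n < (orderOf x).totient) {a : ℝ}
    (ha : 1 < a) (ham : a ^ n = p) : a⁻¹ < ‖x - 1‖ := by
  have hp : p.Prime := Fact.out
  obtain ⟨m, -, hm⟩ := (Nat.dvd_prime_pow hp).1 (orderOf_dvd_of_pow_eq_one h)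
  have hn : n ≠ 0 := by
    rintro rfl
    rw [pow_zero] at ham
    have : (1 : ℝ) < p := by exact_mod_cast hp.one_lt
    linarith
  have hm0 : m ≠ 0 := by
    rintro rfl
    rw [hm, pow_zero, Nat.totient_one] at hx
    omega
  obtain ⟨j, rfl⟩ : ∃ j, m = j + 1 := ⟨m - 1, by omega⟩
  rw [hm, Nat.totient_prime_pow_succ hp] at hx
  have hne : x ^ (p ^ j) ≠ 1 := by
    intro h2
    have h3 := Nat.le_of_dvd (by have := hp.pos; positivity) (orderOf_dvd_of_pow_eq_one h2)
    rw [hm, pow_succ] at h3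
    have h4 : 0 < p ^ j := by have := hp.pos; positivity
    have h5 := hp.two_le
    nlinarith
  by_contra hcon
  push Not at hcon
  have h1 := root_pow h hne
  have h2 : ‖x - 1‖ ^ (p ^ j * (p - 1)) ≤ a⁻¹ ^ (p ^ j * (p - 1)) :=
    pow_le_pow_left₀ (norm_nonneg _) hcon _
  have h3 : a ^ n < a ^ (p ^ j * (p - 1)) := pow_lt_pow_right₀ ha hx
  rw [ham] at h3
  have h4 : a⁻¹ ^ (p ^ j * (p - 1)) < (p : ℝ)⁻¹ := by
    rw [inv_pow]
    exact inv_strictAnti₀ (by exact_mod_cast hp.pos) h3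
  linarith

end roots

end Pool.Agent.NH6.PG
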