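import Pool.Agent.NH6.PG

/-!
# Norms with weights, rigidity and the general vanishing theorem
-/

set_option autoImplicit false
set_option linter.unusedSectionVars false

namespace Pool.Agent.NH6.PG

open Filter Topology Pool.Agent.NH6

variable {p : ℕ} [Fact p.Prime]

section weights

variable {E : Type} [NormedField E] [NormedAlgebra ℚ_[p] E] {B : Type} [Fintype B] [DecidableEq B]

/-- the norm with weights -/
noncomputable def nwt (r : ℝ) (wt : B → ℕ) (v : B → E) : ℝ :=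
  ‖(fun i => r ^ wt i * ‖v i‖ : B → ℝ)‖

lemma nwt_le_iff {r : ℝ} (hr : 0 < r) {wt : B → ℕ} {v : B → E} {M : ℝ} (hM : 0 ≤ M) :
    nwt r wt v ≤ M ↔ ∀ i, r ^ wt i * ‖v i‖ ≤ M := by
  unfold nwt
  rw [pi_norm_le_iff_of_nonneg hM]
  refine forall_congr' fun i => ?_
  rw [Real.norm_eq_abs, abs_of_nonneg (by positivity)]

lemma nwt_lt_iff {r : ℝ} (hr : 0 < r) {wt : B → ℕ} {v : B → E} {M : ℝ} (hM : 0 < M) :
    nwt r wt v < M ↔ ∀ i, r ^ wt i * ‖v i‖ < M := by
  unfold nwt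
  rw [pi_norm_lt_iff hM]
  refine forall_congr' fun i => ?_
  rw [Real.norm_eq_abs, abs_of_nonneg (by positivity)]

lemma le_nwt {r : ℝ} (hr : 0 < r) (wt : B → ℕ) (v : B → E) (i : B) :
    r ^ wt i * ‖v i‖ ≤ nwt r wt v :=
  (nwt_le_iff hr (norm_nonneg _)).1 le_rfl i

variable (p) in
include p in
lemma nwt_norm {r : ℝ} (hr : 0 < r) (wt : B → ℕ) : UNorm E (nwt r wt : (B → E) → ℝ) where
  add v w := by
    have hu : IsUltrametricDist E := ultra p E
    have h0 : 0 ≤ max (nwt r wt v) (nwt r wt w) := le_max_of_le_left (norm_nonneg _)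
    rw [nwt_le_iff hr h0]
    intro i
    rw [Pi.add_apply]
    have h1 := IsUltrametricDist.norm_add_le_max (v i) (w i)
    have h2 := le_nwt hr wt v i
    have h3 := le_nwt hr wt w i
    have hp : 0 ≤ r ^ wt i := by positivity
    rcases le_max_iff.1 h1 with h4 | h4
    · exact le_max_of_le_left ((mul_le_mul_of_nonneg_left h4 hp).trans h2)
    · exact le_max_of_le_right ((mul_le_mul_of_nonneg_left h4 hp).trans h3)
  smul a v := by
    unfold nwt
    have e : (fun i => r ^ wt i * ‖(a • v) i‖ : B → ℝ) = ‖a‖ • fun i => r ^ wt i * ‖v i‖ := by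
      funext i
      rw [Pi.smul_apply, Pi.smul_apply, smul_eq_mul, smul_eq_mul, norm_mul]
      ring
    rw [e, norm_smul, norm_norm]
  pos v hv := by
    obtain ⟨i, hi⟩ := Function.ne_iff.1 hv
    refine lt_of_lt_of_le ?_ (le_nwt hr wt v i)
    have : 0 < ‖v i‖ := norm_pos_iff.2 hi
    positivity

lemma nwt_le_norm {r : ℝ} (hr : 1 ≤ r) {wt : B → ℕ} {n : ℕ} (hwt : ∀ i, wt i < n)
    (v : B → E) : nwt r wt v ≤ r ^ n * ‖v‖ := by
  rw [nwt_le_iff (by linarith) (by positivity)]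
  intro i
  exact mul_le_mul (pow_le_pow_right₀ hr (hwt i).le) (norm_le_pi_norm v i) (norm_nonneg _)
    (by positivity)

/-- a unipotent matrix modulo `p` -/
def Flg (wt : B → ℕ) (A : Matrix B B ℤ_[p]) : Prop :=
  ∀ i j, ¬ wt i < wt j → (p : ℤ_[p]) ∣ A i j - (1 : Matrix B B ℤ_[p]) i j

lemma norm_dvd {x : ℤ_[p]} (h : (p : ℤ_[p]) ∣ x) : ‖x‖ ≤ (p : ℝ)⁻¹ := by
  obtain ⟨z, rfl⟩ := h
  rw [norm_mul, PadicInt.norm_p]
  have hp0 : (0 : ℝ) ≤ (p : ℝ)⁻¹ := by positivity
  calc (p : ℝ)⁻¹ * ‖z‖ ≤ (p : ℝ)⁻¹ * 1 := mul_le_mul_of_nonneg_left (PadicInt.norm_le_one z) hp0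
    _ = _ := mul_one _

lemma nwt_con {r : ℝ} (hr : 1 < r) {wt : B → ℕ} {n : ℕ} (hwt : ∀ i, wt i < n) (hrn : r ^ n = p)
    {A : Matrix B B ℤ_[p]} (hA : Flg wt A) (v : B → E) :
    nwt r wt (mv A v - v) ≤ r⁻¹ * nwt r wt v := by
  have hp : p.Prime := Fact.out
  have hpR : (0 : ℝ) < p := by exact_mod_cast hp.pos
  have hu : IsUltrametricDist E := ultra p E
  have hr0 : 0 < r := by linarith
  have hr1 : 0 < r⁻¹ := inv_pos.2 hr0
  have hnn : 0 ≤ nwt r wt v := norm_nonneg _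
  rw [nwt_le_iff hr0 (by positivity)]
  intro i
  have h1 : (mv A v - v) i = ∑ j, em p E ((A - 1) i j) * v j := by
    have e : mv (1 : Matrix B B ℤ_[p]) v = v := mv_one v
    rw [Pi.sub_apply]
    nth_rw 2 [← e]
    rw [mv_apply, mv_apply, ← Finset.sum_sub_distrib]
    refine Finset.sum_congr rfl fun b' _ => ?_
    rw [Matrix.sub_apply, map_sub, sub_mul]
  have h2 : ‖(mv A v - v) i‖ ≤ (r ^ wt i)⁻¹ * (r⁻¹ * nwt r wt v) := by
    rw [h1]
    refine IsUltrametricDist.norm_sum_le_of_forall_le_of_nonneg (by positivity) fun j _ => ?_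
    rw [norm_mul, norm_em, inv_mul_eq_div, le_div_iff₀ (by positivity)]
    have h3 := le_nwt hr0 wt v j
    have h4 : r ^ wt i * ‖(A - 1) i j‖ ≤ r⁻¹ * r ^ wt j := by
      by_cases h5 : wt i < wt j
      · have h6 : ‖(A - 1) i j‖ ≤ 1 := PadicInt.norm_le_one _
        have h7 : r * r ^ wt i ≤ r ^ wt j := by
          rw [← pow_succ']
          exact pow_le_pow_right₀ hr.le h5
        rw [inv_mul_eq_div, le_div_iff₀ hr0]
        have h8 : 0 < r * r ^ wt i := by positivity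
        nlinarith [mul_le_mul_of_nonneg_left h6 h8.le]
      · have h6 : ‖(A - 1) i j‖ ≤ (p : ℝ)⁻¹ := norm_dvd (hA i j h5)
        have h7 : r * r ^ wt i ≤ p := by
          rw [← pow_succ', ← hrn]
          exact pow_le_pow_right₀ hr.le (hwt i)
        have h8 : 1 ≤ r ^ wt j := one_le_pow₀ hr.le
        rw [inv_mul_eq_div, le_div_iff₀ hr0]
        calc r ^ wt i * ‖(A - 1) i j‖ * r = (r * r ^ wt i) * ‖(A - 1) i j‖ := by ring
          _ ≤ p * (p : ℝ)⁻¹ := mul_le_mul h7 h6 (norm_nonneg _) hpR.le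
          _ = 1 := mul_inv_cancel₀ hpR.ne'
          _ ≤ r ^ wt j := h8
    calc ‖(A - 1) i j‖ * ‖v j‖ * r ^ wt i = (r ^ wt i * ‖(A - 1) i j‖) * ‖v j‖ := by ring
      _ ≤ (r⁻¹ * r ^ wt j) * ‖v j‖ := mul_le_mul_of_nonneg_right h4 (norm_nonneg _)
      _ = r⁻¹ * (r ^ wt j * ‖v j‖) := by ring
      _ ≤ r⁻¹ * nwt r wt v := mul_le_mul_of_nonneg_left h3 hr1.le
  rw [inv_mul_eq_div, le_div_iff₀ (by positivity)] at h2
  rw [mul_comm]
  exact h2

end weights

section lattice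

variable {N : ℕ} {C : Matrix (Fin N) (Fin N) ℤ_[p]}

/-- the `-1`-part of an involution of a lattice -/
lemma neg_part {I : Set (Fin N)}
    (h : ∀ v : Fin N → ℤ_[p], C.mulVec v = -v → ∀ i ∈ I, (p : ℤ_[p]) ∣ v i) :
    ∃ (Z : Matrix (Fin N) (Fin N) ℤ_[p]) (Y : Matrix (Fin N) (Fin N) ℚ_[p]),
      Z.map (algebraMap ℤ_[p] ℚ_[p]) = Y * (1 + C).map (algebraMap ℤ_[p] ℚ_[p]) ∧
      ∀ i ∈ I, ∀ j, (p : ℤ_[p]) ∣ (1 : Matrix (Fin N) (Fin N) ℤ_[p]) i j - Z i j := by
  classical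
  have hp : p.Prime := Fact.out
  set A : Matrix (Fin N) (Fin N) ℤ_[p] := 1 + C with hA
  set f : (Fin N → ℤ_[p]) →ₗ[ℤ_[p]] (Fin N → ℤ_[p]) := Matrix.mulVecLin A with hf
  have hker : ∀ v, f v = 0 ↔ C.mulVec v = -v := by
    intro v
    rw [hf, Matrix.mulVecLin_apply, hA, Matrix.add_mulVec, Matrix.one_mulVec, add_comm,
      ← eq_neg_iff_add_eq_zero]
  -- the range is free
  have hfree : Module.Free ℤ_[p] (LinearMap.range f) := inferInstance
  obtain ⟨g, hg⟩ := Module.projective_lifting_property f.rangeRestrict LinearMap.id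
    (LinearMap.surjective_rangeRestrict f)
  set z : (Fin N → ℤ_[p]) →ₗ[ℤ_[p]] (Fin N → ℤ_[p]) := g ∘ₗ f.rangeRestrict with hz
  have hfz : ∀ v, f (v - z v) = 0 := by
    intro v
    have h1 : f.rangeRestrict (g (f.rangeRestrict v)) = f.rangeRestrict v :=
      LinearMap.congr_fun hg (f.rangeRestrict v)
    have h2 : f (g (f.rangeRestrict v)) = f v := congrArg Subtype.val h1
    rw [map_sub, sub_eq_zero]
    exact h2.symm
  have hz0 : ∀ v, f v = 0 → z v = 0 := by
    intro v hv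
    have h1 : f.rangeRestrict v = 0 := Subtype.ext hv
    rw [hz, LinearMap.comp_apply, h1, map_zero]
  set Z : Matrix (Fin N) (Fin N) ℤ_[p] := LinearMap.toMatrix' z with hZ
  have hZv : ∀ v, Z.mulVec v = z v := fun v => by
    rw [hZ, ← Matrix.toLin'_apply, Matrix.toLin'_toMatrix']
  have hZi : ∀ i ∈ I, ∀ j, (p : ℤ_[p]) ∣ (1 : Matrix (Fin N) (Fin N) ℤ_[p]) i j - Z i j := by
    intro i hi j
    have h1 := h (Pi.single j 1 - z (Pi.single j 1)) ((hker _).1 (hfz _)) i hi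
    have e : (Pi.single j 1 - z (Pi.single j 1) : Fin N → ℤ_[p]) i =
        (1 : Matrix (Fin N) (Fin N) ℤ_[p]) i j - Z i j := by
      rw [Pi.sub_apply, ← hZv, Matrix.mulVec_single_one, Matrix.one_apply, Matrix.col_apply]
      congr 1
      rw [Pi.single_apply]
    rwa [e] at h1
  -- over the field
  have hkerQ : LinearMap.ker (Matrix.mulVecLin (A.map (algebraMap ℤ_[p] ℚ_[p]))) ≤
      LinearMap.ker (Matrix.mulVecLin (Z.map (algebraMap ℤ_[p] ℚ_[p]))) := by
    intro u hu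
    rw [LinearMap.mem_ker, Matrix.mulVecLin_apply] at hu ⊢
    -- clear the denominators
    obtain ⟨k, v, hv⟩ : ∃ (k : ℕ) (v : Fin N → ℤ_[p]), ∀ i, (p : ℚ_[p]) ^ k * u i = v i := by
      have hp1 : (p : ℝ)⁻¹ < 1 := inv_lt_one_of_one_lt₀ (by exact_mod_cast hp.one_lt)
      have h1 : ∀ i, ∃ k : ℕ, ‖(p : ℚ_[p]) ^ k * u i‖ ≤ 1 := by
        intro i
        obtain ⟨k, hk⟩ := exists_pow_lt_of_lt_one (x := (‖u i‖ + 1)⁻¹) (y := (p : ℝ)⁻¹)
          (by positivity) hp1
        refine ⟨k, ?_⟩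
        rw [norm_mul, norm_pow, Padic.norm_p]
        have h2 : ((p : ℝ)⁻¹) ^ k * ‖u i‖ ≤ (‖u i‖ + 1)⁻¹ * ‖u i‖ :=
          mul_le_mul_of_nonneg_right hk.le (norm_nonneg _)
        refine h2.trans ?_
        rw [inv_mul_le_iff₀ (by positivity)]
        linarith
      choose k hk using h1
      have h2 : ∀ i, ‖(p : ℚ_[p]) ^ (Finset.univ.sup k) * u i‖ ≤ 1 := by
        intro i
        obtain ⟨d, hd⟩ := Nat.exists_eq_add_of_le (Finset.le_sup (f := k) (Finset.mem_univ i))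
        rw [hd, pow_add, mul_comm ((p : ℚ_[p]) ^ k i), mul_assoc, norm_mul]
        have h3 : ‖(p : ℚ_[p]) ^ d‖ ≤ 1 := by
          have := PadicInt.norm_le_one ((p : ℤ_[p]) ^ d)
          rw [PadicInt.norm_def] at this
          push_cast at this
          exact this
        exact mul_le_one₀ h3 (norm_nonneg _) (hk i)
      exact ⟨_, fun i => ⟨_, h2 i⟩, fun i => rfl⟩
    have hp0 : (p : ℚ_[p]) ≠ 0 := by exact_mod_cast hp.ne_zero
    have hinj : Function.Injective (algebraMap ℤ_[p] ℚ_[p]) := FaithfulSMul.algebraMap_injective _ _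
    have hmapv : ∀ M : Matrix (Fin N) (Fin N) ℤ_[p], (fun i => algebraMap ℤ_[p] ℚ_[p] (M.mulVec v i)) =
        (p : ℚ_[p]) ^ k • (M.map (algebraMap ℤ_[p] ℚ_[p])).mulVec u := by
      intro M
      rw [← Matrix.mulVec_smul]
      funext i
      rw [Matrix.mulVec, Matrix.mulVec, dotProduct, dotProduct, map_sum]
      refine Finset.sum_congr rfl fun j _ => ?_
      rw [map_mul, Matrix.map_apply, Pi.smul_apply, smul_eq_mul, hv j]
      rfl
    have h3 : A.mulVec v = 0 := by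
      funext i
      apply hinj
      have h4 := congrFun (hmapv A) i
      rw [hu, smul_zero] at h4
      rw [h4, Pi.zero_apply, Pi.zero_apply, map_zero]
    have h4 : Z.mulVec v = 0 := by
      rw [hZv]
      exact hz0 v h3
    have h5 := hmapv Z
    rw [h4] at h5
    have h6 : (p : ℚ_[p]) ^ k • (Z.map (algebraMap ℤ_[p] ℚ_[p])).mulVec u = 0 := by
      rw [← h5]
      funext i
      simp
    exact (smul_eq_zero.1 h6).resolve_left (pow_ne_zero _ hp0)
  have hrow : ∀ i, ∃ y : Fin N → ℚ_[p], ∀ l, algebraMap ℤ_[p] ℚ_[p] (Z i l) =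
      ∑ j, y j * algebraMap ℤ_[p] ℚ_[p] (A j l) := by
    intro i
    have h1 : (LinearMap.proj i ∘ₗ Matrix.mulVecLin (Z.map (algebraMap ℤ_[p] ℚ_[p])) :
        (Fin N → ℚ_[p]) →ₗ[ℚ_[p]] ℚ_[p]) ∈ Submodule.span ℚ_[p] (Set.range fun j =>
          (LinearMap.proj j ∘ₗ Matrix.mulVecLin (A.map (algebraMap ℤ_[p] ℚ_[p])) :
            (Fin N → ℚ_[p]) →ₗ[ℚ_[p]] ℚ_[p])) := by
      apply mem_span_of_iInf_ker_le_ker
      intro u hu
      rw [Submodule.mem_iInf] at hu
      have h2 : u ∈ LinearMap.ker (Matrix.mulVecLin (A.map (algebraMap ℤ_[p] ℚ_[p]))) := by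
        rw [LinearMap.mem_ker]
        funext j
        exact hu j
      have h3 := hkerQ h2
      rw [LinearMap.mem_ker] at h3 ⊢
      exact congrFun h3 i
    obtain ⟨y, hy⟩ := (Submodule.mem_span_range_iff_exists_fun ℚ_[p]).1 h1
    refine ⟨y, fun l => ?_⟩
    have h2 := LinearMap.congr_fun hy (Pi.single l 1)
    rw [LinearMap.sum_apply] at h2
    have h3 : ∀ (M : Matrix (Fin N) (Fin N) ℤ_[p]) (i : Fin N),
        (LinearMap.proj i ∘ₗ Matrix.mulVecLin (M.map (algebraMap ℤ_[p] ℚ_[p])) :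
          (Fin N → ℚ_[p]) →ₗ[ℚ_[p]] ℚ_[p]) (Pi.single l 1) = algebraMap ℤ_[p] ℚ_[p] (M i l) := by
      intro M i
      rw [LinearMap.comp_apply, Matrix.mulVecLin_apply, Matrix.mulVec_single_one]
      rfl
    rw [h3] at h2
    rw [← h2]
    refine Finset.sum_congr rfl fun j _ => ?_
    rw [LinearMap.smul_apply, h3, smul_eq_mul]
  choose Y hY using hrow
  refine ⟨Z, Matrix.of Y, ?_, hZi⟩
  ext i l
  rw [Matrix.map_apply, hY i l, Matrix.mul_apply]
  rfl

variable {E : Type} [NormedField E] [NormedAlgebra ℚ_[p] E]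

lemma neg_small {I : Set (Fin N)}
    (h : ∀ v : Fin N → ℤ_[p], C.mulVec v = -v → ∀ i ∈ I, (p : ℤ_[p]) ∣ v i)
    {u : Fin N → E} (hu : mv C u = -u) {i : Fin N} (hi : i ∈ I) : ‖u i‖ ≤ (p : ℝ)⁻¹ * ‖u‖ := by
  have hul : IsUltrametricDist E := ultra p E
  obtain ⟨Z, Y, hZY, hZ⟩ := neg_part h
  have h1 : mv (1 + C) u = 0 := by
    funext b
    have h2 := congrFun hu b
    have h3 : mv (1 : Matrix (Fin N) (Fin N) ℤ_[p]) u b = u b := by rw [mv_one]
    rw [mv_apply] at h2 h3 ⊢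
    rw [Pi.zero_apply]
    have e : ∀ j, em p E ((1 + C) b j) * u j = em p E ((1 : Matrix (Fin N) (Fin N) ℤ_[p]) b j) * u j +
        em p E (C b j) * u j := fun j => by rw [Matrix.add_apply, map_add, add_mul]
    rw [Finset.sum_congr rfl fun j _ => e j, Finset.sum_add_distrib, h2, h3, Pi.neg_apply,
      add_neg_cancel]
  have h4 : mv Z u i = 0 := by
    rw [mv_apply]
    have e : ∀ l, em p E (Z i l) * u l = ∑ j, algebraMap ℚ_[p] E (Y i j) *
        (em p E ((1 + C) j l) * u l) := by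
      intro l
      have h5 := congrFun (congrFun hZY i) l
      rw [Matrix.map_apply, Matrix.mul_apply] at h5
      have h6 : em p E (Z i l) = algebraMap ℚ_[p] E (∑ j, Y i j *
          (1 + C).map (algebraMap ℤ_[p] ℚ_[p]) j l) := by
        rw [← h5]
        rfl
      rw [h6, map_sum, Finset.sum_mul]
      refine Finset.sum_congr rfl fun j _ => ?_
      rw [map_mul, mul_assoc]
      rfl
    rw [Finset.sum_congr rfl fun l _ => e l, Finset.sum_comm]
    refine Finset.sum_eq_zero fun j _ => ?_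
    rw [← Finset.mul_sum]
    have h5 := congrFun h1 j
    rw [mv_apply] at h5
    rw [h5, Pi.zero_apply, mul_zero]
  have h5 : u i = ∑ j, em p E ((1 : Matrix (Fin N) (Fin N) ℤ_[p]) i j - Z i j) * u j := by
    have h3 : mv (1 : Matrix (Fin N) (Fin N) ℤ_[p]) u i = u i := by rw [mv_one]
    rw [mv_apply] at h3 h4
    have e : ∀ j, em p E ((1 : Matrix (Fin N) (Fin N) ℤ_[p]) i j - Z i j) * u j =
        em p E ((1 : Matrix (Fin N) (Fin N) ℤ_[p]) i j) * u j - em p E (Z i j) * u j := fun j => by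
      rw [map_sub, sub_mul]
    rw [Finset.sum_congr rfl fun j _ => e j, Finset.sum_sub_distrib, h3, h4, sub_zero]
  rw [h5]
  refine IsUltrametricDist.norm_sum_le_of_forall_le_of_nonneg (by positivity) fun j _ => ?_
  rw [norm_mul, norm_em]
  exact mul_le_mul (norm_dvd (hZ i hi j)) (norm_le_pi_norm u j) (norm_nonneg _) (by positivity)

end lattice

section rigid

variable {G : Type} [Group G] [TopologicalSpace G]

variable (p) in
/-- homomorphisms to the group with `p` elements that are trivial on `D` and on the members of `Is`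
are trivial -/
def RigP (D : Set G) (Is : Set (Set G)) : Prop :=
  ∀ f : G → ZMod p, IsLocallyConstant f → (∀ σ τ, f (σ * τ) = f σ + f τ) → (∀ σ ∈ D, f σ = 0) →
    (∀ I ∈ Is, ∀ σ ∈ I, f σ = 0) → ∀ σ, f σ = 0

lemma RigP.gen {D : Set G} {Is : Set (Set G)} (H : RigP p D Is) {A : Type} [AddCommGroup A]
    {f : G → A} (hf : IsLocallyConstant f) (hmul : ∀ σ τ, f (σ * τ) = f σ + f τ)
    (h2 : ∀ σ, p • f σ = 0) (hD : ∀ σ ∈ D, f σ = 0) (hI : ∀ I ∈ Is, ∀ σ ∈ I, f σ = 0) (σ : G) :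
    f σ = 0 := by
  by_contra hσ
  let A2 : AddSubgroup A :=
    { carrier := {x | p • x = 0}
      zero_mem' := smul_zero p
      add_mem' := fun {x y} hx hy => by
        show p • (x + y) = 0
        have hx' : p • x = 0 := hx
        have hy' : p • y = 0 := hy
        rw [smul_add, hx', hy', add_zero]
      neg_mem' := fun {x} hx => by
        show p • (-x) = 0
        have hx' : p • x = 0 := hx
        rw [smul_neg, hx', neg_zero] }
  let _ : Module (ZMod p) A2 := AddCommGroup.zmodModule (n := p) (fun x => Subtype.ext x.2)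
  let f' : G → A2 := fun σ => ⟨f σ, h2 σ⟩
  have hf'0 : f' σ ≠ 0 := fun h => hσ (congrArg Subtype.val h)
  have h3 : ∃ φ : Module.Dual (ZMod p) A2, φ (f' σ) ≠ 0 := by
    by_contra hcon
    push Not at hcon
    exact hf'0 ((Module.forall_dual_apply_eq_zero_iff (ZMod p) (f' σ)).1 hcon)
  obtain ⟨φ, hφ⟩ := h3
  apply hφ
  refine H (fun σ => φ (f' σ)) ?_ ?_ ?_ ?_ σ
  · have h4 : IsLocallyConstant f' := by
      rw [IsLocallyConstant.iff_eventually_eq] at hf ⊢
      intro τ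
      filter_upwards [hf τ] with τ' h5
      exact Subtype.ext h5
    exact h4.comp φ
  · intro σ τ
    have h4 : f' (σ * τ) = f' σ + f' τ := Subtype.ext (hmul σ τ)
    rw [h4, map_add]
  · intro σ hσ
    have h4 : f' σ = 0 := Subtype.ext (hD σ hσ)
    rw [h4, map_zero]
  · intro I hI' σ hσ
    have h4 : f' σ = 0 := Subtype.ext (hI I hI' σ hσ)
    rw [h4, map_zero]

end rigid

end Pool.Agent.NH6.PG
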