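import Pool.Agent.Y715.Df
import Pool.Agent.Y715.Lc
import Pool.Agent.W309.TD.Kum
import Pool.Agent.NH6.Abs

/-!
# Quadratic extensions of `ℚ(√-q)`, `q = 7` modulo `16`, unramified outside one place above two
-/

set_option autoImplicit false
set_option linter.unusedSectionVars false

namespace Pool.Agent.NH6

open Pool.Agent.Y715.Nr Pool.Agent.Y715.Red Pool.Agent.W237.RK
open Pool.Agent.Y715.Gi (QB KK GK i₀_mem gk_fix)
open Pool.Agent.Y715.Df (Cmp exists_cmp)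

/-- the elements of `ℚ(s)` -/
lemma KK_ex {q : ℕ} {s : QB} (hs : s ^ 2 = -(q : QB)) {x : QB} (hx : x ∈ KK s) :
    ∃ a b : ℚ, x = a + b * s := by
  have hint : IsAlgebraic ℚ s := Algebra.IsAlgebraic.isAlgebraic s
  have h1 : x ∈ Algebra.adjoin ℚ {s} := by
    rw [← IntermediateField.adjoin_simple_toSubalgebra_of_isAlgebraic hint]
    exact hx
  clear hx
  induction h1 using Algebra.adjoin_induction with
  | mem y hy =>
    rw [Set.mem_singleton_iff] at hy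
    exact ⟨0, 1, by rw [hy]; push_cast; ring⟩
  | algebraMap r =>
    refine ⟨r, 0, ?_⟩
    push_cast
    rw [zero_mul, add_zero]
    exact (eq_ratCast (algebraMap ℚ QB) r)
  | add y z _ _ ihy ihz =>
    obtain ⟨a, b, e⟩ := ihy
    obtain ⟨c, d, e'⟩ := ihz
    exact ⟨a + c, b + d, by rw [e, e']; push_cast; ring⟩
  | mul y z _ _ ihy ihz =>
    obtain ⟨a, b, e⟩ := ihy
    obtain ⟨c, d, e'⟩ := ihz
    refine ⟨a * c - q * (b * d), a * d + b * c, ?_⟩
    rw [e, e']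
    push_cast
    linear_combination (b : QB) * d * hs

section local_

variable {p : ℕ} [Fact p.Prime]

/-- elements fixed by the inertia group of a quadratic extension -/
theorem norm_gen {S : PadicAlgCl p} (hor : ∀ τ : Au p, τ S = S ∨ τ S = -S) {z : PadicAlgCl p}
    (hz : z ≠ 0) (h : ∀ τ : Au p, Inert τ → τ S = S → τ z = z) :
    ∃ m : ℤ, ‖z‖ ^ 2 = (p : ℝ) ^ m := by
  by_cases hall : ∀ τ : Au p, (∀ x ∈ kur p, τ x = x) → τ z = z
  · obtain ⟨m, hm⟩ := norm_ne hz (mem_kur hall)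
    refine ⟨2 * m, ?_⟩
    rw [hm, mul_comm, zpow_mul]
    norm_cast
  · push Not at hall
    obtain ⟨t, ht, htz⟩ := hall
    have htI : t S = -S := by
      rcases hor t with h1 | h1
      · exact absurd (h t (inert_of_kur ht) h1) htz
      · exact h1
    have hinv : ∀ x ∈ kur p, t⁻¹ x = x := by
      intro x hx
      have := congrArg (t⁻¹ : Au p) (ht x hx)
      rw [← AlgEquiv.mul_apply, inv_mul_cancel, AlgEquiv.one_apply] at this
      exact this.symm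
    have htI' : t⁻¹ S = -S := by
      have := congrArg (t⁻¹ : Au p) htI
      rw [← AlgEquiv.mul_apply, inv_mul_cancel, AlgEquiv.one_apply, map_neg] at this
      linear_combination this
    have key : ∀ τ : Au p, (∀ x ∈ kur p, τ x = x) → τ S = -S → τ z = t z := by
      intro τ hτ hτI
      have h1 : (t⁻¹ * τ) z = z := by
        apply h
        · apply inert_of_kur
          intro x hx
          rw [AlgEquiv.mul_apply, hτ x hx, hinv x hx]
        · rw [AlgEquiv.mul_apply, hτI, map_neg, htI', neg_neg]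
      have h2 := congrArg t h1
      rw [← AlgEquiv.mul_apply, ← mul_assoc, mul_inv_cancel, one_mul] at h2
      exact h2
    have hmem : z * t z ∈ kur p := by
      apply mem_kur
      intro τ hτ
      rw [map_mul]
      rcases hor τ with h1 | h1
      · have h2 : τ (t z) = t z := by
          have h3 := key (τ * t) (fun x hx => by rw [AlgEquiv.mul_apply, ht x hx, hτ x hx])
            (by rw [AlgEquiv.mul_apply, htI, map_neg, h1])
          rwa [AlgEquiv.mul_apply] at h3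
        rw [h2, h τ (inert_of_kur hτ) h1]
      · have h2 : τ (t z) = z := by
          have h3 := h (τ * t) (inert_of_kur fun x hx => by rw [AlgEquiv.mul_apply, ht x hx, hτ x hx])
            (by rw [AlgEquiv.mul_apply, htI, map_neg, h1, neg_neg])
          rwa [AlgEquiv.mul_apply] at h3
        rw [h2, key τ hτ h1, mul_comm]
    have htz0 : t z ≠ 0 := (map_ne_zero t).2 hz
    obtain ⟨m, hm⟩ := norm_ne (mul_ne_zero hz htz0) hmem
    refine ⟨m, ?_⟩
    rw [norm_mul, nrm] at hm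
    rw [pow_two, hm]

lemma sq_or {S : PadicAlgCl p} {q : ℕ} (hS : S ^ 2 = -(q : PadicAlgCl p)) (τ : Au p) :
    τ S = S ∨ τ S = -S := by
  have h : (τ S) ^ 2 = S ^ 2 := by
    rw [← map_pow, hS, map_neg, map_natCast]
  exact sq_eq_sq_iff_eq_or_eq_neg.1 h

lemma norm_two_odd (hp : p ≠ 2) : ‖(2 : PadicAlgCl p)‖ = 1 :=
  Pool.Agent.Y715.Lc.norm_two_odd hp

/-- unramified square roots -/
lemma inert_fix {S : PadicAlgCl p} {q : ℕ} (hS : S ^ 2 = -(q : PadicAlgCl p)) (hp : p ≠ 2)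
    (hpq : ¬ p ∣ q) {τ : Au p} (hτ : Inert τ) : τ S = S := by
  rcases sq_or hS τ with h | h
  · exact h
  · exfalso
    have h1 : ‖S‖ = 1 := by
      have h2 : ‖S‖ ^ 2 = 1 := by
        rw [← norm_pow, hS, norm_neg]
        exact Pool.Agent.W327.RK.norm_nat hpq
      exact (pow_eq_one_iff_of_nonneg (norm_nonneg _) two_ne_zero).1 h2
    have h2 := hτ S h1.le
    have e : τ S - S = -(2 * S) := by rw [h]; ring
    rw [e, norm_neg, norm_mul, norm_two_odd hp, h1, mul_one] at h2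
    exact lt_irrefl _ h2

lemma norm_unr {S : PadicAlgCl p} {q : ℕ} (hS : S ^ 2 = -(q : PadicAlgCl p)) (hp : p ≠ 2)
    (hpq : ¬ p ∣ q) {z : PadicAlgCl p} (hz : z ≠ 0)
    (h : ∀ τ : Au p, Inert τ → τ S = S → τ z = z) : ∃ m : ℤ, ‖z‖ = (p : ℝ) ^ m :=
  norm_ne hz (mem_kur fun τ hτ => h τ (inert_of_kur hτ) (inert_fix hS hp hpq (inert_of_kur hτ)))

end local_

/-- the square root `r` generates an extension of `ℚ(s)` that is unramified outside two -/
def Unr (s r : QB) : Prop := ∀ (p : ℕ) (_ : Fact p.Prime) (ι : QB →ₐ[ℚ] PadicAlgCl p), p ≠ 2 →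
  ∀ τ : Au p, Inert τ → τ (ι s) = ι s → τ (ι r) = ι r

section int

variable {q : ℕ} {s : QB} (hs : s ^ 2 = -(q : QB))

lemma exists_io (p : ℕ) [Fact p.Prime] : Nonempty (QB →ₐ[ℚ] PadicAlgCl p) :=
  ⟨IsAlgClosed.lift (R := ℚ) (S := QB) (M := AlgebraicClosure ℚ_[p])⟩

include hs in
lemma exists_conj (hq : 0 < q) : ∃ c : QB ≃ₐ[ℚ] QB, c s = -s := by
  by_contra hcon
  push Not at hcon
  have h : ∀ σ : QB ≃ₐ[ℚ] QB, σ s = s := by
    intro σ
    have h1 : (σ s) ^ 2 = s ^ 2 := by rw [← map_pow, hs, map_neg, map_natCast]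
    rcases sq_eq_sq_iff_eq_or_eq_neg.1 h1 with h3 | h3
    · exact h3
    · exact absurd h3 (hcon σ)
  have h2 := InfiniteGalois.mem_bot_iff_fixed (k := ℚ) (K := QB) s
  rw [IntermediateField.mem_bot] at h2
  obtain ⟨x, hx⟩ := h2.2 h
  rw [← hx, ← map_pow] at hs
  have h3 : x ^ 2 = -(q : ℚ) := by
    apply (algebraMap ℚ QB).injective
    rw [hs, map_neg, map_natCast]
  have h4 : (0 : ℚ) < q := by exact_mod_cast hq
  nlinarith [sq_nonneg x]

lemma io_s (hs : s ^ 2 = -(q : QB)) {p : ℕ} [Fact p.Prime] (ι : QB →ₐ[ℚ] PadicAlgCl p) :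
    (ι s) ^ 2 = -(q : PadicAlgCl p) := by
  rw [← map_pow, hs, map_neg, map_natCast]

/-- the norm of an integer is a power of `p` -/
lemma norm_int {p : ℕ} [Fact p.Prime] {n : ℤ} (hn : n ≠ 0) :
    ∃ j : ℤ, ‖(n : PadicAlgCl p)‖ = (p : ℝ) ^ j := by
  have h1 : (n : PadicAlgCl p) = ((n : ℚ_[p]) : PadicAlgCl p) := by
    show _ = algebraMap ℚ_[p] (PadicAlgCl p) _
    rw [map_intCast]
  rw [h1, PadicAlgCl.norm_extends p]
  exact ⟨_, Padic.norm_eq_zpow_neg_valuation (by exact_mod_cast hn)⟩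

lemma norm_int_le {p : ℕ} [Fact p.Prime] (n : ℤ) : ‖(n : PadicAlgCl p)‖ ≤ 1 :=
  IsUltrametricDist.norm_intCast_le_one _ n

lemma norm_int_lt {p : ℕ} [Fact p.Prime] {n : ℤ} : ‖(n : PadicAlgCl p)‖ < 1 ↔ (p : ℤ) ∣ n := by
  have h1 : (n : PadicAlgCl p) = ((n : ℚ_[p]) : PadicAlgCl p) := by
    show _ = algebraMap ℚ_[p] (PadicAlgCl p) _
    rw [map_intCast]
  rw [h1, PadicAlgCl.norm_extends p]
  exact Padic.norm_intCast_lt_one_iff

lemma norm_int_one {p : ℕ} [Fact p.Prime] {n : ℤ} (h : ¬ (p : ℤ) ∣ n) :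
    ‖(n : PadicAlgCl p)‖ = 1 :=
  le_antisymm (norm_int_le n) (not_lt.1 fun h1 => h (norm_int_lt.1 h1))

lemma norm_p {p : ℕ} [Fact p.Prime] : ‖(p : PadicAlgCl p)‖ = (p : ℝ) ^ (-1 : ℤ) := by
  rw [zpow_neg_one]
  exact Pool.Agent.W571.RK.norm_p_Om

lemma zp_inj {p : ℕ} [Fact p.Prime] {a b : ℤ} (h : (p : ℝ) ^ a = (p : ℝ) ^ b) : a = b := by
  have hp1 : (1 : ℝ) < p := by exact_mod_cast (Fact.out : p.Prime).one_lt
  exact zpow_right_injective₀ (by linarith) hp1.ne' h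

lemma zp_add {p : ℕ} [Fact p.Prime] (a b : ℤ) : (p : ℝ) ^ a * (p : ℝ) ^ b = (p : ℝ) ^ (a + b) := by
  have hp1 : (1 : ℝ) < p := by exact_mod_cast (Fact.out : p.Prime).one_lt
  rw [zpow_add₀ (by linarith)]

lemma zp_sq {p : ℕ} [Fact p.Prime] (a : ℤ) : ((p : ℝ) ^ a) ^ 2 = (p : ℝ) ^ (2 * a) := by
  rw [pow_two, zp_add, two_mul]

/-- the norm of a squarefree multiple of `p` -/
lemma sqf_norm {p : ℕ} [Fact p.Prime] {k : ℕ} (hk : Squarefree k) (hp : p ∣ k) :
    ‖(k : PadicAlgCl p)‖ = (p : ℝ) ^ (-1 : ℤ) := by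
  obtain ⟨k', rfl⟩ := hp
  have h1 : ¬ p ∣ k' := by
    intro h
    have h2 : p * p ∣ p * k' := Nat.mul_dvd_mul_left p h
    exact (Fact.out : p.Prime).not_isUnit (hk p h2)
  rw [Nat.cast_mul, norm_mul, norm_p, Pool.Agent.W327.RK.norm_nat h1, mul_one]

/-- squarefree parts -/
lemma sqf_part {k l : ℕ} (hk : Squarefree k) (hl : l ≠ 0) {p : ℕ} [Fact p.Prime] (hp : p ∣ k)
    {m : ℤ} (h : ‖((k * l ^ 2 : ℕ) : PadicAlgCl p)‖ = (p : ℝ) ^ (2 * m)) : False := by
  obtain ⟨j, hj⟩ := norm_int (p := p) (n := (l : ℤ)) (by exact_mod_cast hl)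
  rw [Int.cast_natCast] at hj
  rw [Nat.cast_mul, norm_mul, sqf_norm hk hp, Nat.cast_pow, norm_pow, hj, zp_sq, zp_add] at h
  have := zp_inj h
  omega

variable {g : ℕ} {A B : ℤ} {r : QB} (hr : r ^ 2 = g * (A + B * s)) (hg : Squarefree g)
  (hAB : IsCoprime A B) (hU : Unr s r)

lemma not_both {p : ℕ} [Fact p.Prime] (hAB : IsCoprime A B) (h1 : (p : ℤ) ∣ A)
    (h2 : (p : ℤ) ∣ B) : False := by
  have h3 := hAB.isUnit_of_dvd' h1 h2
  have h4 : Prime (p : ℤ) := Nat.prime_iff_prime_int.1 Fact.out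
  exact h4.not_isUnit h3

include hs hAB in
lemma n_pos (hq : 0 < q) : 0 < A ^ 2 + q * B ^ 2 := by
  have hq' : (0 : ℤ) < q := by exact_mod_cast hq
  rcases eq_or_ne B 0 with h | h
  · have hA : A ≠ 0 := by
      rintro rfl
      rw [h] at hAB
      obtain ⟨a, b, h⟩ := hAB
      simp at h
    positivity
  · positivity

include hs hAB in
lemma elt_ne (hq : 0 < q) : (A + B * s : QB) ≠ 0 := by
  intro h
  have h1 : (A : QB) ^ 2 + q * B ^ 2 = 0 := by
    linear_combination (A - B * s) * h + (B : QB) ^ 2 * hs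
  have h2 := n_pos hs hAB hq
  have h3 : (A : ℤ) ^ 2 + q * B ^ 2 = 0 := by exact_mod_cast h1
  omega

include hs hr hg hAB in
lemma r_ne (hq : 0 < q) : r ≠ 0 := by
  rintro rfl
  have h1 : (g : QB) ≠ 0 := by exact_mod_cast hg.ne_zero
  have h2 : (g : QB) * (A + B * s) = 0 := by rw [← hr]; ring
  exact elt_ne hs hAB hq ((mul_eq_zero.1 h2).resolve_left h1)

include hs hr hg hAB hU in
/-- the norm at an odd place that does not divide `q` -/
lemma norm_side (hq : 0 < q) {p : ℕ} [Fact p.Prime] (ι : QB →ₐ[ℚ] PadicAlgCl p) (hp : p ≠ 2)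
    (hpq : ¬ p ∣ q) : ∃ m : ℤ, ‖(g : PadicAlgCl p)‖ * ‖(A + B * ι s : PadicAlgCl p)‖ =
      (p : ℝ) ^ (2 * m) := by
  have hr0 := r_ne hs hr hg hAB hq
  obtain ⟨m, hm⟩ := norm_unr (io_s hs ι) hp hpq ((map_ne_zero ι).2 hr0)
    (fun τ h1 h2 => hU p inferInstance ι hp τ h1 h2)
  refine ⟨m, ?_⟩
  rw [← norm_mul, ← zp_sq, ← hm, ← norm_pow, ← map_pow, hr]
  congr 1
  simp only [map_mul, map_add, map_natCast, map_intCast]

lemma sum_lt {p : ℕ} [Fact p.Prime] (hp : p ≠ 2) {S : PadicAlgCl p} (hS : ‖S‖ = 1)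
    (h1 : ‖(A + B * S : PadicAlgCl p)‖ < 1) (h2 : ‖(A - B * S : PadicAlgCl p)‖ < 1) :
    (p : ℤ) ∣ A ∧ (p : ℤ) ∣ B := by
  constructor
  · rw [← norm_int_lt]
    have e : (2 : PadicAlgCl p) * A = (A + B * S) + (A - B * S) := by ring
    have h3 : ‖(2 : PadicAlgCl p) * A‖ < 1 := by
      rw [e]
      exact add_lt h1 h2
    rwa [norm_mul, norm_two_odd hp, one_mul] at h3
  · rw [← norm_int_lt]
    have e : (2 : PadicAlgCl p) * B * S = (A + B * S) - (A - B * S) := by ring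
    have h3 : ‖(2 : PadicAlgCl p) * B * S‖ < 1 := by
      rw [e]
      exact sub_lt h1 h2
    rwa [norm_mul, norm_mul, norm_two_odd hp, one_mul, hS, mul_one] at h3

lemma norm_S {p : ℕ} [Fact p.Prime] {S : PadicAlgCl p} (hS : S ^ 2 = -(q : PadicAlgCl p))
    (hpq : ¬ p ∣ q) : ‖S‖ = 1 := by
  have h2 : ‖S‖ ^ 2 = 1 := by
    rw [← norm_pow, hS, norm_neg]
    exact Pool.Agent.W327.RK.norm_nat hpq
  exact (pow_eq_one_iff_of_nonneg (norm_nonneg _) two_ne_zero).1 h2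

lemma side_le {p : ℕ} [Fact p.Prime] {S : PadicAlgCl p} (hS : ‖S‖ ≤ 1) :
    ‖(A + B * S : PadicAlgCl p)‖ ≤ 1 :=
  add_le (norm_int_le A) (by
    rw [norm_mul]
    exact mul_le_one₀ (norm_int_le B) (norm_nonneg _) hS)

include hs hr hg hAB hU in
/-- both sides -/
lemma both_sides (hq : 0 < q) {p : ℕ} [Fact p.Prime] (ι : QB →ₐ[ℚ] PadicAlgCl p) (hp : p ≠ 2)
    (hpq : ¬ p ∣ q) : ∃ m m' : ℤ, ‖(g : PadicAlgCl p)‖ * ‖(A + B * ι s : PadicAlgCl p)‖ =
      (p : ℝ) ^ (2 * m) ∧ ‖(g : PadicAlgCl p)‖ * ‖(A - B * ι s : PadicAlgCl p)‖ =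
      (p : ℝ) ^ (2 * m') := by
  obtain ⟨m, hm⟩ := norm_side hs hr hg hAB hU hq ι hp hpq
  obtain ⟨c, hc⟩ := exists_conj hs hq
  obtain ⟨m', hm'⟩ := norm_side hs hr hg hAB hU hq (ι.comp c.toAlgHom) hp hpq
  refine ⟨m, m', hm, ?_⟩
  have e : (ι.comp c.toAlgHom) s = -ι s := by
    show ι (c s) = _
    rw [hc, map_neg]
  rw [e] at hm'
  rw [← hm']
  congr 2
  ring

include hs hr hg hAB hU in
/-- odd prime divisors of `g` divide `q` -/
lemma g_dvd (hq : 0 < q) {p : ℕ} [Fact p.Prime] (hp : p ≠ 2) (hpq : ¬ p ∣ q) : ¬ p ∣ g := by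
  intro hpg
  obtain ⟨ι⟩ := exists_io p
  obtain ⟨m, m', hm, hm'⟩ := both_sides hs hr hg hAB hU hq ι hp hpq
  have hS := norm_S (io_s hs ι) hpq
  have hp1 : (1 : ℝ) < p := by exact_mod_cast (Fact.out : p.Prime).one_lt
  have key : ∀ (x : ℝ) (m : ℤ), x ≤ 1 → (p : ℝ) ^ (-1 : ℤ) * x = (p : ℝ) ^ (2 * m) → x < 1 := by
    intro x m hx h
    refine lt_of_le_of_ne hx ?_
    rintro rfl
    rw [mul_one] at h
    have := zp_inj h
    omega
  rw [sqf_norm hg hpg] at hm hm'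
  have h1 := key _ m (side_le hS.le) hm
  have h2 := key _ m' (by
    have := side_le (A := A) (B := -B) hS.le
    push_cast at this
    rwa [neg_mul, ← sub_eq_add_neg] at this) hm'
  obtain ⟨h3, h4⟩ := sum_lt hp hS h1 h2
  exact not_both hAB h3 h4

include hs hr hg hAB hU in
/-- the place above `q` -/
lemma q_not_dvd [Fact q.Prime] (hq2 : q ≠ 2) : ¬ (q : ℤ) ∣ A := by
  rintro ⟨A', rfl⟩
  have hqp : 0 < q := (Fact.out : q.Prime).pos
  obtain ⟨ι⟩ := exists_io q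
  have hr0 := r_ne hs hr hg hAB hqp
  have hS := io_s hs ι
  obtain ⟨m, hm⟩ := norm_gen (S := ι s) (sq_or hS) ((map_ne_zero ι).2 hr0)
    (fun τ h1 h2 => hU q inferInstance ι hq2 τ h1 h2)
  have hB : ¬ (q : ℤ) ∣ B := fun h => not_both hAB ⟨A', rfl⟩ h
  have hS2 : ‖ι s‖ ^ 2 = (q : ℝ) ^ (-1 : ℤ) := by
    rw [← norm_pow, hS, norm_neg, norm_p]
  have hSlt : ‖ι s‖ < 1 := by
    have h1 : ‖ι s‖ ^ 2 < 1 := by
      rw [hS2, zpow_neg_one]
      exact inv_lt_one_of_one_lt₀ (by exact_mod_cast (Fact.out : q.Prime).one_lt)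
    exact (pow_lt_one_iff_of_nonneg (norm_nonneg _) two_ne_zero).1 h1
  obtain ⟨j, hj⟩ := norm_int (p := q) (n := (g : ℤ)) (by exact_mod_cast hg.ne_zero)
  rw [Int.cast_natCast] at hj
  have h1 : (ι r) ^ 2 = g * (ι s * (B + -(A' * ι s))) := by
    rw [← map_pow, hr]
    simp only [map_mul, map_add, map_natCast, map_intCast]
    push_cast
    linear_combination ((g : PadicAlgCl q) * A') * hS
  have h2 : ‖(B + -(A' * ι s) : PadicAlgCl q)‖ = 1 := by
    rw [eq_of_lt, norm_int_one hB]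
    rw [norm_int_one hB, norm_neg, norm_mul]
    calc ‖(A' : PadicAlgCl q)‖ * ‖ι s‖ ≤ 1 * ‖ι s‖ :=
          mul_le_mul_of_nonneg_right (norm_int_le A') (norm_nonneg _)
      _ < 1 := by rwa [one_mul]
  have h3 := congrArg norm h1
  rw [norm_pow, hm, norm_mul, norm_mul, h2, mul_one, hj] at h3
  have hq1 : (1 : ℝ) < q := by exact_mod_cast (Fact.out : q.Prime).one_lt
  have h4 : ‖ι s‖ = (q : ℝ) ^ (m - j) := by
    rw [zpow_sub₀ (by linarith), h3]
    field_simp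
  rw [h4, zp_sq] at hS2
  have := zp_inj hS2
  omega

include hs hr hg hAB hU in
/-- the norm of `A + B s` -/
lemma n_form [Fact q.Prime] (hq2 : q ≠ 2) : ∃ l : ℕ, l ≠ 0 ∧ (A ^ 2 + q * B ^ 2 = (l : ℤ) ^ 2 ∨
    A ^ 2 + q * B ^ 2 = 2 * (l : ℤ) ^ 2) := by
  have hqp : 0 < q := (Fact.out : q.Prime).pos
  have hn := n_pos hs hAB hqp
  obtain ⟨n, hn'⟩ : ∃ n : ℕ, A ^ 2 + q * B ^ 2 = n := ⟨(A ^ 2 + q * B ^ 2).toNat, by omega⟩
  have hn0 : n ≠ 0 := by
    rintro rfl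
    rw [hn'] at hn
    exact absurd hn (by norm_num)
  obtain ⟨k, l, hkl, hk⟩ := Nat.sq_mul_squarefree n
  have hl0 : l ≠ 0 := by
    rintro rfl
    apply hn0
    rw [← hkl]
    ring
  have hkl' : n = k * l ^ 2 := by rw [← hkl]; ring
  have hk2 : ∀ p : ℕ, p.Prime → p ∣ k → p = 2 := by
    intro p hp hpk
    by_contra hp2
    have : Fact p.Prime := ⟨hp⟩
    have hnorm : ∃ m : ℤ, ‖((n : ℕ) : PadicAlgCl p)‖ = (p : ℝ) ^ (2 * m) := by
      by_cases hpq : p ∣ q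
      · have hpq' : p = q := (Nat.prime_dvd_prime_iff_eq hp Fact.out).1 hpq
        subst hpq'
        refine ⟨0, ?_⟩
        rw [mul_zero, zpow_zero]
        apply Pool.Agent.W327.RK.norm_nat
        intro h
        have h1 : (p : ℤ) ∣ A ^ 2 + p * B ^ 2 := by rw [hn']; exact_mod_cast h
        have h2 : (p : ℤ) ∣ A ^ 2 := (Int.dvd_add_left (Dvd.intro _ rfl)).1 h1
        exact q_not_dvd hs hr hg hAB hU hq2 ((Nat.prime_iff_prime_int.1 hp).dvd_of_dvd_pow h2)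
      · obtain ⟨ι⟩ := exists_io p
        obtain ⟨m, m', hm, hm'⟩ := both_sides hs hr hg hAB hU hqp ι hp2 hpq
        rw [Pool.Agent.W327.RK.norm_nat (g_dvd hs hr hg hAB hU hqp hp2 hpq), one_mul] at hm hm'
        refine ⟨m + m', ?_⟩
        have e : ((n : ℕ) : PadicAlgCl p) = (A + B * ι s) * (A - B * ι s) := by
          have h1 : (((A ^ 2 + q * B ^ 2 : ℤ)) : PadicAlgCl p) = ((n : ℤ) : PadicAlgCl p) := by
            rw [hn']
          push_cast at h1
          rw [← h1]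
          linear_combination (B : PadicAlgCl p) ^ 2 * io_s hs ι
        rw [e, norm_mul, hm, hm', zp_add]
        congr 1
        ring
    obtain ⟨m, hm⟩ := hnorm
    rw [hkl'] at hm
    exact sqf_part hk hl0 hpk hm
  have hk' : k = 1 ∨ k = 2 := by
    by_cases h1 : k = 1
    · exact Or.inl h1
    · right
      obtain ⟨p, hp, hpk⟩ := Nat.exists_prime_and_dvd h1
      have := hk2 p hp hpk
      subst this
      obtain ⟨k', rfl⟩ := hpk
      by_cases h2 : k' = 1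
      · rw [h2]
      · exfalso
        obtain ⟨p, hp, hpk⟩ := Nat.exists_prime_and_dvd h2
        have := hk2 p hp (Dvd.dvd.mul_left hpk 2)
        subst this
        have h3 : 2 * 2 ∣ 2 * k' := Nat.mul_dvd_mul_left 2 hpk
        exact Nat.prime_two.not_isUnit (hk 2 h3)
  refine ⟨l, hl0, ?_⟩
  rcases hk' with rfl | rfl
  · left
    rw [hn', hkl']
    push_cast
    ring
  · right
    rw [hn', hkl']
    push_cast
    ring

end int

end Pool.Agent.NH6
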