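import Pool.Agent.NH6.PK

/-!
# The `2`-adic part of the argument
-/

set_option autoImplicit false
set_option linter.unusedSectionVars false

namespace Pool.Agent.NH6

open Pool.Agent.Y715.Nr Pool.Agent.Y715.Red Pool.Agent.W237.RK
open Pool.Agent.Y715.Gi (QB KK GK i₀_mem gk_fix)
open Pool.Agent.Y715.Df (Cmp exists_cmp)

/-- squarefree numbers with at most two prime divisors -/
lemma sqf_two {g q : ℕ} (hq : q.Prime) (hq2 : q ≠ 2) (hg : Squarefree g)
    (h : ∀ p : ℕ, p.Prime → p ∣ g → p = 2 ∨ p = q) :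
    ∃ g' : ℕ, (g' = 1 ∨ g' = q) ∧ (g = g' ∨ g = 2 * g') := by
  have key : ∀ g : ℕ, Squarefree g → (∀ p : ℕ, p.Prime → p ∣ g → p = q) → g = 1 ∨ g = q := by
    intro g hg h
    by_cases h1 : g = 1
    · exact Or.inl h1
    · right
      obtain ⟨p, hp, hpg⟩ := Nat.exists_prime_and_dvd h1
      have := h p hp hpg
      subst this
      obtain ⟨k, rfl⟩ := hpg
      by_cases h2 : k = 1
      · rw [h2, mul_one]
      · exfalso
        obtain ⟨p', hp', hpk⟩ := Nat.exists_prime_and_dvd h2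
        have := h p' hp' (Dvd.dvd.mul_left hpk p)
        subst this
        have h3 : p' * p' ∣ p' * k := Nat.mul_dvd_mul_left p' hpk
        exact hp'.not_isUnit (hg p' h3)
  by_cases h2 : 2 ∣ g
  · obtain ⟨k, rfl⟩ := h2
    have hk : Squarefree k := hg.squarefree_of_dvd (Dvd.intro_left _ rfl)
    refine ⟨k, key k hk fun p hp hpk => ?_, Or.inr rfl⟩
    rcases h p hp (Dvd.dvd.mul_left hpk 2) with rfl | h3
    · exfalso
      have h3 : 2 * 2 ∣ 2 * k := Nat.mul_dvd_mul_left 2 hpk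
      exact Nat.prime_two.not_isUnit (hg 2 h3)
    · exact h3
  · refine ⟨g, key g hg fun p hp hpg => ?_, Or.inl rfl⟩
    rcases h p hp hpg with rfl | h3
    · exact absurd hpg h2
    · exact h3

/-- the class of `B` modulo `8` -/
lemma B_mod {q : ℕ} {A B : ℤ} {l : ℤ} (hAB : IsCoprime A B) (hB : Odd B)
    (hn : A ^ 2 + q * B ^ 2 = 2 * l ^ 2) : ((B : ℤ) : ZMod 16) ^ 2 = 1 := by
  have hb : Odd B.natAbs := Int.natAbs_odd.2 hB
  have h1 : jacobiSym (A ^ 2) B.natAbs = 1 := by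
    apply jacobiSym.sq_one'
    have := Int.isCoprime_iff_gcd_eq_one.1 hAB
    show Nat.gcd A.natAbs ((B.natAbs : ℤ)).natAbs = 1
    rw [Int.natAbs_natCast]
    exact this
  have h2 : jacobiSym (A ^ 2) B.natAbs = jacobiSym (2 * l ^ 2) B.natAbs := by
    apply jacobiSym.mod_left'
    apply Int.ModEq.symm
    rw [Int.modEq_iff_dvd]
    refine Int.natAbs_dvd.2 ⟨-(q * B), ?_⟩
    linear_combination hn
  rw [h2, jacobiSym.mul_left, jacobiSym.pow_left, jacobiSym.at_two hb] at h1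
  rw [ZMod.χ₈_nat_eq_if_mod_eight] at h1
  have h3 : (0 : ℤ) ≤ jacobiSym l B.natAbs ^ 2 := sq_nonneg _
  have h4 : B.natAbs % 8 = 1 ∨ B.natAbs % 8 = 7 := by
    by_contra hcon
    split_ifs at h1
    · simp at h1
    · linarith
  have h5 : ((B.natAbs : ℕ) : ZMod 16) ^ 2 = 1 := by
    have h6 : B.natAbs % 16 = 1 ∨ B.natAbs % 16 = 9 ∨ B.natAbs % 16 = 7 ∨ B.natAbs % 16 = 15 := by
      omega
    rw [← ZMod.natCast_mod]
    rcases h6 with h6 | h6 | h6 | h6 <;> rw [h6] <;> decide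
  rcases Int.natAbs_eq B with h6 | h6
  · have h7 : ((B : ℤ) : ZMod 16) = ((B.natAbs : ℕ) : ZMod 16) := by
      rw [← Int.cast_natCast, ← h6]
    rw [h7, h5]
  · have h7 : ((B : ℤ) : ZMod 16) = -((B.natAbs : ℕ) : ZMod 16) := by
      rw [← Int.cast_natCast, ← Int.cast_neg, ← h6]
    rw [h7, neg_sq, h5]

/-- the place above two -/
lemma two_fix {q : ℕ} (hq : q % 16 = 7) {S : PadicAlgCl 2} (hS : S ^ 2 = -(q : PadicAlgCl 2))
    (τ : Au 2) : τ S = S := by
  rcases sq_or hS τ with h | h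
  · exact h
  · exfalso
    have n2 := Pool.Agent.Y715.Gi.norm_two'
    have h20 : (2 : PadicAlgCl 2) ≠ 0 := two_ne_zero
    obtain ⟨k, hk⟩ : ∃ k : ℕ, 1 + q = 8 * k := ⟨(1 + q) / 8, by omega⟩
    have hk' : (1 : PadicAlgCl 2) + q = 8 * k := by exact_mod_cast hk
    set W : PadicAlgCl 2 := (1 + S) / 2 with hW
    have h1 : W * (1 - W) = 2 * k := by
      rw [hW]
      field_simp
      linear_combination -hS + hk'
    have h2 : ‖W‖ * ‖1 - W‖ ≤ 2⁻¹ := by
      rw [← norm_mul, h1, norm_mul, n2]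
      have : ‖(k : PadicAlgCl 2)‖ ≤ 1 := IsUltrametricDist.norm_natCast_le_one _ k
      nlinarith
    have h3 : ‖1 - W‖ = ‖W‖ := by
      have e : τ W = 1 - W := by
        rw [hW, map_div₀, map_add, map_one, h, map_ofNat]
        field_simp
        ring
      rw [← e, nrm]
    rw [h3] at h2
    have h4 : ‖W‖ < 1 := by nlinarith [norm_nonneg W]
    have h5 : ‖(1 : PadicAlgCl 2)‖ < 1 := by
      have e : (1 : PadicAlgCl 2) = W + (1 - W) := by ring
      rw [e]
      exact add_lt h4 (by rw [h3]; exact h4)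
    rw [norm_one] at h5
    exact lt_irrefl _ h5

/-- squares in `ℚ_2` -/
lemma int_of_sq {x : ℚ_[2]} (h : ‖x ^ 2‖ ≤ 1) : ∃ y : ℤ_[2], (y : ℚ_[2]) = x := by
  rw [norm_pow] at h
  exact ⟨⟨x, (pow_le_one_iff_of_nonneg (norm_nonneg _) two_ne_zero).1 h⟩, rfl⟩

lemma int_of_half {x : ℚ_[2]} (h : ‖2 * x ^ 2‖ ≤ 1) : ∃ y : ℤ_[2], (y : ℚ_[2]) = x := by
  have n2 : ‖(2 : ℚ_[2])‖ = 1 / 2 := by
    have := Padic.norm_p (p := 2)
    simpa using this
  rw [norm_mul, norm_pow, n2] at h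
  refine ⟨⟨x, ?_⟩, rfl⟩
  by_contra hcon
  push Not at hcon
  have hx0 : x ≠ 0 := by
    rintro rfl
    rw [norm_zero] at hcon
    linarith
  have h1 := Padic.norm_eq_zpow_neg_valuation hx0
  have h2 : (2 : ℝ) ≤ ‖x‖ := by
    rw [h1] at hcon ⊢
    have h3 : 0 < -x.valuation := by
      by_contra h4
      push Not at h4
      have : ((2 : ℕ) : ℝ) ^ (-x.valuation) ≤ 1 := zpow_le_one_of_nonpos₀ (by norm_num) h4
      linarith
    calc (2 : ℝ) = ((2 : ℕ) : ℝ) ^ (1 : ℤ) := by norm_num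
      _ ≤ _ := zpow_le_zpow_right₀ (by norm_num) (by omega)
  nlinarith

/-- divisibility by two in `ℤ_2` -/
lemma two_dvd_of_sq {x z : ℤ_[2]} (h : x ^ 2 = 2 * z) : (2 : ℤ_[2]) ∣ x := by
  have hp : Prime (2 : ℤ_[2]) := by
    have := PadicInt.prime_p (p := 2)
    exact_mod_cast this
  exact hp.dvd_of_dvd_pow ⟨z, h⟩

/-- the reduction modulo `16` -/
noncomputable def r16 : ℤ_[2] →+* ZMod 16 := PadicInt.toZModPow 4

lemma dec1 : ∀ x y a : ZMod 16, 2 * x ^ 2 + y ^ 2 = a → 8 * a = 8 → (2 * x ^ 2 - y ^ 2) ^ 2 = 1 := by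
  decide

lemma dec2 : ∀ x y a : ZMod 16, x ^ 2 + 2 * y ^ 2 = a → 8 * a = 8 → (x ^ 2 - 2 * y ^ 2) ^ 2 = 1 := by
  decide

lemma odd16 {a : ℤ} (h : Odd a) : 8 * (a : ZMod 16) = 8 := by
  obtain ⟨k, rfl⟩ := h
  push_cast
  have h16 : (16 : ZMod 16) = 0 := by decide
  linear_combination (k : ZMod 16) * h16

/-- **The contradiction.** -/
theorem two_adic {q : ℕ} (hq : q.Prime) (hq7 : q % 16 = 7) {g : ℕ} {A B l : ℤ} (hAB : IsCoprime A B)
    (hl : l ≠ 0) (hn : A ^ 2 + q * B ^ 2 = 2 * l ^ 2) {g' : ℕ} (hg' : g' = 1 ∨ g' = q)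
    (hg : g = g' ∨ g = 2 * g') {S x : ℚ_[2]} (hS : S ^ 2 = -(q : ℚ_[2]))
    (hx : x ^ 2 = g * (A + B * S)) : False := by
  have hq0 : q ≠ 0 := hq.ne_zero
  have hg'0 : g' ≠ 0 := by rcases hg' with h | h <;> omega
  have hg0 : g ≠ 0 := by rcases hg with h | h <;> omega
  -- parity
  have hqo : (q : ℤ) % 2 = 1 := by omega
  have hodd : Odd A ∧ Odd B := by
    have hev : Even (A ^ 2 + q * B ^ 2) := by rw [hn]; exact even_two_mul _
    have hqo' : Odd (q : ℤ) := Int.odd_iff.2 hqo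
    rcases Int.even_or_odd A with hA | hA <;> rcases Int.even_or_odd B with hB | hB
    · exfalso
      have h1 := hAB.isUnit_of_dvd' hA.two_dvd hB.two_dvd
      exact absurd h1 (by decide)
    · exfalso
      have h1 : Odd (A ^ 2 + q * B ^ 2) :=
        (hA.pow_of_ne_zero two_ne_zero).add_odd (hqo'.mul hB.pow)
      exact (Int.not_even_iff_odd.2 h1) hev
    · exfalso
      have h1 : Odd (A ^ 2 + q * B ^ 2) :=
        hA.pow.add_even ((hB.pow_of_ne_zero two_ne_zero).mul_left _)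
      exact (Int.not_even_iff_odd.2 h1) hev
    · exact ⟨hA, hB⟩
  have hB16 := B_mod hAB hodd.2 hn
  have hg'odd : Odd (g' : ℤ) := by
    rcases hg' with h | h
    · rw [h]; decide
    · rw [h]; exact Int.odd_iff.2 hqo
  have hg16 : ((g' : ℕ) : ZMod 16) ^ 2 = 1 := by
    rcases hg' with h | h
    · rw [h]; decide
    · rw [h, ← ZMod.natCast_mod, hq7]; decide
  have hq16 : ((q : ℕ) : ZMod 16) = 7 := by
    rw [← ZMod.natCast_mod, hq7]; rfl
  -- the elements of `ℤ_2`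
  obtain ⟨S, rfl⟩ := int_of_sq (x := S) (by
    rw [hS, norm_neg]
    exact_mod_cast PadicInt.norm_le_one (q : ℤ_[2]))
  have hSi : S ^ 2 = -(q : ℤ_[2]) := by
    apply Subtype.coe_injective
    push_cast
    exact hS
  have hle : ∀ z : ℤ_[2], ‖(z : ℚ_[2])‖ ≤ 1 := fun z => z.2
  obtain ⟨x, rfl⟩ := int_of_sq (x := x) (by
    rw [hx]
    have := hle (g * (A + B * S))
    push_cast at this
    exact this)
  have hxi : x ^ 2 = g * (A + B * S) := by
    apply Subtype.coe_injective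
    push_cast
    exact hx
  have hgQ : (g : ℚ_[2]) ≠ 0 := by exact_mod_cast hg0
  have hlQ : (l : ℚ_[2]) ≠ 0 := by exact_mod_cast hl
  have hnQ : ((A : ℚ_[2]) + B * S) * (A - B * S) = 2 * l ^ 2 := by
    have h1 : ((A ^ 2 + q * B ^ 2 : ℤ) : ℚ_[2]) = ((2 * l ^ 2 : ℤ) : ℚ_[2]) := by rw [hn]
    push_cast at h1
    linear_combination h1 - (B : ℚ_[2]) ^ 2 * hS
  have hX0 : ((A : ℚ_[2]) + B * S) ≠ 0 := by
    intro h0
    rw [h0, zero_mul] at hnQ
    have := mul_ne_zero (two_ne_zero (α := ℚ_[2])) (pow_ne_zero 2 hlQ)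
    exact this hnQ.symm
  have hx0 : (x : ℚ_[2]) ≠ 0 := by
    intro h0
    rw [h0, zero_pow two_ne_zero] at hx
    exact mul_ne_zero hgQ hX0 hx.symm
  have hy : 2 * ((g : ℚ_[2]) * l / x) ^ 2 = g * (A - B * S) := by
    rw [div_pow, hx]
    field_simp
    linear_combination -hnQ
  obtain ⟨y, hy'⟩ := int_of_half (x := (g : ℚ_[2]) * l / x) (by
    rw [hy]
    have := hle (g * (A - B * S))
    push_cast at this
    exact this)
  rw [← hy'] at hy
  have hyi : 2 * y ^ 2 = g * (A - B * S) := by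
    apply Subtype.coe_injective
    push_cast
    exact hy
  have h2ne : (2 : ℤ_[2]) ≠ 0 := two_ne_zero
  obtain ⟨x1, rfl⟩ := two_dvd_of_sq (x := x) (z := g * A - y ^ 2) (by
    linear_combination hxi + hyi)
  have e1 : 2 * x1 ^ 2 + y ^ 2 = g * A := by
    apply mul_left_cancel₀ h2ne
    linear_combination hxi + hyi
  have e2 : 2 * x1 ^ 2 - y ^ 2 = g * (B * S) := by
    apply mul_left_cancel₀ h2ne
    linear_combination hxi - hyi
  have fin : ∀ X Y : ZMod 16, (X - Y) ^ 2 = 1 → (X - Y) = (g' : ZMod 16) * (B * r16 S) → False := by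
    intro X Y h1 h2
    rw [h2] at h1
    have h3 : r16 S ^ 2 = -7 := by
      rw [← map_pow, hSi, map_neg, map_natCast, hq16]
    have h4 : ((g' : ZMod 16) * (B * r16 S)) ^ 2 = -7 := by
      have : ((g' : ZMod 16) * (B * r16 S)) ^ 2 = (g' : ZMod 16) ^ 2 * (B ^ 2 * r16 S ^ 2) := by ring
      rw [this, h3, hg16, hB16]
      decide
    rw [h4] at h1
    exact absurd h1 (by decide)
  rcases hg with hg | hg
  · subst hg
    have e1' := congrArg r16 e1
    have e2' := congrArg r16 e2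
    simp only [map_add, map_sub, map_mul, map_pow, map_ofNat, map_natCast, map_intCast] at e1' e2'
    refine fin _ _ (dec1 _ _ _ e1' ?_) e2'
    have := odd16 (hg'odd.mul hodd.1)
    push_cast at this
    exact this
  · subst hg
    obtain ⟨y1, rfl⟩ := two_dvd_of_sq (x := y) (z := g' * A - x1 ^ 2) (by
      push_cast at e1
      linear_combination e1)
    have e3 : x1 ^ 2 + 2 * y1 ^ 2 = g' * A := by
      apply mul_left_cancel₀ h2ne
      push_cast at e1
      linear_combination e1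
    have e4 : x1 ^ 2 - 2 * y1 ^ 2 = g' * (B * S) := by
      apply mul_left_cancel₀ h2ne
      push_cast at e2
      linear_combination e2
    have e1' := congrArg r16 e3
    have e2' := congrArg r16 e4
    simp only [map_add, map_sub, map_mul, map_pow, map_ofNat, map_natCast, map_intCast] at e1' e2'
    refine fin _ _ (dec2 _ _ _ e1' ?_) e2'
    have := odd16 (hg'odd.mul hodd.1)
    push_cast at this
    exact this

end Pool.Agent.NH6
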