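import Pool.Agent.NH6.PK2

/-!
# Rigidity of `ℚ(√-q)`
-/

set_option autoImplicit false
set_option linter.unusedSectionVars false

namespace Pool.Agent.NH6

open Pool.Agent.Y715.Nr Pool.Agent.Y715.Red Pool.Agent.W237.RK
open Pool.Agent.Y715.Gi (QB KK GK i₀_mem gk_fix)
open Pool.Agent.Y715.Df (Cmp exists_cmp)

section

variable {q : ℕ} {s : QB} (hs : s ^ 2 = -(q : QB))

lemma fix_KK {p : ℕ} [Fact p.Prime] (hs : s ^ 2 = -(q : QB)) {ι : QB →ₐ[ℚ] PadicAlgCl p} {τ : Au p}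
    (h : τ (ι s) = ι s) {x : QB} (hx : x ∈ KK s) : τ (ι x) = ι x := by
  obtain ⟨a, b, rfl⟩ := KK_ex hs hx
  simp only [map_add, map_mul, map_ratCast, h]

lemma Unr.mul (hs : s ^ 2 = -(q : QB)) {r x : QB} (h : Unr s r) (hx : x ∈ KK s) :
    Unr s (x * r) := by
  intro p hp ι hp2 τ h1 h2
  rw [map_mul, map_mul, h p hp ι hp2 τ h1 h2, fix_KK hs h2 hx]

/-- rational numbers that become squares -/
lemma rat_case [Fact q.Prime] (hq7 : q % 16 = 7) (hs : s ^ 2 = -(q : QB)) {ρ : ℤ} (hρ : ρ ≠ 0)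
    {r : QB} (hr : r ^ 2 = ρ) (hU : Unr s r) (ι₀ : QB →ₐ[ℚ] PadicAlgCl 2)
    (h2 : ∀ τ : Au 2, τ (ι₀ r) = ι₀ r) : r ∈ KK s := by
  have hqp : q.Prime := Fact.out
  have hq2 : q ≠ 2 := by omega
  have hr0 : r ≠ 0 := by
    rintro rfl
    apply hρ
    have : (ρ : QB) = 0 := by rw [← hr]; ring
    exact_mod_cast this
  obtain ⟨k, u, hku, hk⟩ := Nat.sq_mul_squarefree ρ.natAbs
  have hu0 : u ≠ 0 := by
    rintro rfl
    apply hρ
    rw [← Int.natAbs_eq_zero, ← hku]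
    ring
  have hku' : ρ.natAbs = k * u ^ 2 := by rw [← hku]; ring
  have hdiv : ∀ p : ℕ, p.Prime → p ∣ k → p = 2 ∨ p = q := by
    intro p hp hpk
    by_contra hcon
    push Not at hcon
    have : Fact p.Prime := ⟨hp⟩
    have hpq : ¬ p ∣ q := fun h => hcon.2 ((Nat.prime_dvd_prime_iff_eq hp hqp).1 h)
    obtain ⟨ι⟩ := exists_io p
    obtain ⟨m, hm⟩ := norm_unr (io_s hs ι) hcon.1 hpq ((map_ne_zero ι).2 hr0)
      (fun τ h3 h4 => hU p inferInstance ι hcon.1 τ h3 h4)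
    apply sqf_part hk hu0 hpk (m := m)
    rw [← hku', ← zp_sq, ← hm, ← norm_pow, ← map_pow, hr, map_intCast]
    rcases Int.natAbs_eq ρ with h | h
    · nth_rw 2 [h]
      rw [Int.cast_natCast]
    · nth_rw 2 [h]
      rw [Int.cast_neg, norm_neg, Int.cast_natCast]
  obtain ⟨g', hg', hg⟩ := sqf_two hqp hq2 hk hdiv
  -- the `2`-adic square root
  obtain ⟨x, hx⟩ := fix_mem h2
  have hxr : x ^ 2 = ρ := by
    have h3 : algebraMap ℚ_[2] (PadicAlgCl 2) (x ^ 2) = algebraMap ℚ_[2] (PadicAlgCl 2) (ρ : ℚ_[2]) := by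
      rw [map_pow, hx, ← map_pow, hr, map_intCast, map_intCast]
    exact (algebraMap ℚ_[2] (PadicAlgCl 2)).injective h3
  have huQ : (u : ℚ_[2]) ≠ 0 := by exact_mod_cast hu0
  have key : ∀ ε : ℤ, (ε = 1 ∨ ε = -1) → ρ = ε * (k * u ^ 2) →
      ∃ z : ZMod 8, z ^ 2 = ((ε * k : ℤ) : ZMod 8) := by
    intro ε hε he
    have h3 : (x / u) ^ 2 = ((ε * k : ℤ) : ℚ_[2]) := by
      rw [div_pow, hxr, he]
      push_cast
      field_simp
    obtain ⟨z, hz⟩ := int_of_sq (x := x / u) (by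
      rw [h3]
      exact Padic.norm_int_le_one _)
    refine ⟨PadicInt.toZModPow 3 z, ?_⟩
    have h4 : z ^ 2 = ((ε * k : ℤ) : ℤ_[2]) := by
      apply Subtype.coe_injective
      push_cast
      rw [hz, h3]
      push_cast
      rfl
    have h5 := congrArg (PadicInt.toZModPow (p := 2) 3) h4
    rw [map_pow, map_intCast] at h5
    exact h5
  have hsq : ∀ (ε : ℤ) (n : ℕ), (ε = 1 ∨ ε = -1) → (n = 1 ∨ n = 7 ∨ n = 2 ∨ n = 6) →
      k % 8 = n → (∃ z : ZMod 8, z ^ 2 = ((ε * k : ℤ) : ZMod 8)) →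
      (ε = 1 ∧ n = 1) ∨ (ε = -1 ∧ n = 7) := by
    intro ε n hε hn hkn hz
    have hk8 : ((ε * k : ℤ) : ZMod 8) = (ε : ZMod 8) * (n : ZMod 8) := by
      push_cast
      rw [← ZMod.natCast_mod k 8, hkn]
    rw [hk8] at hz
    rcases hε with rfl | rfl <;> rcases hn with rfl | rfl | rfl | rfl
    · exact Or.inl ⟨rfl, rfl⟩
    · exact absurd hz (by decide)
    · exact absurd hz (by decide)
    · exact absurd hz (by decide)
    · exact absurd hz (by decide)
    · exact Or.inr ⟨rfl, rfl⟩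
    · exact absurd hz (by decide)
    · exact absurd hz (by decide)
  have hkn : (k = 1 ∧ k % 8 = 1) ∨ (k = q ∧ k % 8 = 7) ∨ k % 8 = 2 ∨ k % 8 = 6 := by
    rcases hg' with h | h <;> rcases hg with h' | h' <;> omega
  have husr : ∀ v : QB, v ∈ KK s → r ^ 2 = v ^ 2 → r ∈ KK s := by
    intro v hv h3
    rcases sq_eq_sq_iff_eq_or_eq_neg.1 h3 with h4 | h4
    · rw [h4]; exact hv
    · rw [h4]; exact neg_mem hv
  rcases Int.natAbs_eq ρ with h | h
  · have he : ρ = 1 * (k * u ^ 2) := by rw [h, hku']; push_cast; ring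
    have hz := key 1 (Or.inl rfl) he
    have h5 : k = 1 := by
      rcases hkn with h5 | h5 | h5 | h5
      · exact h5.1
      · have := hsq 1 7 (Or.inl rfl) (by norm_num) h5.2 hz
        omega
      · have := hsq 1 2 (Or.inl rfl) (by norm_num) h5 hz
        omega
      · have := hsq 1 6 (Or.inl rfl) (by norm_num) h5 hz
        omega
    apply husr (u : QB) (natCast_mem _ _)
    rw [hr, he, h5]
    push_cast
    ring
  · have he : ρ = -1 * (k * u ^ 2) := by rw [h, hku']; push_cast; ring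
    have hz := key (-1) (Or.inr rfl) he
    have h5 : k = q := by
      rcases hkn with h5 | h5 | h5 | h5
      · have := hsq (-1) 1 (Or.inr rfl) (by norm_num) h5.2 hz
        omega
      · exact h5.1
      · have := hsq (-1) 2 (Or.inr rfl) (by norm_num) h5 hz
        omega
      · have := hsq (-1) 6 (Or.inr rfl) (by norm_num) h5 hz
        omega
    apply husr (s * u : QB) (mul_mem i₀_mem (natCast_mem _ _))
    rw [hr, he, h5, mul_pow, hs]
    push_cast
    ring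

/-- primitive elements -/
lemma prim_case [Fact q.Prime] (hq7 : q % 16 = 7) (hs : s ^ 2 = -(q : QB)) {g : ℕ} {A B : ℤ}
    {r : QB} (hr : r ^ 2 = g * (A + B * s)) (hg : Squarefree g) (hAB : IsCoprime A B)
    (hU : Unr s r) (ι₀ : QB →ₐ[ℚ] PadicAlgCl 2) (h2 : ∀ τ : Au 2, τ (ι₀ r) = ι₀ r) :
    r ∈ KK s := by
  have hqp : q.Prime := Fact.out
  have hq2 : q ≠ 2 := by omega
  obtain ⟨l, hl0, hl⟩ := n_form hs hr hg hAB hU hq2
  have hg0 : g ≠ 0 := hg.ne_zero
  rcases hl with hl | hl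
  · -- the norm is a square
    obtain ⟨l', hl', hAl⟩ : ∃ l' : ℤ, A ^ 2 + q * B ^ 2 = l' ^ 2 ∧ A + l' ≠ 0 := by
      by_cases h3 : A + l = 0
      · refine ⟨-l, by rw [hl]; ring, fun h4 => ?_⟩
        have h5 : (l : ℤ) = 0 := by omega
        exact hl0 (by exact_mod_cast h5)
      · exact ⟨l, hl, h3⟩
    have hAlQ : ((A + l' : ℤ) : QB) ≠ 0 := by exact_mod_cast hAl
    have hl'Q : (A : QB) ^ 2 + q * B ^ 2 = l' ^ 2 := by exact_mod_cast hl'
    set y : QB := A + l' + B * s with hy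
    have hy2 : y ^ 2 = 2 * ((A + l' : ℤ) : QB) * (A + B * s) := by
      rw [hy]
      push_cast
      linear_combination -hl'Q + (B : QB) ^ 2 * hs
    have hy0 : y ≠ 0 := by
      intro h0
      rw [h0] at hy2
      have h3 := elt_ne hs hAB hqp.pos
      have h4 := mul_ne_zero (mul_ne_zero two_ne_zero hAlQ) h3
      apply h4
      rw [← hy2]
      ring
    have hyK : y ∈ KK s := by
      rw [hy]
      exact add_mem (add_mem (intCast_mem _ _) (intCast_mem _ _)) (mul_mem (intCast_mem _ _) i₀_mem)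
    set κ : QB := 2 * ((A + l' : ℤ) : QB) / y with hκ
    have hκK : κ ∈ KK s := by
      rw [hκ]
      exact div_mem (mul_mem (ofNat_mem _ 2) (intCast_mem _ _)) hyK
    have hκ0 : κ ≠ 0 := div_ne_zero (mul_ne_zero two_ne_zero hAlQ) hy0
    have hρ : 2 * (g : ℤ) * (A + l') ≠ 0 :=
      mul_ne_zero (mul_ne_zero two_ne_zero (by exact_mod_cast hg0)) hAl
    have h3 : (κ * r) ^ 2 = ((2 * (g : ℤ) * (A + l') : ℤ) : QB) := by
      rw [hκ, mul_pow, div_pow, hr, hy2]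
      have h4 := elt_ne hs hAB hqp.pos
      push_cast at hAlQ ⊢
      field_simp
    have h4 := rat_case hq7 hs hρ h3 (hU.mul hs hκK) ι₀ (fun τ => by
      rw [map_mul, map_mul, h2 τ, fix_KK hs (two_fix hq7 (io_s hs ι₀) τ) hκK])
    have e : r = κ⁻¹ * (κ * r) := by field_simp
    rw [e]
    exact mul_mem (inv_mem hκK) h4
  · exfalso
    have hdiv : ∀ p : ℕ, p.Prime → p ∣ g → p = 2 ∨ p = q := by
      intro p hp hpg
      by_contra hcon
      push Not at hcon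
      have : Fact p.Prime := ⟨hp⟩
      have hpq : ¬ p ∣ q := fun h => hcon.2 ((Nat.prime_dvd_prime_iff_eq hp hqp).1 h)
      exact g_dvd hs hr hg hAB hU hqp.pos hcon.1 hpq hpg
    obtain ⟨g', hg', hgg⟩ := sqf_two hqp hq2 hg hdiv
    obtain ⟨S, hS⟩ := fix_mem (two_fix hq7 (io_s hs ι₀))
    obtain ⟨x, hx⟩ := fix_mem h2
    have hS2 : S ^ 2 = -(q : ℚ_[2]) := by
      apply (algebraMap ℚ_[2] (PadicAlgCl 2)).injective
      rw [map_pow, hS, io_s hs ι₀, map_neg, map_natCast]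
    have hx2 : x ^ 2 = g * (A + B * S) := by
      apply (algebraMap ℚ_[2] (PadicAlgCl 2)).injective
      rw [map_pow, hx, ← map_pow, hr]
      simp only [map_mul, map_add, map_natCast, map_intCast, hS]
    exact two_adic hqp hq7 hAB (l := l) (by exact_mod_cast hl0) hl hg' hgg hS2 hx2

/-- **square roots** -/
theorem arith [Fact q.Prime] (hq7 : q % 16 = 7) (hs : s ^ 2 = -(q : QB)) {r : QB} (hr0 : r ≠ 0)
    (hr : r ^ 2 ∈ KK s) (hU : Unr s r) (ι₀ : QB →ₐ[ℚ] PadicAlgCl 2)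
    (h2 : ∀ τ : Au 2, τ (ι₀ r) = ι₀ r) : r ∈ KK s := by
  obtain ⟨a, b, e⟩ := KK_ex hs hr
  have hda : (a.den : QB) ≠ 0 := by exact_mod_cast a.den_ne_zero
  have hdb : (b.den : QB) ≠ 0 := by exact_mod_cast b.den_ne_zero
  have ha : (a : QB) = a.num / a.den := by
    conv_lhs => rw [← Rat.num_div_den a]
    push_cast
    rfl
  have hb : (b : QB) = b.num / b.den := by
    conv_lhs => rw [← Rat.num_div_den b]
    push_cast
    rfl
  set a' : ℤ := a.num * b.den * (a.den * b.den) with ha'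
  set b' : ℤ := b.num * a.den * (a.den * b.den) with hb'
  set D : ℕ := a.den * b.den with hD
  have hD0 : (D : QB) ≠ 0 := by
    rw [hD]
    push_cast
    exact mul_ne_zero hda hdb
  have h3 : (D * r) ^ 2 = a' + b' * s := by
    rw [mul_pow, e, ha, hb, ha', hb', hD]
    push_cast
    field_simp
  have hab : a' ≠ 0 ∨ b' ≠ 0 := by
    by_contra hcon
    push Not at hcon
    rw [hcon.1, hcon.2] at h3
    have h4 : (D * r : QB) ^ 2 = 0 := by rw [h3]; simp
    exact mul_ne_zero hD0 hr0 (pow_eq_zero_iff two_ne_zero |>.1 h4)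
  obtain ⟨g, h, hgh, hg⟩ := Nat.sq_mul_squarefree (Int.gcd a' b')
  have hgcd0 : Int.gcd a' b' ≠ 0 := by
    intro h0
    rw [Int.gcd_eq_zero_iff] at h0
    rcases hab with h4 | h4
    · exact h4 h0.1
    · exact h4 h0.2
  have hh0 : h ≠ 0 := by
    rintro rfl
    apply hgcd0
    rw [← hgh]
    ring
  obtain ⟨A, B, hAB, hA, hB⟩ := Int.exists_gcd_one (m := a') (n := b') (Nat.pos_of_ne_zero hgcd0)
  have hhQ : (h : QB) ≠ 0 := by exact_mod_cast hh0
  have hgQ : ((Int.gcd a' b' : ℕ) : QB) = h ^ 2 * g := by rw [← hgh]; push_cast; ring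
  have haQ : (a' : QB) = A * (h ^ 2 * g) := by
    rw [← hgQ, ← Int.cast_natCast (R := QB), ← Int.cast_mul, ← hA]
  have hbQ : (b' : QB) = B * (h ^ 2 * g) := by
    rw [← hgQ, ← Int.cast_natCast (R := QB), ← Int.cast_mul, ← hB]
  have hκK : ((D : QB) / h) ∈ KK s := div_mem (natCast_mem _ _) (natCast_mem _ _)
  have hκ0 : ((D : QB) / h) ≠ 0 := div_ne_zero hD0 hhQ
  have h4 : ((D : QB) / h * r) ^ 2 = g * (A + B * s) := by
    have h5 : ((D : QB) / h * r) ^ 2 = (D * r) ^ 2 / h ^ 2 := by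
      field_simp
    rw [h5, h3, haQ, hbQ]
    field_simp
  have h6 := prim_case hq7 hs h4 hg (Int.isCoprime_iff_gcd_eq_one.2 hAB) (hU.mul hs hκK) ι₀
    (fun τ => by rw [map_mul, map_mul, h2 τ, map_div₀, map_natCast, map_natCast, map_div₀,
      map_natCast, map_natCast])
  have e2 : r = ((D : QB) / h)⁻¹ * ((D : QB) / h * r) := by field_simp
  rw [e2]
  exact mul_mem (inv_mem hκK) h6

/-! ### Groups -/

/-- the decomposition group -/
def DecG (s : QB) {p : ℕ} [Fact p.Prime] (ι : QB →ₐ[ℚ] PadicAlgCl p) : Subgroup (GK s) where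
  carrier := {σ | ∃ τ : Au p, Cmp ι τ σ}
  one_mem' := ⟨1, fun x => rfl⟩
  mul_mem' := by
    rintro σ σ' ⟨τ, h⟩ ⟨τ', h'⟩
    exact ⟨τ * τ', h.mul h'⟩
  inv_mem' := by
    rintro σ ⟨τ, h⟩
    refine ⟨τ⁻¹, fun x => ?_⟩
    have h1 := h (σ⁻¹ x)
    rw [← AlgEquiv.mul_apply, mul_inv_cancel, AlgEquiv.one_apply] at h1
    rw [← h1, ← AlgEquiv.mul_apply, inv_mul_cancel, AlgEquiv.one_apply]

/-- the inertia group -/
def InrG (s : QB) {p : ℕ} [Fact p.Prime] (ι : QB →ₐ[ℚ] PadicAlgCl p) : Subgroup (GK s) where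
  carrier := {σ | ∃ τ : Au p, Inert τ ∧ Cmp ι τ σ}
  one_mem' := ⟨1, fun z _ => by rw [AlgEquiv.one_apply, sub_self, norm_zero]; exact zero_lt_one,
    fun x => rfl⟩
  mul_mem' := by
    rintro σ σ' ⟨τ, hi, h⟩ ⟨τ', hi', h'⟩
    refine ⟨τ * τ', fun z hz => ?_, h.mul h'⟩
    rw [AlgEquiv.mul_apply]
    have e : τ (τ' z) - z = (τ (τ' z) - τ' z) + (τ' z - z) := by ring
    rw [e]
    exact add_lt (hi _ (by rwa [nrm])) (hi' z hz)
  inv_mem' := by
    rintro σ ⟨τ, hi, h⟩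
    refine ⟨τ⁻¹, fun z hz => ?_, fun x => ?_⟩
    · have e : τ⁻¹ z - z = -(τ (τ⁻¹ z) - τ⁻¹ z) := by
        rw [← AlgEquiv.mul_apply, mul_inv_cancel, AlgEquiv.one_apply]
        ring
      rw [e, norm_neg]
      exact hi _ (by rwa [nrm])
    · have h1 := h (σ⁻¹ x)
      rw [← AlgEquiv.mul_apply, mul_inv_cancel, AlgEquiv.one_apply] at h1
      rw [← h1, ← AlgEquiv.mul_apply, inv_mul_cancel, AlgEquiv.one_apply]

/-- the inertia groups at the odd places -/
def OddI (s : QB) : Set (Subgroup (GK s)) :=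
  {I | ∃ (p : ℕ) (_ : Fact p.Prime) (ι : QB →ₐ[ℚ] PadicAlgCl p), p ≠ 2 ∧ I = InrG s ι}

/-- quadratic characters -/
lemma zmod_rigid [Fact q.Prime] (hq7 : q % 16 = 7) (hs : s ^ 2 = -(q : QB))
    (ι₀ : QB →ₐ[ℚ] PadicAlgCl 2) (h : GK s → ZMod 2) (hc : IsLocallyConstant h)
    (hm : ∀ σ τ, h (σ * τ) = h σ + h τ) (hD : ∀ σ ∈ DecG s ι₀, h σ = 0)
    (hI : ∀ I ∈ OddI s, ∀ σ ∈ I, h σ = 0) : ∀ σ, h σ = 0 := by
  classical
  obtain ⟨r, a, hr0, hra, hσ⟩ := Pool.Agent.W309.TD.exists_root (K := KK s) (Ω := QB)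
    two_ne_zero (fun σ => if h σ = 0 then 1 else -1) (fun σ => by
      show (if h σ = 0 then (1 : QB) else -1) = 1 ∨ (if h σ = 0 then (1 : QB) else -1) = -1
      split_ifs
      · exact Or.inl rfl
      · exact Or.inr rfl) (fun σ τ => by
      show (if h (σ * τ) = 0 then (1 : QB) else -1) = (if h σ = 0 then (1 : QB) else -1) *
        (if h τ = 0 then (1 : QB) else -1)
      rw [hm]
      have h01 : ∀ x : ZMod 2, x = 0 ∨ x = 1 := by decide
      rcases h01 (h σ) with e1 | e1 <;> rcases h01 (h τ) with e2 | e2 <;> rw [e1, e2] <;>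
        simp <;> decide) (hc.comp (fun x : ZMod 2 => if x = 0 then (1 : QB) else -1))
  have h0 : ∀ σ : GK s, h σ = 0 → σ r = r := by
    intro σ h1
    have h2 : σ r = (if h σ = 0 then (1 : QB) else -1) * r := hσ σ
    rw [h2, if_pos h1, one_mul]
  have hK : r ∈ KK s := by
    refine arith hq7 hs hr0 (by rw [hra]; exact a.2) ?_ ι₀ ?_
    · intro p hp ι hp2 τ h1 h2
      obtain ⟨σ, hc⟩ := exists_cmp ι τ h2
      rw [hc, h0 σ (hI _ ⟨p, hp, ι, hp2, rfl⟩ σ ⟨τ, h1, hc⟩)]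
    · intro τ
      obtain ⟨σ, hc⟩ := exists_cmp ι₀ τ (two_fix hq7 (io_s hs ι₀) τ)
      rw [hc, h0 σ (hD σ ⟨τ, hc⟩)]
  intro σ
  by_contra h1
  have h2 : σ r = (if h σ = 0 then (1 : QB) else -1) * r := hσ σ
  rw [if_neg h1] at h2
  have h3 : σ r = r := σ.commutes (⟨r, hK⟩ : KK s)
  rw [h3] at h2
  apply hr0
  have h4 : (2 : QB) * r = 0 := by linear_combination h2
  exact (mul_eq_zero.1 h4).resolve_left two_ne_zero

/-- **Rigidity.** -/
theorem rigid_K [Fact q.Prime] (hq7 : q % 16 = 7) (hs : s ^ 2 = -(q : QB))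
    (ι₀ : QB →ₐ[ℚ] PadicAlgCl 2) :
    Rigid (DecG s ι₀ : Set (GK s)) {I | ∃ J ∈ OddI s, I = (J : Set (GK s))} := by
  intro A _ f hf hmul h2 hD hI σ
  by_contra hσ
  -- the elements of order two
  let A2 : AddSubgroup A :=
    { carrier := {x | x + x = 0}
      zero_mem' := add_zero 0
      add_mem' := fun {x y} hx hy => by
        show x + y + (x + y) = 0
        have hx' : x + x = 0 := hx
        have hy' : y + y = 0 := hy
        rw [add_add_add_comm, hx', hy', add_zero]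
      neg_mem' := fun {x} hx => by
        show -x + -x = 0
        have hx' : x + x = 0 := hx
        rw [← neg_add, hx', neg_zero] }
  let _ : Module (ZMod 2) A2 := AddCommGroup.zmodModule (n := 2) (fun x => by
    rw [two_nsmul]
    exact Subtype.ext x.2)
  let f' : GK s → A2 := fun σ => ⟨f σ, h2 σ⟩
  have hf'0 : f' σ ≠ 0 := fun h => hσ (congrArg Subtype.val h)
  have h3 : ∃ φ : Module.Dual (ZMod 2) A2, φ (f' σ) ≠ 0 := by
    by_contra hcon
    push Not at hcon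
    exact hf'0 ((Module.forall_dual_apply_eq_zero_iff (ZMod 2) (f' σ)).1 hcon)
  obtain ⟨φ, hφ⟩ := h3
  apply hφ
  refine zmod_rigid hq7 hs ι₀ (fun σ => φ (f' σ)) ?_ ?_ ?_ ?_ σ
  · have h4 : IsLocallyConstant f' := by
      rw [IsLocallyConstant.iff_eventually_eq] at hf ⊢
      intro τ
      filter_upwards [hf τ] with τ' h5
      exact Subtype.ext h5
    exact h4.comp φ
  · intro σ τ
    have h4 : f' (σ * τ) = f' σ + f' τ := Subtype.ext (hmul σ τ)
    rw [h4, map_add]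
  · intro σ hσ
    have h4 : f' σ = 0 := Subtype.ext (hD σ hσ)
    rw [h4, map_zero]
  · intro I hI' σ hσ
    have h4 : f' σ = 0 := Subtype.ext (hI (I : Set (GK s)) ⟨I, hI', rfl⟩ σ hσ)
    rw [h4, map_zero]

end

end Pool.Agent.NH6
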