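import Pool.Agent.NH6.Abs3

/-!
# The vanishing theorem over the field of rational numbers
-/

set_option autoImplicit false
set_option linter.unusedSectionVars false

namespace Pool.Agent.NH6

open Filter Topology
open Pool.Agent.Y715.Nr Pool.Agent.Y715.Red Pool.Agent.W237.RK
open Pool.Agent.Y715.Gi (QB KK GK i₀_mem gk_fix)
open Pool.Agent.Y715.Df (Cmp exists_cmp)

section

variable {E : Type} [NormedField E] [NormedAlgebra ℚ_[2] E]

lemma neg_small {N : ℕ} {C : Matrix (Fin N) (Fin N) ℤ_[2]} {I : Set (Fin N)}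
    (h : ∀ v : Fin N → ℤ_[2], C.mulVec v = -v → ∀ i ∈ I, (2 : ℤ_[2]) ∣ v i)
    {u : Fin N → E} (hu : mv C u = -u) {i : Fin N} (hi : i ∈ I) : ‖u i‖ ≤ 1 / 2 * ‖u‖ := by
  have hul : IsUltrametricDist E := ultra
  obtain ⟨Z, Y, hZY, hZ⟩ := neg_part h
  have h1 : mv (1 + C) u = 0 := by
    funext b
    have h2 := congrFun hu b
    have h3 : mv (1 : Matrix (Fin N) (Fin N) ℤ_[2]) u b = u b := by rw [mv_one]
    rw [mv_apply] at h2 h3 ⊢
    rw [Pi.zero_apply]
    have e : ∀ j, em E ((1 + C) b j) * u j = em E ((1 : Matrix (Fin N) (Fin N) ℤ_[2]) b j) * u j +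
        em E (C b j) * u j := fun j => by rw [Matrix.add_apply, map_add, add_mul]
    rw [Finset.sum_congr rfl fun j _ => e j, Finset.sum_add_distrib, h2, h3, Pi.neg_apply,
      add_neg_cancel]
  have h4 : mv Z u i = 0 := by
    rw [mv_apply]
    have e : ∀ l, em E (Z i l) * u l = ∑ j, algebraMap ℚ_[2] E (Y i j) *
        (em E ((1 + C) j l) * u l) := by
      intro l
      have h5 := congrFun (congrFun hZY i) l
      rw [Matrix.map_apply, Matrix.mul_apply] at h5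
      have h6 : em E (Z i l) = algebraMap ℚ_[2] E (∑ j, Y i j *
          (1 + C).map (algebraMap ℤ_[2] ℚ_[2]) j l) := by
        rw [← h5]
        rfl
      rw [h6, map_sum, Finset.sum_mul]
      refine Finset.sum_congr rfl fun j _ => ?_
      rw [map_mul, mul_assoc]
      rfl
    rw [Finset.sum_congr rfl fun l _ => e l, Finset.sum_comm]
    refine Finset.sum_eq_zero fun j _ => ?_
    rw [← Finset.mul_sum]
    have h5 := congrFun h1 j
    rw [mv_apply] at h5
    rw [h5, Pi.zero_apply, mul_zero]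
  have h5 : u i = ∑ j, em E ((1 : Matrix (Fin N) (Fin N) ℤ_[2]) i j - Z i j) * u j := by
    have h3 : mv (1 : Matrix (Fin N) (Fin N) ℤ_[2]) u i = u i := by rw [mv_one]
    rw [mv_apply] at h3 h4
    have e : ∀ j, em E ((1 : Matrix (Fin N) (Fin N) ℤ_[2]) i j - Z i j) * u j =
        em E ((1 : Matrix (Fin N) (Fin N) ℤ_[2]) i j) * u j - em E (Z i j) * u j := fun j => by
      rw [map_sub, sub_mul]
    rw [Finset.sum_congr rfl fun j _ => e j, Finset.sum_sub_distrib, h3, h4, sub_zero]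
  rw [h5]
  refine IsUltrametricDist.norm_sum_le_of_forall_le_of_nonneg (by positivity) fun j _ => ?_
  rw [norm_mul, norm_em]
  refine mul_le_mul ?_ (norm_le_pi_norm u j) (norm_nonneg _) (by norm_num)
  obtain ⟨z, hz⟩ := hZ i hi j
  rw [hz, norm_mul]
  have e2 : ‖(2 : ℤ_[2])‖ = 1 / 2 := by
    have h2 : (2 : ℤ_[2]) = ((2 : ℕ) : ℤ_[2]) := by norm_num
    rw [h2, PadicInt.norm_p]
    norm_num
  rw [e2]
  nlinarith [PadicInt.norm_le_one z, norm_nonneg z]

end

/-- elements of large order that move `√2` -/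
lemma exists_gamma {E : Type} [NormedField E] {χ : GK (1 : QB) →* Eˣ} {n : ℕ}
    (hχ2 : ∀ σ, ∃ k : ℕ, χ σ ^ 2 ^ k = 1) (h : ∃ σ, 2 * n < orderOf (χ σ)) :
    ∃ (γ : GK (1 : QB)) (t : QB), t ^ 2 = 2 ∧ γ t = -t ∧ 2 * n < orderOf (χ γ) := by
  obtain ⟨t, ht⟩ := IsAlgClosed.exists_pow_nat_eq (2 : QB) (n := 2) (by norm_num)
  have ht0 : t ≠ 0 := by
    rintro rfl
    norm_num at ht
  -- an element that moves `t`
  obtain ⟨γ₀, hγ₀⟩ : ∃ γ₀ : GK (1 : QB), γ₀ t = -t := by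
    by_contra hcon
    push Not at hcon
    have h1 : ∀ σ : GK (1 : QB), σ t = t := by
      intro σ
      have h2 : (σ t) ^ 2 = t ^ 2 := by
        rw [← map_pow, ht]
        exact map_ofNat σ 2
      rcases sq_eq_sq_iff_eq_or_eq_neg.1 h2 with h3 | h3
      · exact h3
      · exact absurd h3 (hcon σ)
    have h2 := InfiniteGalois.mem_bot_iff_fixed (k := KK (1 : QB)) (K := QB) t
    rw [IntermediateField.mem_bot] at h2
    obtain ⟨x, hx⟩ := h2.2 h1
    have h3 : t ∈ KK (1 : QB) := by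
      rw [← hx]
      exact x.2
    obtain ⟨a, ha⟩ := KK1_ex h3
    rw [ha] at ht
    have h4 : a ^ 2 = 2 := by exact_mod_cast ht
    have h5 := irrational_sqrt_two
    have h6 : (a : ℝ) ^ 2 = 2 := by exact_mod_cast h4
    apply h5
    refine ⟨|a|, ?_⟩
    rw [Rat.cast_abs, ← Real.sqrt_sq_eq_abs, h6]
  obtain ⟨σ, hσ⟩ := h
  have hfix : ∀ σ : GK (1 : QB), σ t = t ∨ σ t = -t := by
    intro σ
    have h2 : (σ t) ^ 2 = t ^ 2 := by
      rw [← map_pow, ht]
      exact map_ofNat σ 2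
    exact sq_eq_sq_iff_eq_or_eq_neg.1 h2
  rcases hfix σ with h1 | h1
  · by_cases h2 : 2 * n < orderOf (χ γ₀)
    · exact ⟨γ₀, t, ht, hγ₀, h2⟩
    · refine ⟨γ₀ * σ, t, ht, by rw [AlgEquiv.mul_apply, h1, hγ₀], ?_⟩
      obtain ⟨a, ha⟩ := hχ2 σ
      obtain ⟨b, hb⟩ := hχ2 γ₀
      obtain ⟨a', -, ha'⟩ := (Nat.dvd_prime_pow Nat.prime_two).1 (orderOf_dvd_of_pow_eq_one ha)
      obtain ⟨b', -, hb'⟩ := (Nat.dvd_prime_pow Nat.prime_two).1 (orderOf_dvd_of_pow_eq_one hb)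
      have h3 : b' < a' := by
        rw [← Nat.pow_lt_pow_iff_right (a := 2) (by norm_num), ← ha', ← hb']
        omega
      obtain ⟨d, hd⟩ : ∃ d, a' = d + 1 := ⟨a' - 1, by omega⟩
      by_contra h4
      -- the order of the product divides `2 ^ d`
      obtain ⟨e, he⟩ := hχ2 (γ₀ * σ)
      obtain ⟨e', -, he'⟩ := (Nat.dvd_prime_pow Nat.prime_two).1 (orderOf_dvd_of_pow_eq_one he)
      have h5 : e' < a' := by
        rw [← Nat.pow_lt_pow_iff_right (a := 2) (by norm_num), ← ha', ← he']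
        omega
      have h6 : χ (γ₀ * σ) ^ 2 ^ d = 1 := by
        rw [← orderOf_dvd_iff_pow_eq_one, he']
        exact pow_dvd_pow 2 (by omega)
      have h7 : χ γ₀ ^ 2 ^ d = 1 := by
        rw [← orderOf_dvd_iff_pow_eq_one, hb']
        exact pow_dvd_pow 2 (by omega)
      have h8 : χ σ ^ 2 ^ d = 1 := by
        rw [map_mul, mul_pow, h7, one_mul] at h6
        exact h6
      have h9 := Nat.le_of_dvd (by positivity) (orderOf_dvd_of_pow_eq_one h8)
      rw [ha', hd, pow_succ] at h9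
      have : 0 < 2 ^ d := by positivity
      omega
  · exact ⟨σ, t, ht, h1, hσ⟩

/-- **The vanishing theorem over `ℚ`.** -/
theorem q_main (ι₀ : QB →ₐ[ℚ] PadicAlgCl 2) {j : QB →+* ℂ} {cc : GK (1 : QB)}
    (hcc : ∀ x, j (cc x) = starRingEnd ℂ (j x)) {N : ℕ}
    (ρ : GK (1 : QB) →* Matrix (Fin N) (Fin N) ℤ_[2])
    (hρc : Continuous ρ) {wt : Fin N → ℕ} {n : ℕ} (hwt : ∀ i, wt i < n)
    (hfl : ∀ σ, Flg wt (ρ σ)) (κ : Fin N → Bool)
    (hk₀ : ∀ σ ∈ InrG 1 ι₀, ∀ i j, κ i = false → κ j = true → ρ σ i j = 0)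
    (hk₁ : ∀ v : Fin N → ℤ_[2], (ρ cc).mulVec v = -v → ∀ i, κ i = true → (2 : ℤ_[2]) ∣ v i)
    {E : Type} [NormedField E] [NormedAlgebra ℚ_[2] E] (χ : GK (1 : QB) →* Eˣ)
    (hχc : Continuous fun σ => (χ σ : E)) (hχ2 : ∀ σ, ∃ k : ℕ, χ σ ^ 2 ^ k = 1)
    (hχu : ∀ (p : ℕ) [Fact p.Prime] (ι : QB →ₐ[ℚ] PadicAlgCl p), p ≠ 2 → ∀ σ ∈ InrG 1 ι, χ σ = 1)
    (hχcc : χ cc = 1) (hlarge : ∃ σ, 2 * n < orderOf (χ σ))
    (hS : ∀ (p : ℕ) [Fact p.Prime] (ι : QB →ₐ[ℚ] PadicAlgCl p), p ≠ 2 →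
      (∀ σ ∈ InrG 1 ι, ρ σ = 1) ∨ ∃ φ ∈ DecG 1 ι, 2 * n < orderOf (χ φ))
    (c : GK (1 : QB) → Fin N → E) (hcc' : Continuous c)
    (hcm : ∀ σ τ, c (σ * τ) = c σ + (χ σ : E) • mv (ρ σ) (c τ))
    (hodd : ∀ (p : ℕ) [Fact p.Prime] (ι : QB →ₐ[ℚ] PadicAlgCl p), p ≠ 2 →
      ∃ y : Fin N → E, ∀ σ ∈ InrG 1 ι, c σ = (χ σ : E) • mv (ρ σ) y - y)
    (hw₀ : ∃ y : Fin N → E, ∀ σ ∈ InrG 1 ι₀, ∀ i, κ i = false →
      c σ i = ((χ σ : E) • mv (ρ σ) y - y) i) :
    ∃ y : Fin N → E, ∀ σ, c σ = (χ σ : E) • mv (ρ σ) y - y := by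
  by_cases hN : N = 0
  · subst hN
    exact ⟨0, fun σ => Subsingleton.elim _ _⟩
  have hn0 : 0 < n := lt_of_le_of_lt (Nat.zero_le _) (hwt ⟨0, Nat.pos_of_ne_zero hN⟩)
  obtain ⟨r, hr, hrn⟩ : ∃ r : ℝ, 1 < r ∧ r ^ n = 2 := by
    refine ⟨2 ^ ((n : ℝ)⁻¹), ?_, ?_⟩
    · exact Real.one_lt_rpow (by norm_num) (by positivity)
    · rw [← Real.rpow_natCast, ← Real.rpow_mul (by norm_num), inv_mul_cancel₀ (by positivity),
        Real.rpow_one]
  have hr0 : 0 < r := by linarith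
  have hr1 : r⁻¹ < 1 := inv_lt_one_of_one_lt₀ hr
  -- the representation
  let R : Representation E (GK (1 : QB)) (Fin N → E) :=
    { toFun := fun σ => (χ σ : E) • mv (ρ σ)
      map_one' := by
        refine LinearMap.ext fun v => ?_
        rw [map_one, Units.val_one, one_smul, map_one, mv_one]
        rfl
      map_mul' := fun σ τ => by
        refine LinearMap.ext fun v => ?_
        rw [map_mul, map_mul, Units.val_mul]
        show ((χ σ : E) * (χ τ : E)) • mv (ρ σ * ρ τ) v =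
          (χ σ : E) • mv (ρ σ) ((χ τ : E) • mv (ρ τ) v)
        rw [mv_mul, map_smul, mul_smul] }
  have hRd : ∀ σ v, R σ v = (χ σ : E) • mv (ρ σ) v := fun σ v => rfl
  have hn := nwt_norm (E := E) hr0 wt
  have hcon : ∀ σ (v : Fin N → E), nwt r wt (mv (ρ σ) v - v) ≤ r⁻¹ * nwt r wt v :=
    fun σ v => nwt_con hr hwt hrn (hfl σ) v
  have hχ' : ∀ σ, ∃ k : ℕ, (χ σ : E) ^ (2 ^ k) = 1 := by
    intro σ
    obtain ⟨k, hk⟩ := hχ2 σ
    refine ⟨k, ?_⟩
    rw [← Units.val_pow_eq_pow_val, hk, Units.val_one]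
  have hχn : ∀ σ, ‖(χ σ : E)‖ = 1 := by
    intro σ
    obtain ⟨k, hk⟩ := hχ' σ
    exact root_norm hk
  have hχ1 : ∀ σ, ‖(χ σ : E) - 1‖ < 1 := by
    intro σ
    obtain ⟨k, hk⟩ := hχ' σ
    exact root_lt hk
  have hdec : ∀ σ v, R σ v - v = ((χ σ : E) - 1) • v + (χ σ : E) • (mv (ρ σ) v - v) := by
    intro σ v
    rw [hRd]
    exact dec_id _ _ _
  have hsm : ∀ φ, r⁻¹ < ‖(χ φ : E) - 1‖ → ∀ v : Fin N → E, v ≠ 0 →
      nwt r wt ((χ φ : E) • (mv (ρ φ) v - v)) < ‖(χ φ : E) - 1‖ * nwt r wt v := by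
    intro φ hφ v hv
    rw [hn.smul, hχn, one_mul]
    exact (hcon φ v).trans_lt (mul_lt_mul_of_pos_right hφ (hn.pos v hv))
  have hbig : ∀ φ, r⁻¹ < ‖(χ φ : E) - 1‖ → ∀ v,
      nwt r wt (R φ v - v) = ‖(χ φ : E) - 1‖ * nwt r wt v := by
    intro φ hφ v
    by_cases hv : v = 0
    · rw [hv, map_zero, sub_zero, hn.zero, mul_zero]
    · have h1 : nwt r wt ((χ φ : E) • (mv (ρ φ) v - v)) < nwt r wt (((χ φ : E) - 1) • v) := by
        rw [hn.smul ((χ φ : E) - 1)]
        exact hsm φ hφ v hv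
      rw [hdec, hn.add_eq h1, hn.smul]
  have hnle : ∀ v : Fin N → E, nwt r wt v ≤ 2 * ‖v‖ := by
    intro v
    rw [← hrn]
    exact nwt_le_norm hr.le hwt v
  have hRc : ∀ v, Continuous fun σ => R σ v := by
    intro v
    refine continuous_pi fun i => ?_
    have e : (fun σ => R σ v i) = fun σ => (χ σ : E) * ∑ j, em E (ρ σ i j) * v j := rfl
    rw [e]
    refine hχc.mul (continuous_finsetSum _ fun j _ => Continuous.mul ?_ continuous_const)
    have h1 : Continuous fun σ => (ρ σ) i j := by fun_prop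
    have h2 : Continuous (em E) := by
      have h3 : Isometry (em E) := by
        refine Isometry.of_dist_eq fun x y => ?_
        rw [dist_eq_norm, dist_eq_norm, ← map_sub, norm_em]
      exact h3.continuous
    exact h2.comp h1
  have hnc : ∀ f : GK (1 : QB) → Fin N → E, Continuous f → ∀ σ, ∀ ε > 0,
      ∀ᶠ τ in 𝓝 σ, nwt r wt (f τ - f σ) < ε := by
    intro f hf σ ε hε
    have h1 : Tendsto (fun τ => ‖f τ - f σ‖) (𝓝 σ) (𝓝 0) := by
      have h2 := ((hf.tendsto σ).sub_const (f σ)).norm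
      rwa [sub_self, norm_zero] at h2
    filter_upwards [h1.eventually_lt_const (half_pos hε)] with τ hτ
    have := hnle (f τ - f σ)
    linarith
  have hgt : ∀ φ, 2 * n < orderOf (χ φ) → r⁻¹ < ‖(χ φ : E) - 1‖ := by
    intro φ hφo
    obtain ⟨k, hk⟩ := hχ2 φ
    obtain ⟨m, -, hm⟩ := (Nat.dvd_prime_pow Nat.prime_two).1 (orderOf_dvd_of_pow_eq_one hk)
    rw [hm] at hφo
    obtain ⟨j, rfl⟩ : ∃ j, m = j + 1 := by
      refine ⟨m - 1, ?_⟩
      have : m ≠ 0 := by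
        rintro rfl
        rw [pow_zero] at hφo
        omega
      omega
    have hj : n < 2 ^ j := by
      rw [pow_succ] at hφo
      omega
    have hφ2 : (χ φ : E) ^ (2 ^ j) ≠ 1 := by
      intro h2
      have h2' : χ φ ^ (2 ^ j) = 1 := by
        apply Units.ext
        rw [Units.val_pow_eq_pow_val, h2, Units.val_one]
      have h3 := Nat.le_of_dvd (by positivity) (orderOf_dvd_of_pow_eq_one h2')
      rw [hm, pow_succ] at h3
      have : 0 < 2 ^ j := by positivity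
      omega
    obtain ⟨k', hk'⟩ := hχ' φ
    exact root_gt hk' hφ2 hr hrn hj
  obtain ⟨γ, t, ht, hγt, hγo⟩ := exists_gamma hχ2 hlarge
  have hγr : Rigid (insert γ {cc} : Set (GK (1 : QB)))
      {I | ∃ J ∈ OddI (1 : QB), I = (J : Set (GK (1 : QB)))} := by
    rw [Set.pair_comm]
    exact rigid_real hcc ht hγt
  have hQn : ∀ v : Fin N → E, nwt r wt (v - prj κ v) ≤ nwt r wt v := fun v =>
    hn.sub_le le_rfl (nwt_prj hr0 wt κ v)
  refine abs_main3 (R := R) (P := prj κ) (γ := γ) (D₂ := {cc}) hn (by rw [norm_two]; norm_num) ?_ hcm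
    (hnc c hcc') (fun v => hnc _ (hRc v)) (nwt_prj hr0 wt κ) (prj_prj κ)
    (rigid_inr ι₀) hγr ?_ ?_ ?_ ?_ ?_
  · intro σ v hv
    rw [hdec]
    refine hn.add_lt ?_ ?_
    · rw [hn.smul]
      have := hn.pos v hv
      have := hχ1 σ
      nlinarith
    · rw [hn.smul, hχn, one_mul]
      have h3 := hcon σ v
      have := hn.pos v hv
      nlinarith
  · intro σ hσ v hv
    rw [prj_eq_zero] at hv ⊢
    intro i hi
    rw [hRd, Pi.smul_apply, mv_apply, smul_eq_mul]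
    refine mul_eq_zero_of_right _ (Finset.sum_eq_zero fun j _ => ?_)
    by_cases hj : κ j = true
    · rw [hk₀ σ hσ i j hi hj, map_zero, zero_mul]
    · rw [hv j (by simpa using hj), mul_zero]
  · obtain ⟨y, hy⟩ := hw₀
    refine ⟨y, fun σ hσ => ?_⟩
    rw [← sub_eq_zero, ← map_sub, prj_eq_zero]
    intro i hi
    rw [Pi.sub_apply, hy σ hσ i hi]
    exact sub_self _
  · -- the normalization
    intro v hv h0
    by_contra hv0
    have h1 := hgt γ hγo
    rw [hdec, map_add, map_smul, hv, smul_zero, zero_add] at h0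
    have h2 : ((χ γ : E) - 1) • v = -((χ γ : E) • (mv (ρ γ) v - v) -
        prj κ ((χ γ : E) • (mv (ρ γ) v - v))) := by
      rw [← sub_eq_zero, ← h0]
      abel
    have h3 := congrArg (nwt r wt) h2
    rw [hn.neg, hn.smul] at h3
    have h4 := hQn ((χ γ : E) • (mv (ρ γ) v - v))
    have h5 := hsm γ h1 v hv0
    linarith
  · -- the real place
    rintro σ rfl
    refine ⟨?_, fun u hu hu0 => ?_⟩
    · ext x
      have hji : Function.Injective j := j.injective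
      apply hji
      rw [AlgEquiv.mul_apply, hcc, hcc, AlgEquiv.one_apply, Complex.conj_conj]
    · rw [hRd, hχcc, Units.val_one, one_smul] at hu
      have h0 : 0 < nwt r wt u := hn.pos u hu0
      refine lt_of_le_of_lt (b := r⁻¹ * nwt r wt u) ?_ (by nlinarith)
      have hr1' : 0 < r⁻¹ := inv_pos.2 hr0
      rw [nwt_le_iff hr0 (by positivity)]
      intro i
      rw [Pi.sub_apply, prj_apply]
      by_cases hi : κ i = true
      · rw [if_pos hi, sub_zero]
        have h3 := neg_small (I := {i | κ i = true}) hk₁ hu hi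
        have h4 : ‖u‖ ≤ nwt r wt u := by
          rw [pi_norm_le_iff_of_nonneg h0.le]
          intro b
          refine le_trans ?_ (le_nwt hr0 wt u b)
          have : 1 ≤ r ^ wt b := one_le_pow₀ hr.le
          nlinarith [norm_nonneg (u b)]
        have h5 : r * r ^ wt i ≤ 2 := by
          rw [← pow_succ', ← hrn]
          exact pow_le_pow_right₀ hr.le (hwt i)
        have h6 : 0 < r ^ wt i := by positivity
        rw [inv_mul_eq_div, le_div_iff₀ hr0]
        calc r ^ wt i * ‖u i‖ * r = (r * r ^ wt i) * ‖u i‖ := by ring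
          _ ≤ 2 * (1 / 2 * ‖u‖) := mul_le_mul h5 h3 (norm_nonneg _) (by norm_num)
          _ ≤ nwt r wt u := by linarith
      · rw [if_neg hi, sub_self, norm_zero, mul_zero]
        positivity
  · rintro _ ⟨J, ⟨p, hp, ι, hp2, rfl⟩, rfl⟩
    refine ⟨hodd p ι hp2, ?_⟩
    rcases hS p ι hp2 with h | ⟨φ, hφ, hφo⟩
    · left
      intro σ hσ v
      rw [hRd, h σ hσ, mv_one, hχu p ι hp2 σ hσ, Units.val_one, one_smul]
    · right
      have hg := hgt φ hφo
      refine ⟨φ, fun σ hσ => inr_normal hφ hσ, fun v hv => ?_, fun σ hσ v hv => ?_⟩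
      · by_contra h0
        have h6 := hbig φ hg v
        rw [hv, sub_self, hn.zero] at h6
        have := hn.pos v h0
        have h7 : 0 < ‖(χ φ : E) - 1‖ := lt_trans (by positivity) hg
        nlinarith [mul_pos h7 this]
      · rw [hbig φ hg, hRd, hχu p ι hp2 σ hσ, Units.val_one, one_smul]
        exact (hcon σ v).trans_lt (mul_lt_mul_of_pos_right hg (hn.pos v hv))

end Pool.Agent.NH6
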