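import Pool.Agent.NH6.CmplK

/-!
# Rigidity of the field of rational numbers
-/

set_option autoImplicit false
set_option linter.unusedSectionVars false

namespace Pool.Agent.NH6

open Pool.Agent.Y715.Nr Pool.Agent.Y715.Red Pool.Agent.W237.RK
open Pool.Agent.Y715.Gi (QB KK GK i₀_mem gk_fix)
open Pool.Agent.Y715.Df (Cmp exists_cmp)

/-- rigidity through square roots -/
theorem rigid_gen {s : QB} {D : Set (GK s)} {Is : Set (Set (GK s))}
    (H : ∀ r : QB, r ≠ 0 → r ^ 2 ∈ KK s → (∀ σ ∈ D, σ r = r) → (∀ I ∈ Is, ∀ σ ∈ I, σ r = r) →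
      r ∈ KK s) : Rigid D Is := by
  classical
  have hz : ∀ h : GK s → ZMod 2, IsLocallyConstant h → (∀ σ τ, h (σ * τ) = h σ + h τ) →
      (∀ σ ∈ D, h σ = 0) → (∀ I ∈ Is, ∀ σ ∈ I, h σ = 0) → ∀ σ, h σ = 0 := by
    intro h hc hm hD hI
    obtain ⟨r, a, hr0, hra, hσ⟩ := Pool.Agent.W309.TD.exists_root (K := KK s) (Ω := QB)
      two_ne_zero (fun σ => if h σ = 0 then 1 else -1) (fun σ => by
        show (if h σ = 0 then (1 : QB) else -1) = 1 ∨ (if h σ = 0 then (1 : QB) else -1) = -1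
        split_ifs
        · exact Or.inl rfl
        · exact Or.inr rfl) (fun σ τ => by
        show (if h (σ * τ) = 0 then (1 : QB) else -1) = (if h σ = 0 then (1 : QB) else -1) *
          (if h τ = 0 then (1 : QB) else -1)
        rw [hm]
        have h01 : ∀ x : ZMod 2, x = 0 ∨ x = 1 := by decide
        rcases h01 (h σ) with e1 | e1 <;> rcases h01 (h τ) with e2 | e2 <;> rw [e1, e2] <;>
          simp <;> decide) (hc.comp (fun x : ZMod 2 => if x = 0 then (1 : QB) else -1))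
    have h0 : ∀ σ : GK s, h σ = 0 → σ r = r := by
      intro σ h1
      have h2 : σ r = (if h σ = 0 then (1 : QB) else -1) * r := hσ σ
      rw [h2, if_pos h1, one_mul]
    have hK : r ∈ KK s := H r hr0 (by rw [hra]; exact a.2) (fun σ hσ => h0 σ (hD σ hσ))
      (fun I hI' σ hσ => h0 σ (hI I hI' σ hσ))
    intro σ
    by_contra h1
    have h2 : σ r = (if h σ = 0 then (1 : QB) else -1) * r := hσ σ
    rw [if_neg h1] at h2
    have h3 : σ r = r := σ.commutes (⟨r, hK⟩ : KK s)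
    rw [h3] at h2
    apply hr0
    have h4 : (2 : QB) * r = 0 := by linear_combination h2
    exact (mul_eq_zero.1 h4).resolve_left two_ne_zero
  intro A _ f hf hmul h2 hD hI σ
  by_contra hσ
  -- the elements of order two
  let A2 : AddSubgroup A :=
    { carrier := {x | x + x = 0}
      zero_mem' := add_zero 0
      add_mem' := fun {x y} hx hy => by
        show x + y + (x + y) = 0
        have hx' : x + x = 0 := hx
        have hy' : y + y = 0 := hy
        rw [add_add_add_comm, hx', hy', add_zero]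
      neg_mem' := fun {x} hx => by
        show -x + -x = 0
        have hx' : x + x = 0 := hx
        rw [← neg_add, hx', neg_zero] }
  let _ : Module (ZMod 2) A2 := AddCommGroup.zmodModule (n := 2) (fun x => by
    rw [two_nsmul]
    exact Subtype.ext x.2)
  let f' : GK s → A2 := fun σ => ⟨f σ, h2 σ⟩
  have hf'0 : f' σ ≠ 0 := fun h => hσ (congrArg Subtype.val h)
  have h3 : ∃ φ : Module.Dual (ZMod 2) A2, φ (f' σ) ≠ 0 := by
    by_contra hcon
    push Not at hcon
    exact hf'0 ((Module.forall_dual_apply_eq_zero_iff (ZMod 2) (f' σ)).1 hcon)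
  obtain ⟨φ, hφ⟩ := h3
  apply hφ
  refine hz (fun σ => φ (f' σ)) ?_ ?_ ?_ ?_ σ
  · have h4 : IsLocallyConstant f' := by
      rw [IsLocallyConstant.iff_eventually_eq] at hf ⊢
      intro τ
      filter_upwards [hf τ] with τ' h5
      exact Subtype.ext h5
    exact h4.comp φ
  · intro σ τ
    have h4 : f' (σ * τ) = f' σ + f' τ := Subtype.ext (hmul σ τ)
    rw [h4, map_add]
  · intro σ hσ
    have h4 : f' σ = 0 := Subtype.ext (hD σ hσ)
    rw [h4, map_zero]
  · intro I hI' σ hσ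
    have h4 : f' σ = 0 := Subtype.ext (hI I hI' σ hσ)
    rw [h4, map_zero]

lemma KK1_ex {x : QB} (hx : x ∈ KK (1 : QB)) : ∃ a : ℚ, x = a := by
  have h : KK (1 : QB) = ⊥ := IntermediateField.adjoin_one
  rw [h, IntermediateField.mem_bot] at hx
  obtain ⟨a, rfl⟩ := hx
  exact ⟨a, eq_ratCast (algebraMap ℚ QB) a⟩

lemma sqf_one {k : ℕ} (hk : Squarefree k) (h : ∀ p : ℕ, p.Prime → p ∣ k → p = 2) :
    k = 1 ∨ k = 2 := by
  obtain ⟨m, hm⟩ : ∃ m, k = 2 ^ m :=
    ⟨_, Nat.eq_prime_pow_of_unique_prime_dvd hk.ne_zero (fun {d} hd hdk => h d hd hdk)⟩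
  rcases m with _ | _ | m
  · left; rw [hm]; rfl
  · right; rw [hm]; rfl
  · exfalso
    have h1 : 2 * 2 ∣ k := by
      rw [hm]
      exact ⟨2 ^ m, by ring⟩
    exact absurd (hk 2 h1) (by norm_num)

/-- square roots of rational numbers that are unramified at the odd primes -/
lemma q_form {r : QB} (hr0 : r ≠ 0) (hr : r ^ 2 ∈ KK (1 : QB))
    (hU : ∀ (p : ℕ) (_ : Fact p.Prime) (ι : QB →ₐ[ℚ] PadicAlgCl p), p ≠ 2 → ∀ τ : Au p, Inert τ →
      τ (ι r) = ι r) : ∃ (u : ℚ) (e : ℤ), u ≠ 0 ∧ (e = 1 ∨ e = -1 ∨ e = 2 ∨ e = -2) ∧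
      r ^ 2 = e * (u : QB) ^ 2 := by
  obtain ⟨a, ha⟩ := KK1_ex hr
  have hda : (a.den : QB) ≠ 0 := by exact_mod_cast a.den_ne_zero
  have ha' : (a : QB) = a.num / a.den := by
    conv_lhs => rw [← Rat.num_div_den a]
    push_cast
    rfl
  have ha0 : a ≠ 0 := by
    rintro rfl
    apply hr0
    rw [Rat.cast_zero] at ha
    exact pow_eq_zero_iff two_ne_zero |>.1 ha
  set N : ℤ := a.num * a.den with hN
  have hN0 : N ≠ 0 := mul_ne_zero (Rat.num_ne_zero.2 ha0) (by exact_mod_cast a.den_ne_zero)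
  have hr2 : (a.den * r) ^ 2 = (N : QB) := by
    rw [mul_pow, ha, ha', hN]
    push_cast
    field_simp
  obtain ⟨k, u, hku, hk⟩ := Nat.sq_mul_squarefree N.natAbs
  have hu0 : u ≠ 0 := by
    rintro rfl
    apply hN0
    rw [← Int.natAbs_eq_zero, ← hku]
    ring
  have hku' : N.natAbs = k * u ^ 2 := by rw [← hku]; ring
  have hdiv : ∀ p : ℕ, p.Prime → p ∣ k → p = 2 := by
    intro p hp hpk
    by_contra hcon
    have : Fact p.Prime := ⟨hp⟩
    obtain ⟨ι⟩ := exists_io p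
    have hne : ι (a.den * r) ≠ 0 := (map_ne_zero ι).2 (mul_ne_zero hda hr0)
    obtain ⟨m, hm⟩ := norm_ne hne (mem_kur fun τ hτ => by
      rw [map_mul, map_mul, map_natCast, map_natCast,
        hU p inferInstance ι hcon τ (inert_of_kur hτ)])
    apply sqf_part hk hu0 hpk (m := m)
    rw [← hku', ← zp_sq, ← hm, ← norm_pow, ← map_pow, hr2, map_intCast]
    rcases Int.natAbs_eq N with h | h
    · nth_rw 2 [h]
      rw [Int.cast_natCast]
    · nth_rw 2 [h]
      rw [Int.cast_neg, norm_neg, Int.cast_natCast]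
  have hk12 := sqf_one hk hdiv
  have huQ : (u : QB) ≠ 0 := by exact_mod_cast hu0
  refine ⟨(u : ℚ) / a.den, if 0 ≤ N then k else -k, ?_, ?_, ?_⟩
  · have h1 : (u : ℚ) ≠ 0 := by exact_mod_cast hu0
    have h2 : (a.den : ℚ) ≠ 0 := by exact_mod_cast a.den_ne_zero
    exact div_ne_zero h1 h2
  · rcases hk12 with h | h <;> rw [h] <;> split_ifs <;> simp
  · have h1 : (N : QB) = ((if 0 ≤ N then k else -k : ℤ) : QB) * (u : QB) ^ 2 := by
      have h2 : N = (if 0 ≤ N then k else -k : ℤ) * (u : ℤ) ^ 2 := by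
        have h3 : (N.natAbs : ℤ) = k * u ^ 2 := by exact_mod_cast hku'
        split_ifs with h4
        · rw [← Int.natAbs_of_nonneg h4, h3]
        · have h5 : N = -(N.natAbs : ℤ) := by
            have := Int.natAbs_neg N
            omega
          rw [h5, h3]
          ring
      exact_mod_cast congrArg (Int.cast (R := QB)) h2
    rw [h1] at hr2
    push_cast at hr2 ⊢
    rw [div_pow, mul_div_assoc', eq_div_iff (pow_ne_zero 2 hda), ← hr2]
    ring

/-- the square root `r` of a rational number that is fixed by the inertia groups at two -/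
lemma q_inert {r : QB} {u : ℚ} {e : ℤ} (hu : u ≠ 0) (he : e = 1 ∨ e = -1 ∨ e = 2 ∨ e = -2)
    (hr : r ^ 2 = e * (u : QB) ^ 2) {ι : QB →ₐ[ℚ] PadicAlgCl 2}
    (h : ∀ τ : Au 2, Inert τ → τ (ι r) = ι r) : e = 1 := by
  have huQ : (u : QB) ≠ 0 := by exact_mod_cast hu
  set x : PadicAlgCl 2 := ι (r / u) with hx
  have hx2 : x ^ 2 = e := by
    rw [hx, ← map_pow, div_pow, hr, mul_div_assoc, div_self (pow_ne_zero 2 huQ), mul_one,
      map_intCast]
  have hxf : ∀ τ : Au 2, Inert τ → τ x = x := by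
    intro τ hτ
    rw [hx, map_div₀, map_div₀, h τ hτ, map_ratCast, map_ratCast]
  have h2n : ‖(2 : PadicAlgCl 2)‖ = ((2 : ℕ) : ℝ) ^ (-1 : ℤ) := norm_p (p := 2)
  rcases he with rfl | rfl | rfl | rfl
  · rfl
  · exfalso
    have hz2 : (1 + x) ^ 2 = 2 * x := by
      push_cast at hx2
      linear_combination hx2
    have hx0 : x ≠ 0 := by
      rintro h0
      rw [h0] at hx2
      norm_num at hx2
    have hz0 : (1 + x) ≠ 0 := by
      intro h0
      rw [h0] at hz2
      have : (2 : PadicAlgCl 2) * x = 0 := by rw [← hz2]; ring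
      exact (mul_ne_zero two_ne_zero hx0) this
    obtain ⟨m, hm⟩ := norm_ne hz0 (mem_kur fun τ hτ => by
      rw [map_add, map_one, hxf τ (inert_of_kur hτ)])
    have hx1 : ‖x‖ = 1 := by
      have h3 : ‖x‖ ^ 2 = 1 := by
        rw [← norm_pow, hx2]
        simp
      exact (pow_eq_one_iff_of_nonneg (norm_nonneg _) two_ne_zero).1 h3
    have h4 : ‖(1 + x)‖ ^ 2 = ((2 : ℕ) : ℝ) ^ (-1 : ℤ) := by
      rw [← norm_pow, hz2, norm_mul, hx1, mul_one, h2n]
    rw [hm, zp_sq] at h4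
    have h5 := zp_inj h4
    omega
  · exfalso
    have hx0 : x ≠ 0 := by
      rintro h0
      rw [h0] at hx2
      norm_num at hx2
    obtain ⟨m, hm⟩ := norm_ne hx0 (mem_kur fun τ hτ => hxf τ (inert_of_kur hτ))
    have h4 : ‖x‖ ^ 2 = ((2 : ℕ) : ℝ) ^ (-1 : ℤ) := by
      have e : ((2 : ℤ) : PadicAlgCl 2) = 2 := by norm_num
      rw [← norm_pow, hx2, e, h2n]
    rw [hm, zp_sq] at h4
    have h5 := zp_inj h4
    omega
  · exfalso
    have hx0 : x ≠ 0 := by
      rintro h0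
      rw [h0] at hx2
      norm_num at hx2
    obtain ⟨m, hm⟩ := norm_ne hx0 (mem_kur fun τ hτ => hxf τ (inert_of_kur hτ))
    have h4 : ‖x‖ ^ 2 = ((2 : ℕ) : ℝ) ^ (-1 : ℤ) := by
      have e : ((-2 : ℤ) : PadicAlgCl 2) = -2 := by norm_num
      rw [← norm_pow, hx2, e, norm_neg, h2n]
    rw [hm, zp_sq] at h4
    have h5 := zp_inj h4
    omega

lemma unr_one {r : QB} (hI : ∀ I ∈ {I | ∃ J ∈ OddI (1 : QB), I = (J : Set (GK (1 : QB)))}, ∀ σ ∈ I,
    σ r = r) : ∀ (p : ℕ) (_ : Fact p.Prime) (ι : QB →ₐ[ℚ] PadicAlgCl p), p ≠ 2 → ∀ τ : Au p,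
      Inert τ → τ (ι r) = ι r := by
  intro p hp ι hp2 τ hτ
  obtain ⟨σ, hc⟩ := exists_cmp (i₀ := 1) ι τ (by rw [map_one, map_one])
  rw [hc, hI (InrG 1 ι : Set (GK (1 : QB))) ⟨InrG 1 ι, ⟨p, hp, ι, hp2, rfl⟩, rfl⟩ σ ⟨τ, hτ, hc⟩]

/-- **Rigidity at two.** -/
theorem rigid_inr (ι₀ : QB →ₐ[ℚ] PadicAlgCl 2) :
    Rigid (InrG 1 ι₀ : Set (GK (1 : QB))) {I | ∃ J ∈ OddI (1 : QB), I = (J : Set (GK (1 : QB)))} := by
  apply rigid_gen
  intro r hr0 hr hD hI
  obtain ⟨u, e, hu, he, hre⟩ := q_form hr0 hr (unr_one hI)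
  have h1 : e = 1 := by
    refine q_inert (ι := ι₀) hu he hre fun τ hτ => ?_
    obtain ⟨σ, hc⟩ := exists_cmp (i₀ := 1) ι₀ τ (by rw [map_one, map_one])
    rw [hc, hD σ ⟨τ, hτ, hc⟩]
  rw [h1, Int.cast_one, one_mul] at hre
  rcases sq_eq_sq_iff_eq_or_eq_neg.1 hre with h | h
  · rw [h]; exact SubfieldClass.ratCast_mem _ _
  · rw [h]; exact neg_mem (SubfieldClass.ratCast_mem _ _)

/-- **Rigidity at the real place.** -/
theorem rigid_real {j : QB →+* ℂ} {cc γ : GK (1 : QB)} (hcc : ∀ x, j (cc x) = starRingEnd ℂ (j x))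
    {t : QB} (ht : t ^ 2 = 2) (hγ : γ t = -t) :
    Rigid ({cc, γ} : Set (GK (1 : QB))) {I | ∃ J ∈ OddI (1 : QB), I = (J : Set (GK (1 : QB)))} := by
  apply rigid_gen
  intro r hr0 hr hD hI
  obtain ⟨u, e, hu, he, hre⟩ := q_form hr0 hr (unr_one hI)
  have huQ : (u : QB) ≠ 0 := by exact_mod_cast hu
  have hpos : 0 < e := by
    by_contra hcon
    have h1 : cc r = r := hD cc (Set.mem_insert _ _)
    have h2 : (j r).im = 0 := by
      have h3 := hcc r
      rw [h1] at h3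
      exact Complex.conj_eq_iff_im.1 h3.symm
    have h3 : (j r) ^ 2 = ((e * u ^ 2 : ℝ) : ℂ) := by
      rw [← map_pow, hre]
      simp
    have h4 : j r = ((j r).re : ℂ) := by
      apply Complex.ext
      · simp
      · rw [h2, Complex.ofReal_im]
    rw [h4] at h3
    have h5 : (j r).re ^ 2 = e * (u : ℝ) ^ 2 := by exact_mod_cast h3
    have h6 : (e : ℝ) < 0 := by
      have : e < 0 := by omega
      exact_mod_cast this
    have h7 : (0 : ℝ) < (u : ℝ) ^ 2 := by
      have : (u : ℝ) ≠ 0 := by exact_mod_cast hu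
      positivity
    nlinarith [sq_nonneg (j r).re]
  have hr' : r = u ∨ r = -u → r ∈ KK (1 : QB) := by
    rintro (h | h)
    · rw [h]; exact SubfieldClass.ratCast_mem _ _
    · rw [h]; exact neg_mem (SubfieldClass.ratCast_mem _ _)
  rcases he with h1 | h1 | h1 | h1
  · rw [h1, Int.cast_one, one_mul] at hre
    exact hr' (sq_eq_sq_iff_eq_or_eq_neg.1 hre)
  · omega
  · exfalso
    have h2 : γ r = r := hD γ (Set.mem_insert_of_mem _ rfl)
    have h3 : r ^ 2 = (t * u) ^ 2 := by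
      rw [hre, h1, mul_pow, ht]
      push_cast
      ring
    have h4 : γ (t * u) = -(t * u) := by
      rw [map_mul, hγ, map_ratCast]
      ring
    have h5 : γ r = -r := by
      rcases sq_eq_sq_iff_eq_or_eq_neg.1 h3 with h | h
      · rw [h, h4]
      · rw [h, map_neg, h4]
    rw [h2] at h5
    apply hr0
    have h6 : (2 : QB) * r = 0 := by linear_combination h5
    exact (mul_eq_zero.1 h6).resolve_left two_ne_zero
  · omega

end Pool.Agent.NH6
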