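import Pool.Agent.NH6.Glu

/-!
# The absolute Galois group of `ℚ(s)` as a subgroup of that of `ℚ`
-/

set_option autoImplicit false
set_option linter.unusedSectionVars false

namespace Pool.Agent.NH6

open Filter Topology
open Pool.Agent.Y715.Nr Pool.Agent.Y715.Red Pool.Agent.W237.RK
open Pool.Agent.Y715.Gi (QB KK GK i₀_mem gk_fix)
open Pool.Agent.Y715.Df (Cmp exists_cmp)

variable {s : QB}

/-- the inclusion -/
noncomputable def res (s : QB) : GK s →* (QB ≃ₐ[ℚ] QB) where
  toFun σ := σ.restrictScalars ℚ
  map_one' := rfl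
  map_mul' _ _ := rfl

lemma res_apply (σ : GK s) (x : QB) : res s σ x = σ x := rfl

lemma exists_res {g : QB ≃ₐ[ℚ] QB} (hg : g s = s) : ∃ σ : GK s, res s σ = g := by
  have hfix : g ∈ (KK s).fixingSubgroup := by
    rw [IntermediateField.mem_fixingSubgroup_iff]
    intro x hx
    have hint : IsAlgebraic ℚ s := Algebra.IsAlgebraic.isAlgebraic s
    have h1 : x ∈ Algebra.adjoin ℚ {s} := by
      rw [← IntermediateField.adjoin_simple_toSubalgebra_of_isAlgebraic hint]
      exact hx
    clear hx
    induction h1 using Algebra.adjoin_induction with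
    | mem y hy =>
      rw [Set.mem_singleton_iff] at hy
      rw [hy, hg]
    | algebraMap r => exact g.commutes r
    | add y z _ _ ihy ihz => rw [map_add, ihy, ihz]
    | mul y z _ _ ihy ihz => rw [map_mul, ihy, ihz]
  refine ⟨(IntermediateField.fixingSubgroupEquiv (KK s)) ⟨g, hfix⟩, ?_⟩
  ext x
  rfl

lemma res_range : (res s).range = MulAction.stabilizer (QB ≃ₐ[ℚ] QB) s := by
  ext g
  constructor
  · rintro ⟨σ, rfl⟩
    exact gk_fix σ
  · intro h
    exact exists_res h

lemma res_cont : Continuous (res s) := by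
  apply continuous_of_continuousAt_one
  rw [ContinuousAt, map_one]
  intro V hV
  obtain ⟨E, hE, hEV⟩ := (krullTopology_mem_nhds_one_iff ℚ QB V).1 hV
  obtain ⟨x, hx⟩ := Field.exists_primitive_element ℚ E
  have h2 : IsOpen (MulAction.stabilizer (GK s) (x : QB) : Set (GK s)) :=
    stabilizer_isOpen_of_isIntegral (x : QB)
  rw [Filter.mem_map]
  filter_upwards [h2.mem_nhds (one_mem _)] with σ hσ
  apply hEV
  show res s σ ∈ E.fixingSubgroup
  rw [IntermediateField.mem_fixingSubgroup_iff]
  intro y hy
  have hσx : σ (x : QB) = x := hσ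
  -- `y` is a polynomial in `x`
  have h3 : (⟨y, hy⟩ : E) ∈ IntermediateField.adjoin ℚ {x} := by rw [hx]; trivial
  have hint : IsAlgebraic ℚ x := Algebra.IsAlgebraic.isAlgebraic x
  have h4 : (⟨y, hy⟩ : E) ∈ Algebra.adjoin ℚ {x} := by
    rw [← IntermediateField.adjoin_simple_toSubalgebra_of_isAlgebraic hint]
    exact h3
  have h5 : ∀ z : E, z ∈ Algebra.adjoin ℚ {x} → res s σ (z : QB) = z := by
    intro z hz
    induction hz using Algebra.adjoin_induction with
    | mem y hy =>
      rw [Set.mem_singleton_iff] at hy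
      rw [hy]
      exact hσx
    | algebraMap r => exact (res s σ).commutes r
    | add y z _ _ ihy ihz =>
      have e : ((y + z : E) : QB) = y + z := rfl
      rw [e, map_add, ihy, ihz]
    | mul y z _ _ ihy ihz =>
      have e : ((y * z : E) : QB) = y * z := rfl
      rw [e, map_mul, ihy, ihz]
  exact h5 _ h4

lemma res_inj : Function.Injective (res s) := by
  intro σ τ h
  ext x
  have := congrArg (fun g : QB ≃ₐ[ℚ] QB => g x) h
  exact this

end Pool.Agent.NH6
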