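import Pool.Agent.NH6.Ind2

/-!
# Shapiro's lemma with local conditions
-/

set_option autoImplicit false
set_option linter.unusedSectionVars false

namespace Pool.Agent.NH6

open Filter Topology

variable {G : Type} [Group G] {H : Subgroup G} {B : Type} [Fintype B] [DecidableEq B]
  {E : Type} [NormedField E] [NormedAlgebra ℚ_[2] E]

variable {ρ : G → Matrix B B ℤ_[2]} (h1 : ρ 1 = 1)
  (hρ : ∀ a ∈ H, ∀ b ∈ H, ρ (a * b) = ρ a * ρ b) (χ : G →* Eˣ) {c : G → B → E}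
  (hc : ∀ a ∈ H, ∀ b ∈ H, c (a * b) = c a + (χ a : E) • mv (ρ a) (c b))

variable (H) in
/-- the extension of the cocycle to the group -/
noncomputable def bf (c : G → B → E) (g : G) : B → E := c (g * (rp H g)⁻¹)

include hc in
lemma bf_mul {h : G} (hh : h ∈ H) (g : G) :
    bf H c (h * g) = c h + (χ h : E) • mv (ρ h) (bf H c g) := by
  unfold bf
  rw [rp_mul H hh, mul_assoc, hc h hh _ (rp_mem H g)]

/-- the twisted action -/
noncomputable def RR (ρ : G → Matrix B B ℤ_[2]) (χ : G →* Eˣ) :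
    Representation E G (WI H (AE E ρ)) where
  toFun σ := (χ σ : E) • TI (AE E ρ) σ
  map_one' := by rw [map_one, map_one, Units.val_one, one_smul]
  map_mul' σ τ := by rw [map_mul, map_mul, Units.val_mul, smul_mul_smul_comm]

lemma RR_apply (σ : G) (f : WI H (AE E ρ)) (g : G) :
    (RR ρ χ σ f).1 g = (χ σ : E) • f.1 (g * σ) := rfl

lemma RR_def (σ : G) (f : WI H (AE E ρ)) : RR ρ χ σ f = (χ σ : E) • TI (AE E ρ) σ f := rfl

/-- the induced cocycle -/
noncomputable def Cc (σ : G) : WI H (AE E ρ) :=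
  ⟨fun g => ((χ g)⁻¹ : Eˣ) • (bf H c (g * σ) - bf H c g), fun h hh g => by
    beta_reduce
    rw [mul_assoc, bf_mul χ hc hh, bf_mul χ hc hh, AE_mv]
    rw [Units.smul_def, Units.smul_def, map_smul, map_sub, map_mul, mul_inv, Units.val_mul]
    have e : (χ h : E)⁻¹ * (χ h : E) = 1 := inv_mul_cancel₀ (χ h).ne_zero
    have e' : c h + (χ h : E) • mv (ρ h) (bf H c (g * σ)) - (c h + (χ h : E) • mv (ρ h) (bf H c g)) =
        (χ h : E) • (mv (ρ h) (bf H c (g * σ)) - mv (ρ h) (bf H c g)) := by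
      rw [smul_sub]
      abel
    rw [e', smul_smul, Units.val_inv_eq_inv_val, Units.val_inv_eq_inv_val]
    congr 1
    linear_combination (χ g : E)⁻¹ * e⟩

lemma Cc_apply (σ g : G) : (Cc χ hc σ).1 g = (χ g : E)⁻¹ • (bf H c (g * σ) - bf H c g) := by
  rw [← Units.val_inv_eq_inv_val]
  rfl

lemma Cc_mul (σ τ : G) : Cc χ hc (σ * τ) = Cc χ hc σ + RR ρ χ σ (Cc χ hc τ) := by
  apply Subtype.ext
  funext g
  show (Cc χ hc (σ * τ)).1 g = (Cc χ hc σ).1 g + (RR ρ χ σ (Cc χ hc τ)).1 g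
  rw [RR_apply, Cc_apply, Cc_apply, Cc_apply, smul_smul, map_mul, Units.val_mul, mul_inv,
    ← mul_assoc g σ τ]
  have e : (χ σ : E) * ((χ g : E)⁻¹ * (χ σ : E)⁻¹) = (χ g : E)⁻¹ := by
    have e2 : (χ σ : E) * (χ σ : E)⁻¹ = 1 := mul_inv_cancel₀ (χ σ).ne_zero
    linear_combination (χ g : E)⁻¹ * e2
  rw [e, ← smul_add]
  congr 1
  abel

include h1 hρ in
/-- **Shapiro's lemma.** -/
theorem glob_ind (h : ∃ y, ∀ σ, Cc χ hc σ = RR ρ χ σ y - y) :
    ∃ v : B → E, ∀ a ∈ H, c a = (χ a : E) • mv (ρ a) v - v := by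
  obtain ⟨y, hy⟩ := h
  have key : ∀ g σ, bf H c (g * σ) - (χ (g * σ) : E) • y.1 (g * σ) =
      bf H c g - (χ g : E) • y.1 g := by
    intro g σ
    have h2 : (Cc χ hc σ).1 g = (RR ρ χ σ y).1 g - y.1 g := congrFun (congrArg Subtype.val (hy σ)) g
    rw [Cc_apply, RR_apply] at h2
    have h3 := congrArg (fun v => (χ g : E) • v) h2
    simp only [smul_smul, smul_sub] at h3
    rw [mul_inv_cancel₀ (χ g).ne_zero, one_smul, one_smul, ← Units.val_mul, ← map_mul] at h3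
    rw [sub_eq_sub_iff_sub_eq_sub, h3]
  have h4 : ∀ g, bf H c g - (χ g : E) • y.1 g = bf H c 1 - (χ 1 : E) • y.1 1 := by
    intro g
    have := key 1 g
    rwa [one_mul] at this
  set v₀ : B → E := bf H c 1 - (χ 1 : E) • y.1 1 with hv₀
  refine ⟨-v₀, fun a ha => ?_⟩
  have h5 := h4 a
  have h6 : bf H c a = c a + (χ a : E) • mv (ρ a) (bf H c 1) := by
    have := bf_mul χ hc ha 1
    rwa [mul_one] at this
  have h7 : y.1 a = mv (ρ a) (y.1 1) := by
    have := y.2 a ha 1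
    rwa [mul_one, AE_mv] at this
  rw [h6, h7] at h5
  rw [map_neg, smul_neg, sub_neg_eq_add]
  have h8 : mv (ρ a) v₀ = mv (ρ a) (bf H c 1) - mv (ρ a) (y.1 1) := by
    rw [hv₀, map_one, Units.val_one, one_smul, map_sub]
  rw [h8, ← h5, smul_sub]
  abel

include h1 hρ in
/-- local conditions -/
theorem loc_ind (D : Subgroup G)
    (hD : ∀ g : G, ∃ y : B → E, ∀ a ∈ H, g⁻¹ * a * g ∈ D → c a = (χ a : E) • mv (ρ a) y - y) :
    ∃ y, ∀ σ ∈ D, Cc χ hc σ = RR ρ χ σ y - y := by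
  classical
  choose y₀ hy₀ using hD
  -- representatives of the double cosets
  let r : G → G := fun g => (DoubleCoset.mk H D g).out
  have hr : ∀ g, ∃ a ∈ H, ∃ d ∈ D, g = a * r g * d := by
    intro g
    have h2 := DoubleCoset.out_eq' H D (DoubleCoset.mk H D g)
    exact (DoubleCoset.eq H D _ _).1 h2
  have hr2 : ∀ g, ∀ a ∈ H, ∀ d ∈ D, r (a * g * d) = r g := by
    intro g a ha d hd
    show (DoubleCoset.mk H D (a * g * d)).out = (DoubleCoset.mk H D g).out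
    congr 1
    exact ((DoubleCoset.eq H D _ _).2 ⟨a, ha, d, hd, rfl⟩).symm
  choose α hα δ hδ hrd using hr
  let m : G → B → E := fun g => c (α g) - (χ (α g) : E) • mv (ρ (α g)) (y₀ (r g))
  -- independence of the choice
  have hm : ∀ g, ∀ a ∈ H, ∀ d ∈ D, g = a * r g * d →
      m g = c a - (χ a : E) • mv (ρ a) (y₀ (r g)) := by
    intro g a ha d hd hg
    have hx : a⁻¹ * α g ∈ H := H.mul_mem (H.inv_mem ha) (hα g)
    have hxD : (r g)⁻¹ * (a⁻¹ * α g) * r g ∈ D := by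
      have h3 := hrd g
      have e : (r g)⁻¹ * (a⁻¹ * α g) * r g = d * (δ g)⁻¹ := by
        have h4 : a * r g * d = α g * r g * δ g := by rw [← hg, ← h3]
        have h5 : α g = a * r g * d * (δ g)⁻¹ * (r g)⁻¹ := by
          rw [h4]
          group
        rw [h5]
        group
      rw [e]
      exact D.mul_mem hd (D.inv_mem (hδ g))
    have h2 := hy₀ (r g) _ hx hxD
    have e : α g = a * (a⁻¹ * α g) := by group
    show c (α g) - (χ (α g) : E) • mv (ρ (α g)) (y₀ (r g)) = _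
    generalize a⁻¹ * α g = x at hx h2 e
    rw [e, hc a ha _ hx, hρ a ha _ hx, mv_mul, h2, map_mul, Units.val_mul]
    rw [map_sub, map_smul, smul_sub, smul_smul]
    abel
  have hm1 : ∀ a ∈ H, ∀ g, m (a * g) = c a + (χ a : E) • mv (ρ a) (m g) := by
    intro a ha g
    have hrg : r (a * g) = r g := by
      have := hr2 g a ha 1 D.one_mem
      rwa [mul_one] at this
    rw [hm (a * g) (a * α g) (H.mul_mem ha (hα g)) (δ g) (hδ g) (by
      rw [hrg]
      nth_rw 1 [hrd g]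
      group), hrg, hc a ha _ (hα g), hρ a ha _ (hα g), mv_mul, map_mul, Units.val_mul]
    show _ = c a + (χ a : E) • mv (ρ a) (c (α g) - (χ (α g) : E) • mv (ρ (α g)) (y₀ (r g)))
    rw [map_sub, map_smul, smul_sub, smul_smul]
    abel
  have hm2 : ∀ g, ∀ d ∈ D, m (g * d) = m g := by
    intro g d hd
    have hrg : r (g * d) = r g := by
      have := hr2 g 1 H.one_mem d hd
      rwa [one_mul] at this
    rw [hm (g * d) (α g) (hα g) (δ g * d) (D.mul_mem (hδ g) hd) (by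
      rw [hrg]
      nth_rw 1 [hrd g]
      group), hrg]
  clear_value m
  refine ⟨⟨fun g => (χ g : E)⁻¹ • (bf H c g - m g), fun a ha g => ?_⟩, fun σ hσ => ?_⟩
  · beta_reduce
    rw [bf_mul χ hc ha, hm1 a ha, AE_mv, map_smul, map_sub, map_mul, Units.val_mul, mul_inv]
    have e : (χ a : E)⁻¹ * (χ a : E) = 1 := inv_mul_cancel₀ (χ a).ne_zero
    have e' : c a + (χ a : E) • mv (ρ a) (bf H c g) - (c a + (χ a : E) • mv (ρ a) (m g)) =
        (χ a : E) • (mv (ρ a) (bf H c g) - mv (ρ a) (m g)) := by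
      rw [smul_sub]
      abel
    rw [e', smul_smul]
    congr 1
    linear_combination (χ g : E)⁻¹ * e
  · apply Subtype.ext
    funext g
    show (Cc χ hc σ).1 g = (χ σ : E) • ((χ (g * σ) : E)⁻¹ • (bf H c (g * σ) - m (g * σ))) -
      (χ g : E)⁻¹ • (bf H c g - m g)
    rw [Cc_apply, hm2 g σ hσ, smul_smul, map_mul, Units.val_mul, mul_inv]
    have e : (χ σ : E) * ((χ g : E)⁻¹ * (χ σ : E)⁻¹) = (χ g : E)⁻¹ := by
      have e2 : (χ σ : E) * (χ σ : E)⁻¹ = 1 := mul_inv_cancel₀ (χ σ).ne_zero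
      linear_combination (χ g : E)⁻¹ * e2
    rw [e, ← smul_sub]
    congr 1
    abel

variable [Fintype (G ⧸ H)] [TopologicalSpace G] [IsTopologicalGroup G]

/-- continuity at the neutral element -/
def Cts (H : Subgroup G) (ρ : G → Matrix B B ℤ_[2]) (χ : G →* Eˣ) (c : G → B → E) : Prop :=
  ∀ ε > 0, ∀ᶠ h in 𝓝 (1 : G), h ∈ H ∧ ‖c h‖ < ε ∧ (∀ v : B → E, ‖mv (ρ h) v - v‖ ≤ ε * ‖v‖) ∧
    ‖(χ h : E) - 1‖ < ε

lemma tend_conj (s σ : G) : Tendsto (fun τ => s * τ * σ⁻¹ * s⁻¹) (𝓝 σ) (𝓝 1) := by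
  have h : Continuous fun τ : G => s * τ * σ⁻¹ * s⁻¹ := by fun_prop
  have h2 := h.tendsto σ
  have e : s * σ * σ⁻¹ * s⁻¹ = 1 := by group
  rwa [e] at h2

lemma tend_quot (σ : G) : Tendsto (fun τ => τ * σ⁻¹) (𝓝 σ) (𝓝 1) := by
  have h : Continuous fun τ : G => τ * σ⁻¹ := by fun_prop
  have h2 := h.tendsto σ
  rwa [mul_inv_cancel] at h2

lemma twist_small {χh : E} {ρh : Matrix B B ℤ_[2]} (v : B → E) {ε : ℝ} (hε : 0 ≤ ε)
    (h2 : ∀ v : B → E, ‖mv ρh v - v‖ ≤ ε * ‖v‖) (h3 : ‖χh - 1‖ ≤ ε) :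
    ‖χh • mv ρh v - v‖ ≤ ε * ‖v‖ := by
  have e : χh • mv ρh v - v = (χh - 1) • mv ρh v + (mv ρh v - v) := by
    rw [sub_smul, one_smul]
    abel
  rw [e]
  refine (pi_add _ _).trans (max_le ?_ (h2 v))
  rw [norm_smul]
  exact mul_le_mul h3 (mv_le _ _) (norm_nonneg _) hε

variable (hχ : ∀ σ, ‖(χ σ : E)‖ = 1)

include hχ in
lemma Cc_cont (hcts : Cts H ρ χ c) (σ : G) {ε : ℝ} (hε : 0 < ε) :
    ∀ᶠ τ in 𝓝 σ, sn (Cc χ hc τ - Cc χ hc σ) < ε := by
  have key : ∀ x : G ⧸ H, ∀ᶠ τ in 𝓝 σ, ‖bf H c (sx H x * τ) - bf H c (sx H x * σ)‖ < ε := by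
    intro x
    set C : ℝ := ‖bf H c (sx H x * σ)‖ + 1 with hC
    have hC0 : 0 < C := by positivity
    have h2 := hcts (min ε (ε / (2 * C))) (lt_min hε (by positivity))
    have h3 := (tend_conj (sx H x) σ).eventually h2
    filter_upwards [h3] with τ hτ
    obtain ⟨hh, hc1, hc2, hc3⟩ := hτ
    have e : sx H x * τ = (sx H x * τ * σ⁻¹ * (sx H x)⁻¹) * (sx H x * σ) := by group
    rw [e, bf_mul χ hc hh]
    rw [add_sub_assoc]
    refine (pi_add _ _).trans_lt (max_lt (hc1.trans_le (min_le_left _ _)) ?_)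
    refine (twist_small _ (by positivity) hc2 hc3.le).trans_lt ?_
    have h5 : ‖bf H c (sx H x * σ)‖ < C := by rw [hC]; linarith
    calc min ε (ε / (2 * C)) * ‖bf H c (sx H x * σ)‖ ≤ ε / (2 * C) * C :=
          mul_le_mul (min_le_right _ _) h5.le (norm_nonneg _) (by positivity)
      _ = ε / 2 := by field_simp
      _ < ε := by linarith
  have hall := eventually_all.2 key
  filter_upwards [hall] with τ hτ
  refine sn_lt hε fun x => ?_
  show ‖(Cc χ hc τ).1 (sx H x) - (Cc χ hc σ).1 (sx H x)‖ < ε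
  rw [Cc_apply, Cc_apply, ← smul_sub, norm_smul, norm_inv, hχ, inv_one, one_mul]
  have e : bf H c (sx H x * τ) - bf H c (sx H x) - (bf H c (sx H x * σ) - bf H c (sx H x)) =
      bf H c (sx H x * τ) - bf H c (sx H x * σ) := by abel
  rw [e]
  exact hτ x

include hχ in
lemma RR_cont (hcts : Cts H ρ χ c) (y : WI H (AE E ρ)) (σ : G) {ε : ℝ} (hε : 0 < ε) :
    ∀ᶠ τ in 𝓝 σ, sn (RR ρ χ τ y - RR ρ χ σ y) < ε := by
  have key : ∀ x : G ⧸ H, ∀ᶠ τ in 𝓝 σ, ‖(χ τ : E) • y.1 (sx H x * τ) -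
      (χ σ : E) • y.1 (sx H x * σ)‖ < ε := by
    intro x
    set C : ℝ := ‖y.1 (sx H x * σ)‖ + 1 with hC
    have hC0 : 0 < C := by positivity
    have h2 := hcts (ε / (2 * C)) (by positivity)
    have h3 := (tend_conj (sx H x) σ).eventually h2
    have h4 := (tend_quot σ).eventually h2
    filter_upwards [h3, h4] with τ hτ hτ'
    obtain ⟨hh, -, hc2, -⟩ := hτ
    obtain ⟨-, -, -, hc3⟩ := hτ'
    have e : sx H x * τ = (sx H x * τ * σ⁻¹ * (sx H x)⁻¹) * (sx H x * σ) := by group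
    have e2 : (χ τ : E) = (χ σ : E) * (χ (τ * σ⁻¹) : E) := by
      rw [← Units.val_mul, ← map_mul]
      have e3 : χ (σ * (τ * σ⁻¹)) = χ τ := by
        rw [map_mul, map_mul, map_inv, mul_comm (χ τ), mul_inv_cancel_left]
      rw [e3]
    rw [e, y.2 _ hh, AE_mv, e2, mul_smul, ← smul_sub, norm_smul, hχ, one_mul]
    refine (twist_small _ (by positivity) hc2 hc3.le).trans_lt ?_
    have h5 : ‖y.1 (sx H x * σ)‖ < C := by rw [hC]; linarith
    calc ε / (2 * C) * ‖y.1 (sx H x * σ)‖ ≤ ε / (2 * C) * C :=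
          mul_le_mul_of_nonneg_left h5.le (by positivity)
      _ = ε / 2 := by field_simp
      _ < ε := by linarith
  have hall := eventually_all.2 key
  filter_upwards [hall] with τ hτ
  exact sn_lt hε fun x => hτ x

end Pool.Agent.NH6
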